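import Pool.Agent.U372.HX.Flip

/-! # Walks with many possible moves are rare -/

set_option autoImplicit false

namespace Pool.Agent.U372.HX

open scoped ENNReal Classical

/-- box -/
noncomputable def bx (R : ℤ) (v : V) : Finset V :=
  Finset.Icc (v.1 - R) (v.1 + R) ×ˢ Finset.Icc (v.2 - R) (v.2 + R)

theorem mem_bx {R : ℤ} {u v : V} : u ∈ bx R v ↔ cl R u v := by
  unfold bx cl
  rw [Finset.mem_product, Finset.mem_Icc, Finset.mem_Icc, abs_le, abs_le]
  constructor <;> rintro ⟨⟨h1, h2⟩, h3, h4⟩ <;> refine ⟨⟨?_, ?_⟩, ?_, ?_⟩ <;> omega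

theorem bx_card (R : ℤ) (v : V) : (bx R v).card = (2 * R + 1).toNat ^ 2 := by
  unfold bx
  rw [Finset.card_product, Int.card_Icc, Int.card_Icc, sq]
  congr 2 <;> ring

/-- all possible moves which contain `v` -/
noncomputable def itf (v : V) : Finset (List V × List V) :=
  ((bx 5 v ×ˢ bx 5 v ×ˢ bx 5 v ×ˢ bx 5 v ×ˢ bx 5 v ×ˢ bx 5 v) ×ˢ (Finset.univ : Finset Bool)).image
    (fun q => if q.2 = true then
      ([q.1.1, q.1.2.1],
        [q.1.1, q.1.2.2.2.2.2, q.1.2.2.2.2.1, q.1.2.2.2.1, q.1.2.2.1, q.1.2.1])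
      else ([q.1.1, q.1.2.1, q.1.2.2.1],
        [q.1.1, q.1.2.2.2.2.2, q.1.2.2.2.2.1, q.1.2.2.2.1, q.1.2.2.1]))

/-- bound for the number of moves at a vertex -/
def C0 : ℕ := 121 ^ 6 * 2

theorem C0_pos : 1 ≤ C0 := by unfold C0; norm_num

theorem itf_card (v : V) : (itf v).card ≤ C0 := by
  unfold itf C0
  refine Finset.card_image_le.trans ?_
  simp only [Finset.card_product, bx_card, Finset.card_univ, Fintype.card_bool,
    show ((2 : ℤ) * 5 + 1).toNat = 11 from rfl]
  norm_num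

theorem mem_itf {i : List V × List V} (h : HP i) {v : V} (hv : v ∈ i.1 ∨ v ∈ i.2) :
    i ∈ itf v := by
  obtain ⟨a, b, c, d, e, f, hx, hi⟩ := h
  have hcl := hx.cl
  have hv' : v ∈ [a, b, c, d, e, f] := by
    rcases hi with rfl | rfl
    · simp only [List.mem_cons, List.not_mem_nil, or_false] at hv ⊢
      tauto
    · simp only [List.mem_cons, List.not_mem_nil, or_false] at hv ⊢
      tauto
  unfold itf
  rw [Finset.mem_image]
  have hm : ∀ t : Bool, (((a, b, c, d, e, f) : V × V × V × V × V × V), t) ∈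
      ((bx 5 v ×ˢ bx 5 v ×ˢ bx 5 v ×ˢ bx 5 v ×ˢ bx 5 v ×ˢ bx 5 v) ×ˢ
        (Finset.univ : Finset Bool)) := by
    intro t
    simp only [Finset.mem_product, Finset.mem_univ, and_true, mem_bx]
    exact ⟨hcl a (by simp) v hv', hcl b (by simp) v hv', hcl c (by simp) v hv',
      hcl d (by simp) v hv', hcl e (by simp) v hv', hcl f (by simp) v hv'⟩
  rcases hi with rfl | rfl
  · exact ⟨((a, b, c, d, e, f), true), hm _, by simp⟩
  · exact ⟨((a, b, c, d, e, f), false), hm _, by simp⟩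

/-- the possible moves in `W` inside `H` which add a point of `B` -/
noncomputable def QQ (H B : Set V) (W : List V) : Finset (List V × List V) :=
  (W.toFinset.biUnion itf).filter
    (fun i => Fl W i ∧ (∀ v ∈ i.2, v ∈ H) ∧ ∃ v ∈ i.2, v ∉ i.1 ∧ v ∈ B)

theorem mem_QQ {H B : Set V} {W : List V} {i : List V × List V} :
    i ∈ QQ H B W ↔ Fl W i ∧ (∀ v ∈ i.2, v ∈ H) ∧ ∃ v ∈ i.2, v ∉ i.1 ∧ v ∈ B := by
  unfold QQ
  rw [Finset.mem_filter, and_iff_right_iff_imp]
  rintro ⟨⟨h1, h2, -⟩, -⟩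
  obtain ⟨a, t, ha⟩ := List.exists_cons_of_ne_nil h1.props.1
  rw [Finset.mem_biUnion]
  refine ⟨a, ?_, mem_itf h1 (Or.inl (by rw [ha]; simp))⟩
  rw [List.mem_toFinset]
  exact h2.subset (by rw [ha]; simp)

/-- number of the vertices of `W` in `B` -/
noncomputable def nB (B : Set V) (W : List V) : ℕ := (W.toFinset.filter (fun v => v ∈ B)).card

theorem QQ_step {H B : Set V} {l W : List V} {i : List V × List V} (h : Mv l i W) :
    (QQ H B l).card ≤ (QQ H B W).card + 12 * C0 := by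
  have hsub : QQ H B l ⊆ QQ H B W ∪ (i.1 ++ i.2).toFinset.biUnion itf := by
    intro j hj
    rw [mem_QQ] at hj
    obtain ⟨h1, h2, h3⟩ := hj
    rw [Finset.mem_union]
    by_cases hd : ∃ v, (v ∈ i.1 ∨ v ∈ i.2) ∧ (v ∈ j.1 ∨ v ∈ j.2)
    · right
      obtain ⟨v, hv, hv'⟩ := hd
      rw [Finset.mem_biUnion]
      exact ⟨v, by rw [List.mem_toFinset, List.mem_append]; exact hv, mem_itf h1.1 hv'⟩
    · left
      rw [mem_QQ]
      exact ⟨h.far h1 (fun v hv hv' => hd ⟨v, hv, hv'⟩), h2, h3⟩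
  have h1 := Finset.card_le_card hsub
  have h2 := Finset.card_union_le (QQ H B W) ((i.1 ++ i.2).toFinset.biUnion itf)
  have h3 : ((i.1 ++ i.2).toFinset.biUnion itf).card ≤ (i.1 ++ i.2).toFinset.card * C0 :=
    Finset.card_biUnion_le_card_mul _ _ _ (fun v _ => itf_card v)
  have h4 : (i.1 ++ i.2).toFinset.card ≤ 12 := by
    refine (List.toFinset_card_le _).trans ?_
    obtain ⟨g1, g2, g3, g4, g5, g6, g7, g8, g9, g10, g11⟩ := h.1.props
    rw [List.length_append]
    omega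
  have h5 := Nat.mul_le_mul_right C0 h4
  omega

theorem nB_step {B : Set V} {l W : List V} {i : List V × List V} (h : Mv l i W) :
    nB B W ≤ nB B l + 6 := by
  unfold nB
  have hsub : W.toFinset.filter (fun v => v ∈ B) ⊆
      l.toFinset.filter (fun v => v ∈ B) ∪ i.2.toFinset := by
    intro v hv
    rw [Finset.mem_filter, List.mem_toFinset] at hv
    rw [Finset.mem_union, Finset.mem_filter, List.mem_toFinset, List.mem_toFinset]
    rcases h.mem hv.1 with h1 | h1
    · exact Or.inl ⟨h1, hv.2⟩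
    · exact Or.inr h1.1
  have h1 := Finset.card_le_card hsub
  have h2 := Finset.card_union_le (l.toFinset.filter (fun v => v ∈ B)) i.2.toFinset
  have h3 := (List.toFinset_card_le i.2).trans h.1.props.2.2.2.2.2.2.2.1
  omega

/-- total weight of a set of walks -/
noncomputable def tot (w : List V → ℝ≥0∞) (S : Set (List V)) : ℝ≥0∞ := ∑' l, S.indicator w l

theorem tot_mono (w : List V → ℝ≥0∞) {S S' : Set (List V)} (h : S ⊆ S') :
    tot w S ≤ tot w S' :=
  ENNReal.tsum_le_tsum (fun l => Set.indicator_le_indicator_of_subset h (fun _ => zero_le) l)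

theorem tot_union (w : List V → ℝ≥0∞) (S S' : Set (List V)) :
    tot w (S ∪ S') ≤ tot w S + tot w S' := by
  unfold tot
  rw [← ENNReal.tsum_add]
  refine ENNReal.tsum_le_tsum (fun l => ?_)
  simp only [Set.indicator_apply, Set.mem_union]
  by_cases h : l ∈ S
  · rw [if_pos (Or.inl h), if_pos h]
    exact le_self_add
  · by_cases h' : l ∈ S'
    · rw [if_pos (Or.inr h'), if_pos h']
      exact le_add_self
    · rw [if_neg (fun h'' => h''.elim h h')]
      exact zero_le

/-- sum over marked walks -/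
theorem marked (w : List V → ℝ≥0∞) (S : Set (List V))
    (Q : List V → Finset (List V × List V)) :
    ∑' p : {p : List V × (List V × List V) | p.1 ∈ S ∧ p.2 ∈ Q p.1}, w p.1.1 =
      ∑' l, S.indicator (fun l => ((Q l).card : ℝ≥0∞) * w l) l := by
  rw [tsum_subtype {p : List V × (List V × List V) | p.1 ∈ S ∧ p.2 ∈ Q p.1} (fun p => w p.1),
    ENNReal.tsum_prod']
  refine tsum_congr (fun l => ?_)
  by_cases h : l ∈ S
  · rw [Set.indicator_of_mem h]
    rw [tsum_eq_sum (s := Q l)]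
    · rw [← nsmul_eq_mul, ← Finset.sum_const]
      refine Finset.sum_congr rfl (fun i hi => ?_)
      rw [Set.indicator_of_mem]
      exact ⟨h, hi⟩
    · intro i hi
      rw [Set.indicator_of_notMem]
      exact fun h' => hi h'.2
  · rw [Set.indicator_of_notMem h]
    rw [ENNReal.tsum_eq_zero]
    intro i
    rw [Set.indicator_of_notMem]
    exact fun h' => h h'.1

/-- one move -/
theorem one (w : List V → ℝ≥0∞) (Y : ℝ≥0∞) (S S' : Set (List V))
    (Q Q' : List V → Finset (List V × List V)) (J M : ℕ)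
    (h1 : ∀ l ∈ S, ∀ i ∈ Q l, ∃ W ∈ S', Mv l i W ∧ i ∈ Q' W ∧ w l ≤ Y * w W)
    (hn : ∀ W ∈ S', W.Nodup) (hJ : ∀ l ∈ S, J ≤ (Q l).card) (hM : ∀ W ∈ S', (Q' W).card ≤ M) :
    (J : ℝ≥0∞) * tot w S ≤ Y * M * tot w S' := by
  choose! F hF1 hF2 hF3 hF4 using h1
  have e1 : (J : ℝ≥0∞) * tot w S ≤
      ∑' l, S.indicator (fun l => ((Q l).card : ℝ≥0∞) * w l) l := by
    unfold tot
    rw [← ENNReal.tsum_mul_left]
    refine ENNReal.tsum_le_tsum (fun l => ?_)
    by_cases h : l ∈ S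
    · rw [Set.indicator_of_mem h, Set.indicator_of_mem h]
      exact mul_le_mul_left (by exact_mod_cast hJ l h) _
    · rw [Set.indicator_of_notMem h, Set.indicator_of_notMem h, mul_zero]
  rw [← marked] at e1
  refine e1.trans ?_
  set P := {p : List V × (List V × List V) | p.1 ∈ S ∧ p.2 ∈ Q p.1} with hP
  set P' := {p : List V × (List V × List V) | p.1 ∈ S' ∧ p.2 ∈ Q' p.1} with hP'
  set φ : P → P' := fun p => ⟨(F p.1.1 p.1.2, p.1.2), hF1 _ p.2.1 _ p.2.2, hF3 _ p.2.1 _ p.2.2⟩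
    with hφ
  have hinj : Function.Injective φ := by
    rintro ⟨⟨l, i⟩, hl, hi⟩ ⟨⟨l', i'⟩, hl', hi'⟩ h
    simp only [hφ, Subtype.mk.injEq, Prod.mk.injEq] at h hl hi hl' hi'
    obtain ⟨h2, rfl⟩ := h
    have g1 := hF2 l hl i hi
    have g2 := hF2 l' hl' i hi'
    rw [← h2] at g2
    have := g1.inj g2 (hn _ (hF1 l hl i hi))
    subst this
    rfl
  calc ∑' p : P, w p.1.1 ≤ ∑' p : P, Y * w (φ p).1.1 :=
        ENNReal.tsum_le_tsum (fun p => hF4 _ p.2.1 _ p.2.2)
    _ = Y * ∑' p : P, w (φ p).1.1 := ENNReal.tsum_mul_left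
    _ ≤ Y * ∑' p : P', w p.1.1 :=
        mul_le_mul_right (ENNReal.tsum_comp_le_tsum_of_injective hinj (fun p : P' => w p.1.1)) _
    _ = Y * ∑' l, S'.indicator (fun l => ((Q' l).card : ℝ≥0∞) * w l) l := by rw [marked]
    _ ≤ Y * (M * tot w S') := by
        refine mul_le_mul_right ?_ _
        unfold tot
        rw [← ENNReal.tsum_mul_left]
        refine ENNReal.tsum_le_tsum (fun l => ?_)
        by_cases h : l ∈ S'
        · rw [Set.indicator_of_mem h, Set.indicator_of_mem h]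
          exact mul_le_mul_left (by exact_mod_cast hM l h) _
        · rw [Set.indicator_of_notMem h, Set.indicator_of_notMem h, mul_zero]
    _ = _ := by rw [mul_assoc]

/-- **Walks with many possible moves are rare.** -/
theorem many (w : List V → ℝ≥0∞) (Y Λ : ℕ) (hY : 1 ≤ Y) (G : ℕ → Set (List V))
    (H B : Set V) (hw : ∀ l i W, Mv l i W → w l ≤ Y * w W)
    (hG : ∀ j, ∀ l ∈ G j, ∀ i W, Mv l i W → (∀ v ∈ i.2, v ∈ H) → W ∈ G (j + 1))
    (hn : ∀ j, ∀ l ∈ G j, l.Nodup) (r M J : ℕ)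
    (hJ : 12 * C0 * r + Λ * (Y * (C0 * (M + 6 * r))) ≤ J) :
    (Λ : ℝ≥0∞) ^ r * tot w {l | l ∈ G 0 ∧ nB B l ≤ M ∧ J ≤ (QQ H B l).card} ≤ tot w (G r) := by
  have key : ∀ j, j ≤ r → (Λ : ℝ≥0∞) ^ j *
      tot w {l | l ∈ G 0 ∧ nB B l ≤ M ∧ J ≤ (QQ H B l).card} ≤
      tot w {l | l ∈ G j ∧ nB B l ≤ M + 6 * j ∧ J ≤ (QQ H B l).card + 12 * C0 * j} := by
    intro j
    induction j with
    | zero =>
      intro _
      rw [pow_zero, one_mul]
      exact tot_mono w (fun l hl => by simpa using hl)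
    | succ j ih =>
      intro hj
      have ih' := ih (by omega)
      set S := {l | l ∈ G j ∧ nB B l ≤ M + 6 * j ∧ J ≤ (QQ H B l).card + 12 * C0 * j} with hS
      set S' := {l | l ∈ G (j + 1) ∧ nB B l ≤ M + 6 * (j + 1) ∧
        J ≤ (QQ H B l).card + 12 * C0 * (j + 1)} with hS'
      set m : ℕ := Y * (C0 * (M + 6 * (j + 1))) with hm
      have hone := one w Y S S' (QQ H B)
        (fun W => (W.toFinset.filter (fun v => v ∈ B)).biUnion itf)
        (Λ * m) (C0 * (M + 6 * (j + 1))) (by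
          rintro l ⟨g1, g2, g3⟩ i hi
          have hi' := mem_QQ.1 hi
          obtain ⟨W, hW⟩ := hi'.1.exists
          refine ⟨W, ⟨hG j l g1 i W hW hi'.2.1, ?_, ?_⟩, hW, ?_, hw l i W hW⟩
          · have := nB_step (B := B) hW
            omega
          · have := QQ_step (H := H) (B := B) hW
            have e : 12 * C0 * (j + 1) = 12 * C0 * j + 12 * C0 := by ring
            omega
          · obtain ⟨v, hv, hv1, hvB⟩ := hi'.2.2
            rw [Finset.mem_biUnion]
            refine ⟨v, ?_, mem_itf hi'.1.1 (Or.inr hv)⟩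
            rw [Finset.mem_filter, List.mem_toFinset]
            exact ⟨hW.mem_new hv, hvB⟩)
        (fun W hW => hn _ W hW.1) (by
          rintro l ⟨g1, g2, g3⟩
          have e1 : m ≤ Y * (C0 * (M + 6 * r)) := by
            rw [hm]
            exact Nat.mul_le_mul_left _ (Nat.mul_le_mul_left _ (by omega))
          have e2 := Nat.mul_le_mul_left Λ e1
          have e3 : 12 * C0 * j ≤ 12 * C0 * r := Nat.mul_le_mul_left _ (by omega)
          omega) (by
          rintro W ⟨g1, g2, g3⟩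
          refine (Finset.card_biUnion_le_card_mul _ _ _ (fun v _ => itf_card v)).trans ?_
          rw [mul_comm]
          exact Nat.mul_le_mul_left _ g2)
      have hmpos : 1 ≤ m := by
        rw [hm]
        have := C0_pos
        have : 0 < Y * (C0 * (M + 6 * (j + 1))) := by positivity
        exact this
      have hm0 : (m : ℝ≥0∞) ≠ 0 := by
        simp only [ne_eq, Nat.cast_eq_zero]
        omega
      have hle : (Λ : ℝ≥0∞) * tot w S ≤ tot w S' := by
        have e : (m : ℝ≥0∞) * ((Λ : ℝ≥0∞) * tot w S) ≤ m * tot w S' := by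
          calc (m : ℝ≥0∞) * ((Λ : ℝ≥0∞) * tot w S) = ((Λ * m : ℕ) : ℝ≥0∞) * tot w S := by
                push_cast; ring
            _ ≤ _ := hone
            _ = m * tot w S' := by rw [hm]; push_cast; ring
        exact (ENNReal.mul_le_mul_iff_right hm0 (ENNReal.natCast_ne_top m)).1 e
      calc (Λ : ℝ≥0∞) ^ (j + 1) *
            tot w {l | l ∈ G 0 ∧ nB B l ≤ M ∧ J ≤ (QQ H B l).card}
          = Λ * (Λ ^ j * tot w {l | l ∈ G 0 ∧ nB B l ≤ M ∧ J ≤ (QQ H B l).card}) := by
            rw [pow_succ]; ring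
        _ ≤ Λ * tot w S := mul_le_mul_right ih' _
        _ ≤ _ := hle
  exact (key r le_rfl).trans (tot_mono w (fun l hl => hl.1))

end Pool.Agent.U372.HX
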