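import Pool.Agent.U372.HX.Split
import Pool.Agent.Y981.Sup2

/-! # Domains of the honeycomb lattice -/

set_option autoImplicit false

namespace Pool.Agent.U372.HX

open scoped ENNReal Classical
open Pool.Agent.W832.HR Pool.Agent.W818.TD

/-- the critical weight -/
noncomputable def wt (l : List V) : ℝ≥0∞ := xc ^ (l.length - 1)

theorem tot_wt (D : Set V) (p q : V) : tot wt (Tr D p q) = Z D p q := by
  unfold tot
  exact (tsum_subtype (Tr D p q) wt).symm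

theorem xc_le : xc ≤ 1 := by
  unfold xc
  rw [ENNReal.ofReal_le_one, div_le_one (by positivity)]
  have h : (0 : ℝ) ≤ Real.sqrt 2 := Real.sqrt_nonneg 2
  rw [Real.le_sqrt' (by norm_num)]
  linarith

theorem xc_four : 1 ≤ (12 : ℕ) * xc ^ 4 := by
  unfold xc
  rw [← ENNReal.ofReal_pow (by positivity), ← ENNReal.ofReal_natCast, ← ENNReal.ofReal_mul
    (by positivity), ENNReal.one_le_ofReal]
  have h2 : Real.sqrt 2 ^ 2 = 2 := Real.sq_sqrt (by norm_num)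
  have h3 : Real.sqrt (2 + Real.sqrt 2) ^ 2 = 2 + Real.sqrt 2 := Real.sq_sqrt (by positivity)
  have h4 : Real.sqrt (2 + Real.sqrt 2) ^ 4 = 6 + 4 * Real.sqrt 2 := by
    calc Real.sqrt (2 + Real.sqrt 2) ^ 4 = (Real.sqrt (2 + Real.sqrt 2) ^ 2) ^ 2 := by ring
      _ = (2 + Real.sqrt 2) ^ 2 := by rw [h3]
      _ = 4 + 4 * Real.sqrt 2 + Real.sqrt 2 ^ 2 := by ring
      _ = _ := by rw [h2]; ring
  rw [div_pow, one_pow, h4]
  have h5 : Real.sqrt 2 ≤ 3 / 2 := by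
    rw [Real.sqrt_le_left (by norm_num)]
    norm_num
  push_cast
  rw [mul_one_div, le_div_iff₀ (by positivity)]
  linarith

theorem wt_move (l : List V) (i : List V × List V) (W : List V) (h : Mv l i W) :
    wt l ≤ (12 : ℕ) * wt W := by
  obtain ⟨h1, h2⟩ := h.length
  unfold wt
  have h3 : xc ^ (l.length - 1 + 4) ≤ xc ^ (W.length - 1) :=
    pow_le_pow_right_of_le_one' xc_le (by omega)
  calc xc ^ (l.length - 1) = xc ^ (l.length - 1) * 1 := (mul_one _).symm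
    _ ≤ xc ^ (l.length - 1) * ((12 : ℕ) * xc ^ 4) := mul_le_mul_right xc_four _
    _ = (12 : ℕ) * xc ^ (l.length - 1 + 4) := by rw [pow_add]; ring
    _ ≤ _ := mul_le_mul_right h3 _

theorem wt_mul (s : List V) (v : V) (t : List V) :
    wt (s ++ v :: t) = wt (s ++ [v]) * wt (v :: t) := by
  unfold wt
  rw [← pow_add]
  congr 1
  simp only [List.length_append, List.length_cons, List.length_nil]
  omega

theorem emb_dist {R : ℕ} {a w : V} (h : cl R a w) (hR : 1 ≤ R) :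
    ‖emb w - emb a‖ ≤ 3 * R := by
  refine (Complex.norm_le_abs_re_add_abs_im _).trans ?_
  unfold cl at h
  obtain ⟨h1, h2⟩ := h
  have h1' : |((w.1 : ℤ) : ℝ) - a.1| ≤ R := by
    rw [abs_sub_comm]
    exact_mod_cast h1
  have h2' : |((w.2 : ℤ) : ℝ) - a.2| ≤ R := by
    rw [abs_sub_comm]
    exact_mod_cast h2
  have hR' : (1 : ℝ) ≤ R := by exact_mod_cast hR
  have hs : Real.sqrt 3 ≤ 7 / 4 := by
    rw [Real.sqrt_le_left (by norm_num)]
    norm_num
  have hs0 : 0 ≤ Real.sqrt 3 := Real.sqrt_nonneg 3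
  have e1 : |(emb w - emb a).re| ≤ 7 / 8 * R := by
    rw [Complex.sub_re]
    unfold emb
    simp only
    rw [← mul_sub, abs_mul, abs_of_nonneg (by positivity)]
    have := abs_nonneg (((w.1 : ℤ) : ℝ) - a.1)
    nlinarith
  have e2 : |(emb w - emb a).im| ≤ 3 / 2 * R + 1 / 2 := by
    rw [Complex.sub_im]
    unfold emb
    simp only
    rw [abs_le] at h2' ⊢
    split_ifs <;> constructor <;> linarith [h2'.1, h2'.2]
  linarith

/-- no small holes -/
def Holes (D : Set V) : Prop := ∀ u, u ∉ D → 7 ≤ (Comp D u).encard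

theorem Nr_mono {A : Set V} {k : ℕ} : A ⊆ Nr A k := by
  induction k with
  | zero => exact subset_rfl
  | succ k ih => exact fun v hv => Or.inl (ih hv)

theorem Nr_bdry {D : Set V} {k : ℕ} {v : V} (h : v ∈ Nr Dᶜ k) (hv : v ∈ D) :
    v ∈ Nr {u | u ∉ D ∧ ∃ v ∈ D, Nbr v u} k := by
  induction k generalizing v with
  | zero => exact absurd hv h
  | succ k ih =>
    rcases h with h | ⟨u, hu, huv⟩
    · exact Or.inl (ih h hv)
    · right
      by_cases hD : u ∈ D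
      · exact ⟨u, ih hu hD, huv⟩
      · exact ⟨u, Nr_mono ⟨hD, v, hv, huv.symm⟩, huv⟩

theorem nB_mono {A B : Set V} {l : List V} (h : ∀ v ∈ l, v ∈ A → v ∈ B) : nB A l ≤ nB B l := by
  unfold nB
  refine Finset.card_le_card (fun v hv => ?_)
  rw [Finset.mem_filter, List.mem_toFinset] at hv ⊢
  exact ⟨hv.1, h v hv.1 hv.2⟩

/-- numbers depending on the mesh -/
theorem mesh {M δ : ℝ} (hM : 0 ≤ M) (hδ : 0 < δ) (h1 : 144 * δ ≤ 1) (h2 : (8 * M + 7) * δ ≤ 1) :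
    (∀ D : Set V, (∀ v ∈ D, ‖(δ : ℂ) * emb v‖ ≤ M) → ∃ N : ℕ, (∀ v ∈ D, v ∈ bx N 0) ∧
      (((bx N 0).card : ℕ) : ℝ) ≤ (1 / δ) ^ 4) ∧
    1 ≤ Real.log (1 / δ) ∧
    3 * δ * ((⌈Real.log (1 / δ)⌉₊ : ℝ) + 16) ≤ 1 := by
  set y := 1 / δ with hy
  have hy1 : 144 ≤ y := by rw [hy, le_div_iff₀ hδ]; exact h1
  have hy2 : 8 * M + 7 ≤ y := by rw [hy, le_div_iff₀ hδ]; exact h2
  have hlog : 1 ≤ Real.log y := by
    rw [Real.le_log_iff_exp_le (by linarith)]
    have := Real.exp_one_lt_d9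
    linarith
  refine ⟨fun D hD => ⟨⌈(2 * M + 1) * (⌈y⌉₊ : ℝ)⌉₊, fun v hv => ?_, ?_⟩, hlog, ?_⟩
  · have hb := Pool.Agent.Y981.Sup.box_of hδ (by linarith) hM (hD v hv)
    rw [mem_bx]
    have hc := Nat.le_ceil ((2 * M + 1) * (⌈y⌉₊ : ℝ))
    have e1 : |(v.1 : ℝ)| ≤ (⌈(2 * M + 1) * (⌈y⌉₊ : ℝ)⌉₊ : ℝ) := hb.1.trans hc
    have e2 : |(v.2 : ℝ)| ≤ (⌈(2 * M + 1) * (⌈y⌉₊ : ℝ)⌉₊ : ℝ) := hb.2.trans hc
    unfold cl
    simp only [Prod.fst_zero, Prod.snd_zero, sub_zero]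
    exact ⟨by exact_mod_cast e1, by exact_mod_cast e2⟩
  · rw [bx_card]
    set N := ⌈(2 * M + 1) * (⌈y⌉₊ : ℝ)⌉₊ with hN
    have e3 : (2 * (N : ℤ) + 1).toNat = 2 * N + 1 := by omega
    rw [e3]
    have e4 : (N : ℝ) ≤ (4 * M + 3) * y := by
      have f1 : (N : ℝ) < (2 * M + 1) * (⌈y⌉₊ : ℝ) + 1 := Nat.ceil_lt_add_one (by positivity)
      have f2 : (⌈y⌉₊ : ℝ) < y + 1 := Nat.ceil_lt_add_one (by positivity)
      have f3 : (⌈y⌉₊ : ℝ) ≤ 2 * y := by linarith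
      have f4 := mul_le_mul_of_nonneg_left f3 (by positivity : 0 ≤ 2 * M + 1)
      nlinarith
    have e5 : 2 * (N : ℝ) + 1 ≤ y ^ 2 := by
      have : 2 * (N : ℝ) + 1 ≤ (8 * M + 7) * y := by nlinarith
      refine this.trans ?_
      rw [sq]
      exact mul_le_mul_of_nonneg_right hy2 (by linarith)
    push_cast
    calc (2 * (N : ℝ) + 1) ^ 2 ≤ (y ^ 2) ^ 2 := pow_le_pow_left₀ (by positivity) e5 2
      _ = y ^ 4 := by ring
  · have f1 : (⌈Real.log y⌉₊ : ℝ) < Real.log y + 1 := Nat.ceil_lt_add_one (by linarith)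
    have hsq : 12 ≤ Real.sqrt y := by
      rw [Real.le_sqrt' (by norm_num)]
      linarith
    have hss : Real.sqrt y ^ 2 = y := Real.sq_sqrt (by linarith)
    have f2 : Real.log y ≤ 2 * Real.sqrt y := by
      have f3 := Real.log_le_sub_one_of_pos (by linarith : 0 < Real.sqrt y)
      rw [Real.log_sqrt (by linarith)] at f3
      linarith
    have f4 : 3 * ((⌈Real.log y⌉₊ : ℝ) + 16) ≤ y := by
      have f6 : 12 * Real.sqrt y ≤ Real.sqrt y ^ 2 := by nlinarith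
      linarith
    have f5 : δ = 1 / y := by rw [hy, one_div_one_div]
    rw [f5, mul_one_div, div_mul_eq_mul_div, div_le_one (by linarith)]
    exact f4

/-- large distances are harmless -/
theorem far_ok {y S : ℝ} (hS : 1 ≤ S) (hy : 1 ≤ y) {k : ℕ} (hk : ⌈Real.log y⌉₊ < k) {n : ℕ}
    (hn : (n : ℝ) ≤ y ^ 4) : (n : ℝ) ≤ (KB 12 : ℝ) ^ (k + 1) * S := by
  have h1 : Real.exp 4 ≤ (KB 12 : ℝ) := by
    have e1 : ((7000 : ℕ) : ℝ) ≤ (KB 12 : ℝ) := by exact_mod_cast KB_ge 12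
    have e2 : Real.exp 4 = Real.exp 1 ^ 4 := by rw [← Real.exp_nat_mul]; norm_num
    have e3 := Real.exp_one_lt_d9
    have e4 : Real.exp 1 ^ 4 ≤ 3 ^ 4 :=
      pow_le_pow_left₀ (Real.exp_pos 1).le (by linarith) 4
    push_cast at e1
    linarith
  have h2 : y ^ 4 ≤ Real.exp 4 ^ (k + 1) := by
    rw [← Real.exp_nat_mul, ← Real.log_le_iff_le_exp (by positivity), Real.log_pow]
    push_cast
    have h3 : Real.log y ≤ k := by
      refine (Nat.le_ceil _).trans ?_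
      exact_mod_cast hk.le
    nlinarith
  have h4 : Real.exp 4 ^ (k + 1) ≤ (KB 12 : ℝ) ^ (k + 1) :=
    pow_le_pow_left₀ (Real.exp_pos 4).le h1 _
  have h5 : (0 : ℝ) ≤ (KB 12 : ℝ) ^ (k + 1) := by positivity
  nlinarith

/-- the domain with the vertices close to it -/
def fat (R : ℕ) (D : Set V) : Set V := {w | ∃ a ∈ D, cl (R + 16) a w}

theorem fat_bound {M δ : ℝ} (hδ : 0 < δ) {R : ℕ} (h : 3 * δ * ((R : ℝ) + 16) ≤ 1) {D : Set V}
    (hD : ∀ v ∈ D, ‖(δ : ℂ) * emb v‖ ≤ M) : ∀ v ∈ fat R D, ‖(δ : ℂ) * emb v‖ ≤ M + 1 := by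
  rintro w ⟨a, ha, haw⟩
  have haw' : cl ((R + 16 : ℕ) : ℤ) a w := by push_cast; exact haw
  have h1 := emb_dist haw' (by omega)
  have h2 : (δ : ℂ) * emb w = (δ : ℂ) * emb a + δ * (emb w - emb a) := by ring
  rw [h2]
  refine (norm_add_le _ _).trans (add_le_add (hD a ha) ?_)
  rw [norm_mul, Complex.norm_real, Real.norm_of_nonneg hδ.le]
  push_cast at h1
  nlinarith

theorem dom12 (M : ℝ) (hM : 0 ≤ M) : ∃ K : ℝ, 1 ≤ K ∧ ∀ δ : ℝ, 0 < δ → K * δ ≤ 1 →
    ∀ D : Set V, (∀ v ∈ D, ‖(δ : ℂ) * emb v‖ ≤ M) → ∀ p q : V, ∀ S : ℝ, 1 ≤ S →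
      (Holes D → tot wt {l | l ∈ Tr D p q ∧
        ∃ k, (KB 12 : ℝ) ^ (k + 1) * S < (nB (Nr Dᶜ k) l : ℝ)} ≤
        ENNReal.ofReal (Real.exp (-S + K * Real.log (1 / δ) ^ 2))) ∧
      tot wt {l | l ∈ Tr D p q ∧ ∃ s v t, l = s ++ v :: t ∧
        ∃ k, (KB 12 : ℝ) ^ (k + 1) * S < (nB (Nr {u | u ∈ s} k) (v :: t) : ℝ)} ≤
        ENNReal.ofReal (Real.exp (-S + K * Real.log (1 / δ) ^ 2)) := by
  obtain ⟨K₀, hK₀, hq⟩ := Pool.Agent.Y981.Sup.quasi (M + 1) (by linarith)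
  refine ⟨2 * K₀ + 144 + (8 * M + 7), by linarith, ?_⟩
  intro δ hδ hKδ D hD p q S hS
  have h1 : 144 * δ ≤ 1 := by nlinarith
  have h2 : (8 * M + 7) * δ ≤ 1 := by nlinarith
  obtain ⟨hbox, hlog, hR⟩ := mesh hM hδ h1 h2
  obtain ⟨N, hN, hNc⟩ := hbox D hD
  set L := Real.log (1 / δ) with hL
  set R := ⌈L⌉₊ with hRd
  have hδ2 : δ ≤ 1 / 2 := by linarith
  have hy : 1 ≤ 1 / δ := by rw [le_div_iff₀ hδ]; linarith
  have hfat := fat_bound hδ hR hD
  have hDf : D ⊆ fat R D := fun v hv => ⟨v, hv, cl_self v (by positivity)⟩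
  have hnum : ∀ (A : Set V) (l : List V), (∀ v ∈ l, v ∈ D) → (nB A l : ℝ) ≤ (1 / δ) ^ 4 := by
    intro A l hl
    refine le_trans ?_ hNc
    have : nB A l ≤ (bx N 0).card := by
      unfold nB
      refine Finset.card_le_card (fun v hv => ?_)
      rw [Finset.mem_filter, List.mem_toFinset] at hv
      exact hN v (hl v hv.1)
    exact_mod_cast this
  have hL2 : 1 ≤ L ^ 2 := by nlinarith
  constructor
  · intro hh
    set A : Set V := {u | u ∉ D ∧ ∃ v ∈ D, Nbr v u} with hA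
    have hsub : {l | l ∈ Tr D p q ∧ ∃ k, (KB 12 : ℝ) ^ (k + 1) * S < (nB (Nr Dᶜ k) l : ℝ)} ⊆
        {l | l ∈ Tr D p q ∧ ∃ k ≤ R, (KB 12 : ℝ) ^ (k + 1) * S < (nB (Nr A k) l : ℝ)} := by
      rintro l ⟨hl, k, hk⟩
      have hlD : ∀ v ∈ l, v ∈ D := hl.2.2.2.2
      refine ⟨hl, k, ?_, ?_⟩
      · by_contra hkR
        push Not at hkR
        exact absurd hk (not_lt.2 (far_ok hS hy hkR (hnum _ l hlD)))
      · refine lt_of_lt_of_le hk ?_
        exact_mod_cast nB_mono (fun v hv h => Nr_bdry h (hlD v hv))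
    refine (tot_mono wt hsub).trans ?_
    have h3 := tail_all (D := D) (A := A) (H := fat R D) (fun u hu => hu.1)
      (fun u hu => hh u hu.1) hDf wt 12 (by norm_num) wt_move p q R (by
        rintro a ⟨-, v, hv, hva⟩ w hw
        exact ⟨v, hv, (hva.cl.trans hw).mono (by omega)⟩) S hS
    refine h3.trans ?_
    rw [tot_wt]
    have h4 := hq δ hδ hδ2 (fat R D) hfat p q
    refine (mul_le_mul_right h4 _).trans ?_
    rw [← ENNReal.ofReal_mul (Real.exp_pos _).le, ← Real.exp_add]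
    refine ENNReal.ofReal_le_ofReal (Real.exp_le_exp.2 ?_)
    nlinarith
  · have hsub : {l | l ∈ Tr D p q ∧ ∃ s v t, l = s ++ v :: t ∧
        ∃ k, (KB 12 : ℝ) ^ (k + 1) * S < (nB (Nr {u | u ∈ s} k) (v :: t) : ℝ)} ⊆
        {l | l ∈ Tr D p q ∧ ∃ s v t, l = s ++ v :: t ∧
        ∃ k ≤ R, (KB 12 : ℝ) ^ (k + 1) * S < (nB (Nr {u | u ∈ s} k) (v :: t) : ℝ)} := by
      rintro l ⟨hl, s, v, t, rfl, k, hk⟩
      refine ⟨hl, s, v, t, rfl, k, ?_, hk⟩
      by_contra hkR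
      push Not at hkR
      refine absurd hk (not_lt.2 (far_ok hS hy hkR (hnum _ _ (fun u hu => ?_))))
      exact hl.2.2.2.2 u (by rw [List.mem_append]; exact Or.inr hu)
    refine (tot_mono wt hsub).trans ?_
    have h3 := contact (D := D) (H := fat R D) hDf wt 12 (by norm_num) wt_move wt_mul p q R (by
        intro a ha w hw
        exact ⟨a, ha, hw.mono (by omega)⟩) S hS
    refine h3.trans ?_
    set B : ℝ≥0∞ := ENNReal.ofReal (Real.exp (K₀ * L ^ 2)) with hB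
    have h4 : ∑' v, D.indicator (fun v => tot wt (Tr D p v) * tot wt (Tr (fat R D) v q)) v ≤
        ((bx N 0).card : ℝ≥0∞) * (B * B) := by
      have e1 : ∀ v, D.indicator (fun v => tot wt (Tr D p v) * tot wt (Tr (fat R D) v q)) v ≤
          ((bx N 0 : Finset V) : Set V).indicator (fun _ => B * B) v := by
        intro v
        by_cases hv : v ∈ D
        · rw [Set.indicator_of_mem hv, Set.indicator_of_mem (Finset.mem_coe.2 (hN v hv)),
            tot_wt, tot_wt]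
          refine mul_le_mul' (hq δ hδ hδ2 D (fun u hu => (hD u hu).trans (by linarith)) p v)
            (hq δ hδ hδ2 _ hfat v q)
        · rw [Set.indicator_of_notMem hv]
          exact zero_le
      refine (ENNReal.tsum_le_tsum e1).trans ?_
      rw [tsum_eq_sum (s := bx N 0) (fun v hv => Set.indicator_of_notMem
        (fun h => hv (Finset.mem_coe.1 h)) _)]
      rw [Finset.sum_congr rfl (fun v hv => Set.indicator_of_mem (Finset.mem_coe.2 hv) _),
        Finset.sum_const, nsmul_eq_mul]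
    refine (mul_le_mul_right h4 _).trans ?_
    have h5 : ((bx N 0).card : ℝ≥0∞) ≤ ENNReal.ofReal (Real.exp (4 * L)) := by
      rw [← ENNReal.ofReal_natCast]
      refine ENNReal.ofReal_le_ofReal (hNc.trans (le_of_eq ?_))
      have e2 : (4 : ℝ) * L = ((4 : ℕ) : ℝ) * L := by norm_num
      rw [e2, Real.exp_nat_mul, hL, Real.exp_log (by positivity)]
    refine (mul_le_mul_right (mul_le_mul_left h5 _) _).trans ?_
    rw [hB, ← ENNReal.ofReal_mul (Real.exp_pos _).le, ← ENNReal.ofReal_mul (Real.exp_pos _).le,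
      ← ENNReal.ofReal_mul (Real.exp_pos _).le, ← Real.exp_add, ← Real.exp_add, ← Real.exp_add]
    refine ENNReal.ofReal_le_ofReal (Real.exp_le_exp.2 ?_)
    nlinarith

end Pool.Agent.U372.HX
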