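import Pool.Agent.U372.HX.Dom

/-! # Domains of the honeycomb lattice: the probabilities -/

set_option autoImplicit false

namespace Pool.Agent.U372.HX

open scoped ENNReal Classical
open Pool.Agent.W832.HR Pool.Agent.W818.TD

/-- the vertices outside of `D` which are far from the two lines -/
def Far (D : Set V) (p q : V) (ε ε' ρ : ℝ) : Set V :=
  {u | u ∉ D ∧ ρ ≤ ε * (lv (emb u) - lv (emb p)) ∧ ρ ≤ ε' * (lv (emb u) - lv (emb q))}

theorem lv_dist (z z' : ℂ) : |lv z - lv z'| ≤ 2 * ‖z - z'‖ := by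
  have h1 := Complex.abs_re_le_norm (z - z')
  have h2 := Complex.abs_im_le_norm (z - z')
  have hs : Real.sqrt 3 ≤ 2 := by
    rw [Real.sqrt_le_left (by norm_num)]
    norm_num
  have hs0 : 0 ≤ Real.sqrt 3 := Real.sqrt_nonneg 3
  have e : lv z - lv z' = (Real.sqrt 3 * (z - z').re - (z - z').im) / 2 := by
    unfold lv
    rw [Complex.sub_re, Complex.sub_im]
    ring
  rw [e, abs_div, abs_of_pos (by norm_num : (0 : ℝ) < 2)]
  have h3 : |Real.sqrt 3 * (z - z').re - (z - z').im| ≤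
      |Real.sqrt 3 * (z - z').re| + |(z - z').im| := abs_sub _ _
  rw [abs_mul, abs_of_nonneg hs0] at h3
  have h4 := norm_nonneg (z - z')
  have h5 : Real.sqrt 3 * |(z - z').re| ≤ 2 * ‖z - z'‖ :=
    mul_le_mul hs h1 (abs_nonneg _) (by norm_num)
  rw [div_le_iff₀ (by norm_num)]
  linarith

theorem side_ok {ε ρ : ℝ} (hε : ε = 1 ∨ ε = -1) {R : ℕ} {a w p : V} (h : cl (R + 14) a w)
    (hρ : 6 * ((R : ℝ) + 14) ≤ ρ) (ha : ρ ≤ ε * (lv (emb a) - lv (emb p))) :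
    0 ≤ ε * (lv (emb w) - lv (emb p)) := by
  have h' : cl ((R + 14 : ℕ) : ℤ) a w := by push_cast; exact h
  have h1 := emb_dist h' (by omega)
  have h2 := lv_dist (emb w) (emb a)
  push_cast at h1
  have h3 : |lv (emb w) - lv (emb a)| ≤ ρ := by linarith
  rw [abs_le] at h3
  rcases hε with rfl | rfl <;> linarith [h3.1, h3.2]

theorem dom3 (M : ℝ) (hM : 0 ≤ M) {δ : ℝ} (hδ : 0 < δ) (h1 : 144 * δ ≤ 1)
    (h2 : (8 * M + 7) * δ ≤ 1) {D : Set V} (hD : ∀ v ∈ D, ‖(δ : ℂ) * emb v‖ ≤ M) {p q : V}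
    {ε ε' : ℝ} (hε : ε = 1 ∨ ε = -1) (hε' : ε' = 1 ∨ ε' = -1) (hh : Holes D)
    (hside : ∀ v ∈ D, 0 ≤ ε * (lv (emb v) - lv (emb p)) ∧ 0 ≤ ε' * (lv (emb v) - lv (emb q)))
    (hup : ∀ H : Set V, D ⊆ H → (∀ v ∈ H, 0 ≤ ε * (lv (emb v) - lv (emb p)) ∧
      0 ≤ ε' * (lv (emb v) - lv (emb q))) → Z H p q ≤ 500) {ρ : ℝ}
    (hρ : 96 * Real.log (1 / δ) ≤ ρ) {S : ℝ} (hS : 1 ≤ S) :
    tot wt {l | l ∈ Tr D p q ∧
        ∃ k, (KB 12 : ℝ) ^ (k + 1) * S < (nB (Nr (Far D p q ε ε' ρ) k) l : ℝ)} ≤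
      ENNReal.ofReal (Real.exp (-S)) * 500 := by
  obtain ⟨hbox, hlog, hR⟩ := mesh hM hδ h1 h2
  obtain ⟨N, hN, hNc⟩ := hbox D hD
  set L := Real.log (1 / δ) with hL
  set R := ⌈L⌉₊ with hRd
  have hy : 1 ≤ 1 / δ := by rw [le_div_iff₀ hδ]; linarith
  have hnum : ∀ (A : Set V) (l : List V), (∀ v ∈ l, v ∈ D) → (nB A l : ℝ) ≤ (1 / δ) ^ 4 := by
    intro A l hl
    refine le_trans ?_ hNc
    have : nB A l ≤ (bx N 0).card := by
      unfold nB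
      refine Finset.card_le_card (fun v hv => ?_)
      rw [Finset.mem_filter, List.mem_toFinset] at hv
      exact hN v (hl v hv.1)
    exact_mod_cast this
  have hRle : (R : ℝ) < L + 1 := Nat.ceil_lt_add_one (by linarith)
  set A := Far D p q ε ε' ρ with hA
  set H : Set V := {w | w ∈ D ∨ ∃ a ∈ A, cl (R + 14) a w} with hH
  have hsub : {l | l ∈ Tr D p q ∧ ∃ k, (KB 12 : ℝ) ^ (k + 1) * S < (nB (Nr A k) l : ℝ)} ⊆
      {l | l ∈ Tr D p q ∧ ∃ k ≤ R, (KB 12 : ℝ) ^ (k + 1) * S < (nB (Nr A k) l : ℝ)} := by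
    rintro l ⟨hl, k, hk⟩
    refine ⟨hl, k, ?_, hk⟩
    by_contra hkR
    push Not at hkR
    exact absurd hk (not_lt.2 (far_ok hS hy hkR (hnum _ l hl.2.2.2.2)))
  refine (tot_mono wt hsub).trans ?_
  refine (tail_all (D := D) (A := A) (H := H) (fun u hu => hu.1) (fun u hu => hh u hu.1)
    (fun v hv => Or.inl hv) wt 12 (by norm_num) wt_move p q R
    (fun a ha w hw => Or.inr ⟨a, ha, hw⟩) S hS).trans ?_
  rw [tot_wt]
  refine mul_le_mul_right (hup H (fun v hv => Or.inl hv) ?_) _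
  rintro w (hw | ⟨a, ha, haw⟩)
  · exact hside w hw
  · have h6 : 6 * ((R : ℝ) + 14) ≤ ρ := by linarith
    exact ⟨side_ok hε haw h6 ha.2.1, side_ok hε' haw h6 ha.2.2⟩

/-- the probability of an event for the critical trajectory -/
noncomputable def Pr (D : Set V) (p q : V) (E : Set (List V)) : ℝ≥0∞ :=
  (∑' l : {l : List V // l ∈ Tr D p q ∧ l ∈ E}, xc ^ (l.1.length - 1)) / Z D p q

theorem Pr_eq (D : Set V) (p q : V) (E : Set (List V)) :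
    Pr D p q E = tot wt {l | l ∈ Tr D p q ∧ l ∈ E} / Z D p q := by
  unfold Pr tot
  rw [← tsum_subtype]
  rfl

theorem Pr_le {D : Set V} {p q : V} {E E' : Set (List V)} {δ S T x : ℝ} {n : ℕ} (hδ : 0 < δ)
    (hlow : ENNReal.ofReal (δ ^ n) ≤ Z D p q)
    (hEE : ∀ l, l ∈ Tr D p q → l ∈ E → l ∈ E')
    (hup : tot wt {l | l ∈ Tr D p q ∧ l ∈ E'} ≤ ENNReal.ofReal (Real.exp (-S + T)))
    (hx : x + T + n * Real.log (1 / δ) ≤ S) :
    Pr D p q E ≤ ENNReal.ofReal (Real.exp (-x)) := by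
  rw [Pr_eq]
  have h0 : (0 : ℝ) < δ ^ n := by positivity
  refine ENNReal.div_le_of_le_mul ?_
  calc tot wt {l | l ∈ Tr D p q ∧ l ∈ E} ≤ tot wt {l | l ∈ Tr D p q ∧ l ∈ E'} :=
        tot_mono wt (fun l hl => ⟨hl.1, hEE l hl.1 hl.2⟩)
    _ ≤ ENNReal.ofReal (Real.exp (-S + T)) := hup
    _ ≤ ENNReal.ofReal (Real.exp (-x) * δ ^ n) := by
        refine ENNReal.ofReal_le_ofReal ?_
        have e : δ ^ n = Real.exp (-(n * Real.log (1 / δ))) := by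
          rw [Real.log_div one_ne_zero hδ.ne', Real.log_one, zero_sub, mul_neg, neg_neg,
            Real.exp_nat_mul, Real.exp_log hδ]
        rw [e, ← Real.exp_add]
        exact Real.exp_le_exp.2 (by linarith)
    _ = ENNReal.ofReal (Real.exp (-x)) * ENNReal.ofReal (δ ^ n) :=
        ENNReal.ofReal_mul (Real.exp_pos _).le
    _ ≤ _ := mul_le_mul_right hlow _

/-- **The three bounds.** -/
theorem dom_all (W : Set ℂ) (hW : IsOpen W) (hc : IsConnected W) (a b : ℂ) (hab : a ≠ b)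
    (ε ε' : ℝ) (hε : ε = 1 ∨ ε = -1) (hε' : ε' = 1 ∨ ε' = -1) (r : ℝ) (hr : 0 < r)
    (ha : HD a ε r ⊆ W) (hb : HD b ε' r ⊆ W) (M : ℝ) :
    ∃ K : Set ℂ, K ⊆ W ∧ IsCompact K ∧ ∃ C : ℝ, 1 ≤ C ∧ ∀ δ : ℝ, 0 < δ → C * δ ≤ 1 →
      ∀ (D : Set V) (p q : V), Bd ε p → Bd ε' q →
      C * ‖(δ : ℂ) * emb p - a‖ ≤ 1 → C * ‖(δ : ℂ) * emb q - b‖ ≤ 1 →
      (∀ v : V, (δ : ℂ) * emb v ∈ K → v ∈ D) → Hd δ ε r p ⊆ D → Hd δ ε' r q ⊆ D →
      (∀ v ∈ D, ‖(δ : ℂ) * emb v‖ ≤ M) →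
      0 < Z D p q ∧ Z D p q < ⊤ ∧ ∀ x : ℝ, 0 ≤ x →
      Pr D p q {l | ∃ s v t, l = s ++ v :: t ∧ ∃ k : ℕ,
        C ^ (k + 1) * (Real.log (1 / δ) ^ 2 + x) < (nB (Nr {u | u ∈ s} k) (v :: t) : ℝ)} ≤
        ENNReal.ofReal (Real.exp (-x)) ∧
      (Holes D →
        Pr D p q {l | ∃ k : ℕ,
          C ^ (k + 1) * (Real.log (1 / δ) ^ 2 + x) < (nB (Nr Dᶜ k) l : ℝ)} ≤
          ENNReal.ofReal (Real.exp (-x)) ∧
        ((∀ v ∈ D, 0 ≤ ε * (lv (emb v) - lv (emb p)) ∧ 0 ≤ ε' * (lv (emb v) - lv (emb q))) →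
          Pr D p q {l | ∃ k : ℕ, C ^ (k + 1) * (Real.log (1 / δ) + x) <
            (nB (Nr (Far D p q ε ε' (C * Real.log (1 / δ))) k) l : ℝ)} ≤
            ENNReal.ofReal (Real.exp (-x)))) := by
  obtain ⟨K, hKW, hKc, C₁, hC₁, h⟩ := Pool.Agent.Y981.Sup.support_all W hW hc a b hab ε ε' hε hε'
    r hr ha hb (max M 0)
  obtain ⟨K₂, hK₂, h2⟩ := dom12 (max M 0) (le_max_right _ _)
  have hM0 : 0 ≤ max M 0 := le_max_right _ _
  have hC1 : (1 : ℝ) ≤ C₁ := by exact_mod_cast hC₁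
  have hKB : (7000 : ℝ) ≤ (KB 12 : ℝ) := by exact_mod_cast KB_ge 12
  set C : ℝ := (KB 12 : ℝ) * (K₂ + C₁ + 8) + (8 * max M 0 + 7) with hC
  have hCb : (KB 12 : ℝ) * (K₂ + C₁ + 8) ≤ C := by rw [hC]; linarith
  have hbig : K₂ + C₁ + 8 ≤ (KB 12 : ℝ) * (K₂ + C₁ + 8) := by nlinarith
  have h7000 : 7000 ≤ C := by nlinarith
  refine ⟨K, hKW, hKc, C, by linarith, ?_⟩
  intro δ hδ hCδ D p q hp hq hpa hqb hKD hpD hqD hDM
  have small : ∀ y c : ℝ, 0 ≤ y → C * y ≤ 1 → 0 ≤ c → c ≤ C → c * y ≤ 1 := by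
    intro y c hy hy1 hc0 hcC
    exact (mul_le_mul_of_nonneg_right hcC hy).trans hy1
  have hC₁C : (C₁ : ℝ) ≤ C := by linarith
  have hDM' : ∀ v ∈ D, ‖(δ : ℂ) * emb v‖ ≤ max M 0 := fun v hv => (hDM v hv).trans (le_max_left _ _)
  have hsup := fun (D' : Set V) (hDD : D ⊆ D') => h δ hδ
    (small δ C₁ hδ.le hCδ (by linarith) hC₁C) D' D p q hp hq
    (small _ C₁ (norm_nonneg _) hpa (by linarith) hC₁C)
    (small _ C₁ (norm_nonneg _) hqb (by linarith) hC₁C) hKD hpD hqD hDD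
  obtain ⟨hlow, hupp, -⟩ := (hsup D subset_rfl).1 hDM'
  have h144 : 144 * δ ≤ 1 := small δ 144 hδ.le hCδ (by norm_num) (by linarith)
  have h8 : (8 * max M 0 + 7) * δ ≤ 1 :=
    small δ _ hδ.le hCδ (by linarith) (by rw [hC]; nlinarith)
  obtain ⟨hbox, hlog, hR⟩ := mesh hM0 hδ h144 h8
  set L := Real.log (1 / δ) with hL
  have hLL : L ≤ L ^ 2 := by nlinarith
  refine ⟨lt_of_lt_of_le (ENNReal.ofReal_pos.2 (by positivity)) hlow,
    lt_of_le_of_lt hupp ENNReal.ofReal_lt_top, ?_⟩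
  intro x hx
  set S := x + (K₂ + C₁) * L ^ 2 with hS
  have hS1 : 1 ≤ S := by nlinarith
  obtain ⟨g1, g2⟩ := h2 δ hδ (small δ K₂ hδ.le hCδ (by linarith) (by linarith)) D hDM' p q S hS1
  have hthr : ∀ k : ℕ, (KB 12 : ℝ) ^ (k + 1) * S ≤ C ^ (k + 1) * (L ^ 2 + x) := by
    intro k
    have e1 : S ≤ (K₂ + C₁ + 8) * (L ^ 2 + x) := by nlinarith
    have e2 : (1 : ℝ) ≤ K₂ + C₁ + 8 := by linarith
    calc (KB 12 : ℝ) ^ (k + 1) * S ≤ (KB 12 : ℝ) ^ (k + 1) * ((K₂ + C₁ + 8) * (L ^ 2 + x)) :=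
          mul_le_mul_of_nonneg_left e1 (by positivity)
      _ ≤ (KB 12 : ℝ) ^ (k + 1) * ((K₂ + C₁ + 8) ^ (k + 1) * (L ^ 2 + x)) := by
          refine mul_le_mul_of_nonneg_left ?_ (by positivity)
          refine mul_le_mul_of_nonneg_right ?_ (by positivity)
          exact le_self_pow₀ e2 (by omega)
      _ = ((KB 12 : ℝ) * (K₂ + C₁ + 8)) ^ (k + 1) * (L ^ 2 + x) := by rw [mul_pow]; ring
      _ ≤ _ := by
          refine mul_le_mul_of_nonneg_right ?_ (by positivity)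
          exact pow_le_pow_left₀ (by positivity) hCb _
  have hSx : x + K₂ * L ^ 2 + C₁ * L ≤ S := by
    have : (C₁ : ℝ) * L ≤ C₁ * L ^ 2 := mul_le_mul_of_nonneg_left hLL (by linarith)
    rw [hS]
    linarith
  refine ⟨?_, fun hh => ⟨?_, fun hside => ?_⟩⟩
  · refine Pr_le (E' := {l | ∃ s v t, l = s ++ v :: t ∧
      ∃ k, (KB 12 : ℝ) ^ (k + 1) * S < (nB (Nr {u | u ∈ s} k) (v :: t) : ℝ)}) hδ hlow ?_ g2 hSx
    rintro l - ⟨s, v, t, e, k, hk⟩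
    exact ⟨s, v, t, e, k, lt_of_le_of_lt (hthr k) hk⟩
  · refine Pr_le (E' := {l | ∃ k, (KB 12 : ℝ) ^ (k + 1) * S < (nB (Nr Dᶜ k) l : ℝ)}) hδ hlow ?_
      (g1 hh) hSx
    rintro l - ⟨k, hk⟩
    exact ⟨k, lt_of_le_of_lt (hthr k) hk⟩
  · set S' := x + (C₁ + 7) * L with hS'
    have hS'1 : 1 ≤ S' := by nlinarith
    have hCL : 96 * Real.log (1 / δ) ≤ C * L := by
      rw [← hL]
      exact mul_le_mul_of_nonneg_right (by linarith) (by linarith)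
    have g3 := dom3 (max M 0) hM0 hδ h144 h8 hDM' hε hε' hh hside
      (fun H hDH hHs => ((hsup H hDH).2 hHs).2.1) hCL hS'1
    have h500 : ENNReal.ofReal (Real.exp (-S')) * 500 ≤
        ENNReal.ofReal (Real.exp (-S' + 7)) := by
      rw [Real.exp_add, ENNReal.ofReal_mul (Real.exp_pos _).le]
      refine mul_le_mul_right ?_ _
      have e1 : (500 : ℝ≥0∞) = ENNReal.ofReal 500 := by norm_num
      rw [e1]
      refine ENNReal.ofReal_le_ofReal ?_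
      have e2 : Real.exp 7 = Real.exp 1 ^ 7 := by rw [← Real.exp_nat_mul]; norm_num
      have e3 := Real.exp_one_gt_d9
      rw [e2]
      calc (500 : ℝ) ≤ 2.7 ^ 7 := by norm_num
        _ ≤ _ := pow_le_pow_left₀ (by norm_num) (by linarith) 7
    refine Pr_le (E' := {l | ∃ k, (KB 12 : ℝ) ^ (k + 1) * S' <
      (nB (Nr (Far D p q ε ε' (C * L)) k) l : ℝ)}) (T := 7) hδ hlow ?_ (g3.trans h500) ?_
    · rintro l - ⟨k, hk⟩
      refine ⟨k, lt_of_le_of_lt ?_ hk⟩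
      have e1 : S' ≤ (K₂ + C₁ + 8) * (L + x) := by nlinarith
      have e2 : (1 : ℝ) ≤ K₂ + C₁ + 8 := by linarith
      calc (KB 12 : ℝ) ^ (k + 1) * S' ≤ (KB 12 : ℝ) ^ (k + 1) * ((K₂ + C₁ + 8) * (L + x)) :=
            mul_le_mul_of_nonneg_left e1 (by positivity)
        _ ≤ (KB 12 : ℝ) ^ (k + 1) * ((K₂ + C₁ + 8) ^ (k + 1) * (L + x)) := by
            refine mul_le_mul_of_nonneg_left ?_ (by positivity)
            refine mul_le_mul_of_nonneg_right ?_ (by linarith)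
            exact le_self_pow₀ e2 (by omega)
        _ = ((KB 12 : ℝ) * (K₂ + C₁ + 8)) ^ (k + 1) * (L + x) := by rw [mul_pow]; ring
        _ ≤ _ := by
            refine mul_le_mul_of_nonneg_right ?_ (by linarith)
            exact pow_le_pow_left₀ (by positivity) hCb _
    · rw [hS']
      linarith

end Pool.Agent.U372.HX
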