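import Pool.Agent.U372.HX.Graph

/-! # Moving a walk across a hexagon -/

set_option autoImplicit false

namespace Pool.Agent.U372.HX

/-- the two kinds of moves: two or three consecutive vertices of a hexagon and the other arc of the
hexagon with the same ends -/
def HP (i : List V × List V) : Prop :=
  ∃ a b c d e f, Hx a b c d e f ∧
    (i = ([a, b], [a, f, e, d, c, b]) ∨ i = ([a, b, c], [a, f, e, d, c]))

/-- `W` is obtained from `l` by the move `i` -/
def Mv (l : List V) (i : List V × List V) (W : List V) : Prop :=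
  HP i ∧ (∃ L R, l = L ++ i.1 ++ R ∧ W = L ++ i.2 ++ R) ∧ ∀ v ∈ i.2, v ∉ i.1 → v ∉ l

theorem Hx.cl {a b c d e f : V} (h : Hx a b c d e f) :
    ∀ u ∈ [a, b, c, d, e, f], ∀ v ∈ [a, b, c, d, e, f], cl 5 u v := by
  obtain ⟨h1, h2, h3, h4, h5, h6, -⟩ := h
  have g1 := h1.cl
  have g2 := h2.cl
  have g3 := h3.cl
  have g4 := h4.cl
  have g5 := h5.cl
  unfold HX.cl at *
  simp only [abs_le] at *
  intro u hu v hv
  simp only [List.mem_cons, List.not_mem_nil, or_false] at hu hv
  rcases hu with rfl | rfl | rfl | rfl | rfl | rfl <;>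
    rcases hv with rfl | rfl | rfl | rfl | rfl | rfl <;> omega

theorem HP.props {i : List V × List V} (h : HP i) :
    i.1 ≠ [] ∧ i.2 ≠ [] ∧ i.1.head? = i.2.head? ∧ i.1.getLast? = i.2.getLast? ∧ i.2.Nodup ∧
      i.2.IsChain Nbr ∧ 2 ≤ i.1.length ∧ i.2.length ≤ 6 ∧ i.1.length ≤ i.2.length ∧
      i.2.length ≤ i.1.length + 4 ∧ (∀ u ∈ i.1, u ∈ i.2 ∨ i.1.length = 3) := by
  obtain ⟨a, b, c, d, e, f, hx, rfl | rfl⟩ := h
  · obtain ⟨h1, h2, h3, h4, h5, h6, h7⟩ := hx
    simp only [List.nodup_cons, List.mem_cons, List.not_mem_nil, or_false, not_or,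
      List.nodup_nil, and_true, not_false_eq_true] at h7
    refine ⟨by simp, by simp, by simp, by simp, ?_, ?_, by simp, by simp, by simp, by simp, ?_⟩
    · simp only [List.nodup_cons, List.mem_cons, List.not_mem_nil, or_false, not_or,
        List.nodup_nil, and_true, not_false_eq_true]
      tauto
    · simp only [List.isChain_cons_cons, List.isChain_singleton, and_true]
      exact ⟨h6.symm, h5.symm, h4.symm, h3.symm, h2.symm⟩
    · intro u hu
      left
      simp only [List.mem_cons, List.not_mem_nil, or_false] at hu ⊢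
      tauto
  · obtain ⟨h1, h2, h3, h4, h5, h6, h7⟩ := hx
    simp only [List.nodup_cons, List.mem_cons, List.not_mem_nil, or_false, not_or,
      List.nodup_nil, and_true, not_false_eq_true] at h7
    refine ⟨by simp, by simp, by simp, by simp, ?_, ?_, by simp, by simp, by simp, by simp, ?_⟩
    · simp only [List.nodup_cons, List.mem_cons, List.not_mem_nil, or_false, not_or,
        List.nodup_nil, and_true, not_false_eq_true]
      tauto
    · simp only [List.isChain_cons_cons, List.isChain_singleton, and_true]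
      exact ⟨h6.symm, h5.symm, h4.symm, h3.symm⟩
    · intro u hu
      right
      simp

theorem HP.cl {i : List V × List V} (h : HP i) :
    ∀ u, (u ∈ i.1 ∨ u ∈ i.2) → ∀ v, (v ∈ i.1 ∨ v ∈ i.2) → cl 5 u v := by
  obtain ⟨a, b, c, d, e, f, hx, rfl | rfl⟩ := h
  · intro u hu v hv
    refine hx.cl u ?_ v ?_
    · simp only [List.mem_cons, List.not_mem_nil, or_false] at hu ⊢
      tauto
    · simp only [List.mem_cons, List.not_mem_nil, or_false] at hv ⊢
      tauto
  · intro u hu v hv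
    refine hx.cl u ?_ v ?_
    · simp only [List.mem_cons, List.not_mem_nil, or_false] at hu ⊢
      tauto
    · simp only [List.mem_cons, List.not_mem_nil, or_false] at hv ⊢
      tauto

section lists
variable {α : Type*}

theorem chain_swap {r : α → α → Prop} {L U U' R : List α} (hU : U ≠ []) (hU' : U' ≠ [])
    (h1 : U.head? = U'.head?) (h2 : U.getLast? = U'.getLast?) (hc : U'.IsChain r)
    (h : (L ++ U ++ R).IsChain r) : (L ++ U' ++ R).IsChain r := by
  rw [List.isChain_append, List.isChain_append] at h ⊢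
  obtain ⟨⟨g1, g2, g3⟩, g4, g5⟩ := h
  refine ⟨⟨g1, hc, ?_⟩, g4, ?_⟩
  · rw [← h1]; exact g3
  · rw [List.getLast?_append_of_ne_nil _ hU] at g5
    rw [List.getLast?_append_of_ne_nil _ hU', ← h2]
    exact g5

theorem nodup_swap {L U U' R : List α} (hU' : U'.Nodup) (h : (L ++ U ++ R).Nodup)
    (hf : ∀ v ∈ U', v ∉ U → v ∉ L ++ U ++ R) : (L ++ U' ++ R).Nodup := by
  rw [List.nodup_append, List.nodup_append] at h ⊢
  obtain ⟨⟨g1, g2, g3⟩, g4, g5⟩ := h
  refine ⟨⟨g1, hU', ?_⟩, g4, ?_⟩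
  · rintro a ha b hb rfl
    by_cases hbU : a ∈ U
    · exact g3 a ha a hbU rfl
    · exact hf a hb hbU (by simp [ha])
  · rintro a ha b hb rfl
    rw [List.mem_append] at ha
    rcases ha with ha | ha
    · exact g5 a (by simp [ha]) a hb rfl
    · by_cases hbU : a ∈ U
      · exact g5 a (by simp [hbU]) a hb rfl
      · exact hf a ha hbU (by simp [hb])

theorem split_unique {L U R L' R' : List α} (hU : U ≠ []) (hn : (L ++ U ++ R).Nodup)
    (h : L ++ U ++ R = L' ++ U ++ R') : L = L' ∧ R = R' := by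
  obtain ⟨u, t, rfl⟩ := List.exists_cons_of_ne_nil hU
  have hn' : (L' ++ (u :: t) ++ R').Nodup := h ▸ hn
  have e1 : L ++ (u :: t) ++ R = L ++ u :: (t ++ R) := by simp
  have e2 : L' ++ (u :: t) ++ R' = L' ++ u :: (t ++ R') := by simp
  rw [e1] at hn h
  rw [e2] at hn' h
  have m1 : u ∉ L := by
    intro hu
    rw [List.nodup_append] at hn
    exact hn.2.2 u hu u (by simp) rfl
  have m2 : u ∉ L' := by
    intro hu
    rw [List.nodup_append] at hn'
    exact hn'.2.2 u hu u (by simp) rfl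
  obtain ⟨h1, h2⟩ := List.append_inj' h (by
    have := congrArg List.length h
    by_contra hne
    rcases List.append_eq_append_iff.1 h with ⟨a, ha, hb⟩ | ⟨a, ha, hb⟩
    · rcases a with _ | ⟨x, a⟩
      · apply hne
        simp at ha
        rw [ha] at this
        simp at this ⊢
        omega
      · rw [List.cons_append, List.cons.injEq] at hb
        exact m2 (by rw [ha, hb.1]; simp)
    · rcases a with _ | ⟨x, a⟩
      · apply hne
        simp at ha
        rw [ha] at this
        simp at this ⊢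
        omega
      · rw [List.cons_append, List.cons.injEq] at hb
        exact m1 (by rw [ha, hb.1]; simp))
  refine ⟨h1, ?_⟩
  simpa using h2

/-- a factor of a word which avoids a middle part is on one side of it -/
theorem infix_avoid {L U R X : List α} (hU : U ≠ []) (hX : X ≠ []) (hd : ∀ v ∈ X, v ∉ U)
    (h : X <:+: L ++ U ++ R) : X <:+: L ∨ X <:+: R := by
  obtain ⟨s, t, h⟩ := h
  rw [List.append_assoc L] at h
  rcases List.append_eq_append_iff.1 h with ⟨a, ha, hb⟩ | ⟨a, ha, hb⟩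
  · -- L = s ++ X ++ a
    left
    exact ⟨s, a, ha.symm⟩
  · -- s ++ X = L ++ a, U ++ R = a ++ t
    rcases List.append_eq_append_iff.1 ha with ⟨c, hc, hc'⟩ | ⟨c, hc, hc'⟩
    · -- L = s ++ c, X = c ++ a
      rcases a with _ | ⟨y, a⟩
      · left
        rw [List.append_nil] at hc'
        rw [hc, hc']
        exact ⟨s, [], by simp⟩
      · exfalso
        obtain ⟨u, U', rfl⟩ := List.exists_cons_of_ne_nil hU
        rw [List.cons_append, List.cons_append, List.cons.injEq] at hb
        exact hd y (by rw [hc']; simp) (by rw [← hb.1]; simp)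
    · -- s = L ++ c, a = c ++ X
      rw [hc', List.append_assoc] at hb
      rcases List.append_eq_append_iff.1 hb with ⟨g, hg, hg'⟩ | ⟨g, hg, hg'⟩
      · -- c = U ++ g, R = g ++ (X ++ t)
        right
        rw [hg']
        exact ⟨g, t, by simp⟩
      · -- U = c ++ g, X ++ t = g ++ R
        rcases g with _ | ⟨y, g⟩
        · right
          rw [List.nil_append] at hg'
          exact ⟨[], t, by rw [List.nil_append]; exact hg'⟩
        · exfalso
          obtain ⟨x, X', rfl⟩ := List.exists_cons_of_ne_nil hX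
          rw [List.cons_append, List.cons_append, List.cons.injEq] at hg'
          exact hd x (by simp) (by rw [hg, hg'.1]; simp)

end lists

section moves
variable {l W l' : List V} {i j : List V × List V}

theorem Mv.nodup (h : Mv l i W) (hl : l.Nodup) : W.Nodup := by
  obtain ⟨hp, ⟨L, R, rfl, rfl⟩, hf⟩ := h
  exact nodup_swap hp.props.2.2.2.2.1 hl hf

theorem Mv.chain (h : Mv l i W) (hl : l.IsChain Nbr) : W.IsChain Nbr := by
  obtain ⟨hp, ⟨L, R, rfl, rfl⟩, hf⟩ := h
  obtain ⟨h1, h2, h3, h4, h5, h6, h7⟩ := hp.props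
  exact chain_swap h1 h2 h3 h4 h6 hl

theorem Mv.head (h : Mv l i W) : W.head? = l.head? := by
  obtain ⟨hp, ⟨L, R, rfl, rfl⟩, hf⟩ := h
  obtain ⟨h1, h2, h3, h4, h5, h6, h7⟩ := hp.props
  rcases L with _ | ⟨x, L⟩
  · simp only [List.nil_append]
    rw [List.head?_append_of_ne_nil _ h1, List.head?_append_of_ne_nil _ h2, h3]
  · simp

theorem Mv.last (h : Mv l i W) : W.getLast? = l.getLast? := by
  obtain ⟨hp, ⟨L, R, rfl, rfl⟩, hf⟩ := h
  obtain ⟨h1, h2, h3, h4, h5, h6, h7⟩ := hp.props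
  rcases List.eq_nil_or_concat R with rfl | ⟨R', x, rfl⟩
  · simp only [List.append_nil]
    rw [List.getLast?_append_of_ne_nil _ h1, List.getLast?_append_of_ne_nil _ h2, h4]
  · rw [List.getLast?_append_of_ne_nil _ (by simp), List.getLast?_append_of_ne_nil _ (by simp)]

theorem Mv.length (h : Mv l i W) : l.length ≤ W.length ∧ W.length ≤ l.length + 4 := by
  obtain ⟨hp, ⟨L, R, rfl, rfl⟩, hf⟩ := h
  obtain ⟨h1, h2, h3, h4, h5, h6, h7, h8, h9, h10, h11⟩ := hp.props
  simp only [List.length_append]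
  omega

theorem Mv.mem (h : Mv l i W) {v : V} (hv : v ∈ W) : v ∈ l ∨ (v ∈ i.2 ∧ v ∉ i.1) := by
  obtain ⟨hp, ⟨L, R, rfl, rfl⟩, hf⟩ := h
  simp only [List.mem_append] at hv ⊢
  by_cases h1 : v ∈ i.1
  · exact Or.inl (Or.inl (Or.inr h1))
  · rcases hv with (hv | hv) | hv
    · exact Or.inl (Or.inl (Or.inl hv))
    · exact Or.inr ⟨hv, h1⟩
    · exact Or.inl (Or.inr hv)

theorem Mv.mem_new (h : Mv l i W) {v : V} (hv : v ∈ i.2) : v ∈ W := by
  obtain ⟨hp, ⟨L, R, rfl, rfl⟩, hf⟩ := h
  simp [hv]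

theorem Mv.inj (h : Mv l i W) (h' : Mv l' i W) (hn : W.Nodup) : l = l' := by
  obtain ⟨hp, ⟨L, R, rfl, hW⟩, hf⟩ := h
  obtain ⟨-, ⟨L', R', rfl, hW'⟩, hf'⟩ := h'
  obtain ⟨h1, h2, h3⟩ := hp.props
  rw [hW] at hn
  have h3 : L ++ i.2 ++ R = L' ++ i.2 ++ R' := hW.symm.trans hW'
  obtain ⟨rfl, rfl⟩ := split_unique h2 hn h3
  rfl

/-- `j` can be done in `l` -/
def Fl (l : List V) (j : List V × List V) : Prop :=
  HP j ∧ j.1 <:+: l ∧ ∀ v ∈ j.2, v ∉ j.1 → v ∉ l

theorem Fl.exists (h : Fl l j) : ∃ W, Mv l j W := by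
  obtain ⟨h1, ⟨s, t, h2⟩, h3⟩ := h
  exact ⟨s ++ j.2 ++ t, h1, ⟨s, t, h2.symm, rfl⟩, h3⟩

/-- moves far from each other do not interfere -/
theorem Mv.far (h : Mv l i W) (hj : Fl l j)
    (hd : ∀ v, (v ∈ i.1 ∨ v ∈ i.2) → (v ∈ j.1 ∨ v ∈ j.2) → False) : Fl W j := by
  obtain ⟨h1, h2, h3⟩ := hj
  refine ⟨h1, ?_, ?_⟩
  · obtain ⟨hp, ⟨L, R, rfl, rfl⟩, hf⟩ := h
    rcases infix_avoid hp.props.1 h1.props.1 (fun v hv hv' => hd v (Or.inl hv') (Or.inl hv)) h2
      with h | h
    · exact h.trans ⟨[], i.2 ++ R, by simp⟩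
    · exact h.trans ⟨L ++ i.2, [], by simp⟩
  · intro v hv hv' hW
    rcases h.mem hW with h4 | h4
    · exact h3 v hv hv' h4
    · exact hd v (Or.inr h4.1) (Or.inr hv)

end moves

end Pool.Agent.U372.HX
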