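import Mathlib

/-! # The honeycomb lattice: neighbours and hexagons -/

set_option autoImplicit false

namespace Pool.Agent.U372.HX

abbrev V := ℤ × ℤ

/-- Adjacency in the honeycomb lattice (brick-wall coordinates). -/
def Nbr (p q : ℤ × ℤ) : Prop :=
  (p.2 = q.2 ∧ (p.1 - q.1 = 1 ∨ q.1 - p.1 = 1)) ∨
    (p.1 = q.1 ∧ ((q.2 = p.2 + 1 ∧ Even (p.1 + p.2)) ∨ (p.2 = q.2 + 1 ∧ Even (q.1 + q.2))))

theorem Nbr.symm {p q : V} (h : Nbr p q) : Nbr q p := by
  obtain ⟨a, b⟩ := p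
  obtain ⟨c, d⟩ := q
  rcases h with ⟨h1, h2⟩ | ⟨h1, ⟨h2, h3⟩ | ⟨h2, h3⟩⟩
  · exact Or.inl ⟨h1.symm, h2.symm⟩
  · exact Or.inr ⟨h1.symm, Or.inr ⟨h2, h3⟩⟩
  · exact Or.inr ⟨h1.symm, Or.inl ⟨h2, h3⟩⟩

theorem Nbr.ne {p q : V} (h : Nbr p q) : p ≠ q := by
  rintro rfl
  unfold Nbr at h
  omega

/-- the vertices at distance at most `R` in the maximum norm -/
def cl (R : ℤ) (p q : V) : Prop := |p.1 - q.1| ≤ R ∧ |p.2 - q.2| ≤ R

theorem Nbr.cl {p q : V} (h : Nbr p q) : cl 1 p q := by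
  unfold Nbr at h
  unfold HX.cl
  rw [abs_le, abs_le]
  omega

theorem cl.symm {R : ℤ} {p q : V} (h : cl R p q) : cl R q p := by
  unfold cl at *
  rw [abs_le, abs_le] at *
  omega

theorem cl.trans {R R' : ℤ} {p q r : V} (h : cl R p q) (h' : cl R' q r) : cl (R + R') p r := by
  unfold cl at *
  rw [abs_le, abs_le] at *
  omega

theorem cl.mono {R R' : ℤ} {p q : V} (h : cl R p q) (h' : R ≤ R') : cl R' p q := by
  unfold cl at *
  omega

theorem cl_self (p : V) {R : ℤ} (h : 0 ≤ R) : cl R p p := by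
  unfold cl
  simp [h]

/-- the vertical neighbour -/
def vt (p : V) : V := if Even (p.1 + p.2) then (p.1, p.2 + 1) else (p.1, p.2 - 1)

theorem nbr_iff (p q : V) : Nbr p q ↔ q = (p.1 + 1, p.2) ∨ q = (p.1 - 1, p.2) ∨ q = vt p := by
  obtain ⟨a, b⟩ := p
  obtain ⟨c, d⟩ := q
  unfold Nbr vt
  simp only [Int.even_iff]
  split_ifs with h
  · simp only [Prod.mk.injEq]
    omega
  · simp only [Prod.mk.injEq]
    omega

theorem vt_ne (p : V) : vt p ≠ (p.1 + 1, p.2) ∧ vt p ≠ (p.1 - 1, p.2) := by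
  unfold vt
  split_ifs
  · simp only [ne_eq, Prod.mk.injEq]
    omega
  · simp only [ne_eq, Prod.mk.injEq]
    omega

/-- three distinct neighbours are all the neighbours -/
theorem deg3 {p a b c d : V} (ha : Nbr p a) (hb : Nbr p b) (hc : Nbr p c) (hab : a ≠ b)
    (hac : a ≠ c) (hbc : b ≠ c) (hd : Nbr p d) : d = a ∨ d = b ∨ d = c := by
  rw [nbr_iff] at ha hb hc hd
  rcases ha with rfl | rfl | rfl <;> rcases hb with rfl | rfl | rfl <;>
    rcases hc with rfl | rfl | rfl <;> rcases hd with rfl | rfl | rfl <;> simp_all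

theorem third {p a b : V} (ha : Nbr p a) (hb : Nbr p b) (hab : a ≠ b) :
    ∃ c, Nbr p c ∧ c ≠ a ∧ c ≠ b := by
  have h1 : ((p.1 + 1, p.2) : V) ≠ (p.1 - 1, p.2) := by
    simp only [ne_eq, Prod.mk.injEq]
    omega
  have h2 := vt_ne p
  have e1 : Nbr p (p.1 + 1, p.2) := (nbr_iff _ _).2 (Or.inl rfl)
  have e2 : Nbr p (p.1 - 1, p.2) := (nbr_iff _ _).2 (Or.inr (Or.inl rfl))
  have e3 : Nbr p (vt p) := (nbr_iff _ _).2 (Or.inr (Or.inr rfl))
  rw [nbr_iff] at ha hb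
  rcases ha with rfl | rfl | rfl <;> rcases hb with rfl | rfl | rfl
  · exact absurd rfl hab
  · exact ⟨_, e3, h2.1, h2.2⟩
  · exact ⟨_, e2, h1.symm, h2.2.symm⟩
  · exact ⟨_, e3, h2.2, h2.1⟩
  · exact absurd rfl hab
  · exact ⟨_, e1, h1, h2.1.symm⟩
  · exact ⟨_, e2, h2.2.symm, h1.symm⟩
  · exact ⟨_, e1, h2.1.symm, h1⟩
  · exact absurd rfl hab

/-- `a b c d e f` are the vertices of a hexagon, in this order -/
def Hx (a b c d e f : V) : Prop :=
  Nbr a b ∧ Nbr b c ∧ Nbr c d ∧ Nbr d e ∧ Nbr e f ∧ Nbr f a ∧ [a, b, c, d, e, f].Nodup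

theorem Hx.rot {a b c d e f : V} (h : Hx a b c d e f) : Hx b c d e f a := by
  obtain ⟨h1, h2, h3, h4, h5, h6, h7⟩ := h
  refine ⟨h2, h3, h4, h5, h6, h1, ?_⟩
  have : [b, c, d, e, f, a].Perm [a, b, c, d, e, f] := by
    have := List.perm_append_comm (l₁ := [b, c, d, e, f]) (l₂ := [a])
    simpa using this
  exact this.nodup_iff.2 h7

theorem Hx.rev {a b c d e f : V} (h : Hx a b c d e f) : Hx f e d c b a := by
  obtain ⟨h1, h2, h3, h4, h5, h6, h7⟩ := h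
  refine ⟨h5.symm, h4.symm, h3.symm, h2.symm, h1.symm, h6.symm, ?_⟩
  have := List.nodup_reverse.2 h7
  simpa using this

theorem hx_aux {x y : ℤ} (h : (x + y) % 2 = 0) :
    Hx (x + 1, y) (x, y) (x - 1, y) (x - 1, y - 1) (x, y - 1) (x + 1, y - 1) ∧
    Hx (x + 1, y) (x, y) (x, y + 1) (x + 1, y + 1) (x + 2, y + 1) (x + 2, y) ∧
    Hx (x - 1, y) (x, y) (x, y + 1) (x - 1, y + 1) (x - 2, y + 1) (x - 2, y) := by
  refine ⟨⟨?_, ?_, ?_, ?_, ?_, ?_, ?_⟩, ⟨?_, ?_, ?_, ?_, ?_, ?_, ?_⟩,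
    ⟨?_, ?_, ?_, ?_, ?_, ?_, ?_⟩⟩ <;>
  first
  | (unfold Nbr; dsimp only; simp only [Int.even_iff, true_and]; omega)
  | (simp only [List.nodup_cons, List.mem_cons, Prod.mk.injEq, List.not_mem_nil, or_false,
      not_false_eq_true, List.nodup_nil, and_true]; omega)

theorem hx_aux' {x y : ℤ} (h : (x + y) % 2 = 1) :
    Hx (x + 1, y) (x, y) (x - 1, y) (x - 1, y + 1) (x, y + 1) (x + 1, y + 1) ∧
    Hx (x + 1, y) (x, y) (x, y - 1) (x + 1, y - 1) (x + 2, y - 1) (x + 2, y) ∧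
    Hx (x - 1, y) (x, y) (x, y - 1) (x - 1, y - 1) (x - 2, y - 1) (x - 2, y) := by
  refine ⟨⟨?_, ?_, ?_, ?_, ?_, ?_, ?_⟩, ⟨?_, ?_, ?_, ?_, ?_, ?_, ?_⟩,
    ⟨?_, ?_, ?_, ?_, ?_, ?_, ?_⟩⟩ <;>
  first
  | (unfold Nbr; dsimp only; simp only [Int.even_iff, true_and]; omega)
  | (simp only [List.nodup_cons, List.mem_cons, Prod.mk.injEq, List.not_mem_nil, or_false,
      not_false_eq_true, List.nodup_nil, and_true]; omega)

/-- swapping the two ends of a path of length two in a hexagon -/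
theorem Hx.swap {a b c d e f : V} (h : Hx a b c d e f) : Hx c b a f e d := by
  have h1 := h.rev
  -- f e d c b a  -> rotate to c b a f e d
  exact h1.rot.rot.rot

/-- every path of length two is in a hexagon -/
theorem hx_exists {a b c : V} (h1 : Nbr a b) (h2 : Nbr b c) (hac : a ≠ c) :
    ∃ d e f, Hx a b c d e f := by
  obtain ⟨x, y⟩ := b
  have h1' := (nbr_iff _ _).1 h1.symm
  have h2' := (nbr_iff _ _).1 h2
  rcases Int.emod_two_eq_zero_or_one (x + y) with h | h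
  · obtain ⟨g1, g2, g3⟩ := hx_aux h
    have e : vt (x, y) = (x, y + 1) := by
      unfold vt
      rw [if_pos (Int.even_iff.2 h)]
    rw [e] at h1' h2'
    rcases h1' with rfl | rfl | rfl <;> rcases h2' with rfl | rfl | rfl
    · exact absurd rfl hac
    · exact ⟨_, _, _, g1⟩
    · exact ⟨_, _, _, g2⟩
    · exact ⟨_, _, _, g1.swap⟩
    · exact absurd rfl hac
    · exact ⟨_, _, _, g3⟩
    · exact ⟨_, _, _, g2.swap⟩
    · exact ⟨_, _, _, g3.swap⟩
    · exact absurd rfl hac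
  · obtain ⟨g1, g2, g3⟩ := hx_aux' h
    have e : vt (x, y) = (x, y - 1) := by
      unfold vt
      rw [if_neg]
      rw [Int.even_iff]
      simp only
      omega
    rw [e] at h1' h2'
    rcases h1' with rfl | rfl | rfl <;> rcases h2' with rfl | rfl | rfl
    · exact absurd rfl hac
    · exact ⟨_, _, _, g1⟩
    · exact ⟨_, _, _, g2⟩
    · exact ⟨_, _, _, g1.swap⟩
    · exact absurd rfl hac
    · exact ⟨_, _, _, g3⟩
    · exact ⟨_, _, _, g2.swap⟩
    · exact ⟨_, _, _, g3.swap⟩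
    · exact absurd rfl hac

end Pool.Agent.U372.HX
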