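import Pool.Agent.U372.HX.Local

/-! # The number of vertices of a walk close to an avoided set -/

set_option autoImplicit false

namespace Pool.Agent.U372.HX

open scoped Classical

/-- one step to a vertex outside of `D` -/
def StC (D : Set V) (a b : V) : Prop := Nbr a b ∧ b ∉ D

/-- the vertices connected to `p` outside of `D` -/
def Comp (D : Set V) (p : V) : Set V := {w | Relation.ReflTransGen (StC D) p w}

theorem comp_small {D : Set V} {p : V} (F : Finset V)
    (h : ∀ w ∈ Comp D p, w ∈ F) (h7 : 7 ≤ (Comp D p).encard) : 7 ≤ F.card := by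
  have h1 : (Comp D p).encard ≤ ((F : Set V)).encard := Set.encard_le_encard h
  rw [Set.encard_coe_eq_coe_finsetCard] at h1
  have h2 := h7.trans h1
  exact_mod_cast h2

theorem cluster {D : Set V} {l : List V} (hn : l.Nodup) (hc : l.IsChain Nbr)
    (hD : ∀ v ∈ l, v ∈ D) {p v : V} (hp : p ∉ D) (hv : v ∈ l) (hpv : Nbr p v)
    (h7 : 7 ≤ (Comp D p).encard) (hint : ∀ u ∈ l, cl 12 p u → Inn l u) :
    ∃ i, Fl l i ∧ (∃ u ∈ i.2, u ∉ i.1 ∧ u ∉ D) ∧ ∀ u, (u ∈ i.1 ∨ u ∈ i.2) → cl 12 p u := by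
  by_contra hcon
  have L1 : ∀ c c1 v', c ∉ D → cl 5 p c → v' ∈ l → Nbr c v' → c1 ∉ D → Nbr c c1 →
      ∃ q ∈ l, Nbr c1 q := by
    intro c c1 v' hcD hpc hv' hcv hc1D hcc1
    have hne : v' ≠ c1 := fun e => hc1D (e ▸ hD v' hv')
    obtain ⟨q, y, z, hx⟩ := hx_exists hcv.symm hcc1 hne
    by_cases hq : q ∈ l
    · exact ⟨q, hq, hx.2.2.1⟩
    · exfalso
      have hin : ∀ u ∈ [v', c, c1, q, y, z], cl 12 p u := fun u hu =>
        (hpc.trans (hx.cl c (by simp) u hu)).mono (by norm_num)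
      obtain ⟨i, g1, g2, g3, g4⟩ := face hn hc hx (hint v' hv' (hin v' (by simp)))
        (fun hy => hint y hy (hin y (by simp))) (fun h => hcD (hD c h))
        (fun h => hc1D (hD c1 h)) hq
      exact hcon ⟨i, g1, ⟨c, g2, g3, hcD⟩, fun u hu => hin u (g4 u hu)⟩
  have L3 : ∀ x x1 x2 g o e, Hx x1 x x2 g o e → x ∉ D → x1 ∉ D → x2 ∉ D → cl 5 p x →
      g ∉ l ∧ o ∉ l ∧ e ∉ l := by
    intro x x1 x2 g o e hx hxD hx1 hx2 hpx
    have hin : ∀ u ∈ [x1, x, x2, g, o, e], cl 12 p u := fun u hu =>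
      (hpx.trans (hx.cl x (by simp) u hu)).mono (by norm_num)
    by_contra hno
    have hno' : g ∈ l ∨ o ∈ l ∨ e ∈ l := by tauto
    obtain ⟨i, g1, g2, g3, g4⟩ := center hn hc hx (fun h => hint g h (hin g (by simp)))
      (fun h => hint o h (hin o (by simp))) (fun h => hint e h (hin e (by simp)))
      (fun h => hx1 (hD _ h)) (fun h => hxD (hD _ h)) (fun h => hx2 (hD _ h)) hno'
    exact hcon ⟨i, g1, ⟨x, g2, g3, hxD⟩, fun u hu => hin u (g4 u hu)⟩
  by_cases hcent : ∃ x x1 x2, x ∉ D ∧ x1 ∉ D ∧ x2 ∉ D ∧ Nbr x x1 ∧ Nbr x x2 ∧ x1 ≠ x2 ∧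
      (p = x ∨ p = x1)
  · obtain ⟨x, x1, x2, hxD, hx1, hx2, n1, n2, hne, hpx⟩ := hcent
    obtain ⟨g, o, e, hx⟩ := hx_exists n1.symm n2 hne
    have hpF : p ∈ [x1, x, x2, g, o, e] := by
      rcases hpx with rfl | rfl <;> simp
    obtain ⟨hg, ho, he⟩ := L3 x x1 x2 g o e hx hxD hx1 hx2 (hx.cl p hpF x (by simp))
    have h1 : x1 ∉ l := fun h => hx1 (hD _ h)
    have h0 : x ∉ l := fun h => hxD (hD _ h)
    have h2 : x2 ∉ l := fun h => hx2 (hD _ h)
    have hx' := hx
    obtain ⟨k1, k2, k3, k4, k5, k6, k7⟩ := hx'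
    simp only [List.nodup_cons, List.mem_cons, List.not_mem_nil, or_false, not_or,
      List.nodup_nil, and_true, not_false_eq_true] at k7
    obtain ⟨⟨m1, m2, m3, m4, m5⟩, ⟨m6, m7, m8, m9⟩, ⟨m10, m11, m12⟩, ⟨m13, m14⟩, m15⟩ := k7
    have key : ∀ w ∈ Comp D p, w ∈ [x1, x, x2, g, o, e] ∧ w ∉ D ∧ ∃ v' ∈ l, Nbr w v' := by
      intro w hw
      induction hw with
      | refl => exact ⟨hpF, hp, v, hv, hpv⟩
      | @tail w b _ hwb ih =>
        obtain ⟨hwF, hwD, v', hv', hwv⟩ := ih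
        obtain ⟨hwb, hbD⟩ := hwb
        refine ⟨?_, hbD, L1 w b v' hwD (hx.cl p hpF w hwF) hv' hwv hbD hwb⟩
        have hbv : b ≠ v' := fun e' => hbD (e' ▸ hD v' hv')
        have aux : ∀ f1 f2, Nbr w f1 → Nbr w f2 → f1 ≠ f2 → f1 ∉ l → f2 ∉ l →
            b = f1 ∨ b = f2 := by
          intro f1 f2 e1 e2 e3 e4 e5
          rcases deg3 e1 e2 hwv e3 (fun h => e4 (h ▸ hv')) (fun h => e5 (h ▸ hv')) hwb
            with h | h | h
          · exact Or.inl h
          · exact Or.inr h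
          · exact absurd h hbv
        simp only [List.mem_cons, List.not_mem_nil, or_false] at hwF ⊢
        rcases hwF with rfl | rfl | rfl | rfl | rfl | rfl
        · rcases aux x e k1 k6.symm m9 h0 he with h | h
          · exact Or.inr (Or.inl h)
          · exact Or.inr (Or.inr (Or.inr (Or.inr (Or.inr h))))
        · rcases aux x1 x2 k1.symm k2 m2 h1 h2 with h | h
          · exact Or.inl h
          · exact Or.inr (Or.inr (Or.inl h))
        · rcases aux x g k2.symm k3 m7 h0 hg with h | h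
          · exact Or.inr (Or.inl h)
          · exact Or.inr (Or.inr (Or.inr (Or.inl h)))
        · rcases aux x2 o k3.symm k4 m11 h2 ho with h | h
          · exact Or.inr (Or.inr (Or.inl h))
          · exact Or.inr (Or.inr (Or.inr (Or.inr (Or.inl h))))
        · rcases aux g e k4.symm k5 m14 hg he with h | h
          · exact Or.inr (Or.inr (Or.inr (Or.inl h)))
          · exact Or.inr (Or.inr (Or.inr (Or.inr (Or.inr h))))
        · rcases aux o x1 k5.symm k6 (Ne.symm m4) ho h1 with h | h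
          · exact Or.inr (Or.inr (Or.inr (Or.inr (Or.inl h))))
          · exact Or.inl h
    have h8 := comp_small (D := D) (p := p) ({x1, x, x2, g, o, e} : Finset V) (fun w hw => by
      have := (key w hw).1
      simpa using this) h7
    have h9 : ({x1, x, x2, g, o, e} : Finset V).card ≤ 6 := Finset.card_le_six
    omega
  · have key : ∃ c1, ∀ w ∈ Comp D p, w ∈ ({p, c1} : Finset V) := by
      by_cases h1 : ∃ c1, c1 ∉ D ∧ Nbr p c1
      · obtain ⟨c1, hc1, hpc⟩ := h1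
        refine ⟨c1, fun w hw => ?_⟩
        induction hw with
        | refl => simp
        | @tail w b _ hwb ih =>
          obtain ⟨hwb, hbD⟩ := hwb
          rw [Finset.mem_insert, Finset.mem_singleton] at ih ⊢
          rcases ih with rfl | rfl
          · right
            by_contra hne
            exact hcent ⟨w, c1, b, hp, hc1, hbD, hpc, hwb, fun h => hne h.symm, Or.inl rfl⟩
          · left
            by_contra hne
            exact hcent ⟨w, p, b, hc1, hp, hbD, hpc.symm, hwb, fun h => hne h.symm, Or.inr rfl⟩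
      · refine ⟨p, fun w hw => ?_⟩
        induction hw with
        | refl => simp
        | @tail w b _ hwb ih =>
          exfalso
          simp only [Finset.mem_insert, Finset.mem_singleton, or_self] at ih
          subst ih
          exact h1 ⟨b, hwb.2, hwb.1⟩
    obtain ⟨c1, hc1⟩ := key
    have h8 := comp_small (D := D) (p := p) _ hc1 h7
    have h9 : ({p, c1} : Finset V).card ≤ 2 := Finset.card_le_two
    omega

/-- the vertices at graph distance at most `k` from `A` -/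
def Nr (A : Set V) : ℕ → Set V
  | 0 => A
  | k + 1 => {v | v ∈ Nr A k ∨ ∃ u ∈ Nr A k, Nbr u v}

theorem Nr_cl {A : Set V} {k : ℕ} {v : V} (h : v ∈ Nr A k) : ∃ a ∈ A, cl k a v := by
  induction k generalizing v with
  | zero => exact ⟨v, h, cl_self v (by simp)⟩
  | succ k ih =>
    rcases h with h | ⟨u, hu, huv⟩
    · obtain ⟨a, ha, h1⟩ := ih h
      exact ⟨a, ha, h1.mono (by push_cast; omega)⟩
    · obtain ⟨a, ha, h1⟩ := ih hu
      exact ⟨a, ha, (h1.trans huv.cl).mono (by push_cast; omega)⟩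

/-- outside of `D` or close to `A` -/
def BB (D A : Set V) (k : ℕ) : Set V := {v | v ∉ D ∨ v ∈ Nr A k}

theorem point {D A : Set V} (hAD : ∀ u ∈ A, u ∉ D) (h7 : ∀ u ∈ A, 7 ≤ (Comp D u).encard)
    {l : List V} (hn : l.Nodup) (hc : l.IsChain Nbr) (hD : ∀ v ∈ l, v ∈ D) {k : ℕ} {v : V}
    (hv : v ∈ l) (hvA : v ∈ Nr A (k + 1)) (hno : ∀ u ∈ l, u ∈ Nr A k → ¬ cl 6 u v)
    (hint : ∀ u ∈ l, cl 14 v u → Inn l u) :
    ∃ i, Fl l i ∧ (∃ u ∈ i.2, u ∉ i.1 ∧ u ∈ BB D A k) ∧
      ∀ u, (u ∈ i.1 ∨ u ∈ i.2) → cl 13 v u := by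
  have hvk : v ∉ Nr A k := fun h => hno v hv h (cl_self v (by norm_num))
  obtain ⟨p0, hp0, hp0v⟩ := hvA.resolve_left hvk
  have hp0l : p0 ∉ l := fun h => hno p0 h hp0 (hp0v.cl.mono (by norm_num))
  rcases Nat.eq_zero_or_pos k with rfl | hk
  · obtain ⟨i, h1, ⟨u, h2, h3, h4⟩, h5⟩ := cluster hn hc hD (hAD p0 hp0) hv hp0v (h7 p0 hp0)
      (fun u hu h => hint u hu ((hp0v.symm.cl.trans h).mono (by norm_num)))
    exact ⟨i, h1, ⟨u, h2, h3, Or.inl h4⟩,
      fun u hu => (hp0v.symm.cl.trans (h5 u hu)).mono (by norm_num)⟩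
  · obtain ⟨m, rfl⟩ : ∃ m, k = m + 1 := ⟨k - 1, by omega⟩
    have hp0m : p0 ∉ Nr A m := fun h => hvk (Or.inr ⟨p0, h, hp0v⟩)
    obtain ⟨p1, hp1, hp10⟩ := hp0.resolve_left hp0m
    have hp1l : p1 ∉ l := fun h => hno p1 h (Or.inl hp1)
      ((hp10.cl.trans hp0v.cl).mono (by norm_num))
    have hne : v ≠ p1 := fun e => hvk (Or.inl (e ▸ hp1))
    obtain ⟨q, y, z, hx⟩ := hx_exists hp0v.symm hp10.symm hne
    have hq : q ∉ l := fun h => hno q h (Or.inr ⟨p1, hp1, hx.2.2.1⟩)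
      ((hx.cl q (by simp) v (by simp)).mono (by norm_num))
    have hin : ∀ u ∈ [v, p0, p1, q, y, z], cl 5 v u := fun u hu => hx.cl v (by simp) u hu
    obtain ⟨i, g1, g2, g3, g4⟩ := face hn hc hx (hint v hv (cl_self v (by norm_num)))
      (fun hy => hint y hy ((hin y (by simp)).mono (by norm_num))) hp0l hp1l hq
    exact ⟨i, g1, ⟨p0, g2, g3, Or.inr hp0⟩, fun u hu => (hin u (g4 u hu)).mono (by norm_num)⟩

/-- **The recursion.** -/
theorem level {D A H : Set V} (hAD : ∀ u ∈ A, u ∉ D) (h7 : ∀ u ∈ A, 7 ≤ (Comp D u).encard)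
    (k : ℕ) (hH : ∀ a ∈ A, ∀ w, cl (k + 14) a w → w ∈ H) {l : List V} (hn : l.Nodup)
    (hc : l.IsChain Nbr) (hD : ∀ v ∈ l, v ∈ D) :
    nB (Nr A (k + 1)) l ≤ 169 * nB (Nr A k) l + 1682 + 729 * (QQ H (BB D A k) l).card := by
  unfold nB
  have hsub : l.toFinset.filter (fun v => v ∈ Nr A (k + 1)) ⊆
      ((l.toFinset.filter (fun v => v ∈ Nr A k)).biUnion (bx 6) ∪
        (bx 14 (l.head?.getD 0) ∪ bx 14 (l.getLast?.getD 0))) ∪
      (QQ H (BB D A k) l).biUnion (fun i => bx 13 (i.1.head?.getD 0)) := by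
    intro v hv
    rw [Finset.mem_filter, List.mem_toFinset] at hv
    obtain ⟨hv, hvA⟩ := hv
    by_contra hcon
    simp only [Finset.mem_union, Finset.mem_biUnion, not_or, not_exists, not_and] at hcon
    obtain ⟨⟨c1, c2, c3⟩, c4⟩ := hcon
    have hno : ∀ u ∈ l, u ∈ Nr A k → ¬ cl 6 u v := by
      intro u hu huA h
      refine c1 u ?_ (mem_bx.2 h.symm)
      rw [Finset.mem_filter, List.mem_toFinset]
      exact ⟨hu, huA⟩
    have hint : ∀ u ∈ l, cl 14 v u → Inn l u := by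
      intro u hu h
      refine inn_of hu (fun e => c2 ?_) (fun e => c3 ?_)
      · rw [e]
        exact mem_bx.2 h
      · rw [e]
        exact mem_bx.2 h
    obtain ⟨i, h1, h2, h3⟩ := point hAD h7 hn hc hD hv hvA hno hint
    obtain ⟨a, t, hat⟩ := List.exists_cons_of_ne_nil h1.1.props.1
    refine c4 i ?_ ?_
    · rw [mem_QQ]
      refine ⟨h1, fun u hu => ?_, h2⟩
      obtain ⟨a', ha', h4⟩ := Nr_cl hvA
      exact hH a' ha' u ((h4.trans (h3 u (Or.inr hu))).mono (by push_cast; omega))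
    · rw [hat]
      exact mem_bx.2 (h3 a (Or.inl (by rw [hat]; simp)))
  have h1 := Finset.card_le_card hsub
  have h2 := Finset.card_union_le ((l.toFinset.filter (fun v => v ∈ Nr A k)).biUnion (bx 6) ∪
        (bx 14 (l.head?.getD 0) ∪ bx 14 (l.getLast?.getD 0)))
      ((QQ H (BB D A k) l).biUnion (fun i => bx 13 (i.1.head?.getD 0)))
  have h3 := Finset.card_union_le ((l.toFinset.filter (fun v => v ∈ Nr A k)).biUnion (bx 6))
    (bx 14 (l.head?.getD 0) ∪ bx 14 (l.getLast?.getD 0))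
  have h4 := Finset.card_union_le (bx 14 (l.head?.getD 0)) (bx 14 (l.getLast?.getD 0))
  rw [bx_card, bx_card] at h4
  have e14 : ((2 : ℤ) * 14 + 1).toNat = 29 := rfl
  have e6 : ((2 : ℤ) * 6 + 1).toNat = 13 := rfl
  have e13 : ((2 : ℤ) * 13 + 1).toNat = 27 := rfl
  rw [e14] at h4
  have h5 : ((l.toFinset.filter (fun v => v ∈ Nr A k)).biUnion (bx 6)).card ≤
      (l.toFinset.filter (fun v => v ∈ Nr A k)).card * 169 :=
    Finset.card_biUnion_le_card_mul _ _ _ (fun p _ => by rw [bx_card, e6]; norm_num)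
  have h6 : ((QQ H (BB D A k) l).biUnion (fun i => bx 13 (i.1.head?.getD 0))).card ≤
      (QQ H (BB D A k) l).card * 729 :=
    Finset.card_biUnion_le_card_mul _ _ _ (fun p _ => by rw [bx_card, e13]; norm_num)
  omega

end Pool.Agent.U372.HX
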