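import Pool.Agent.U372.HX.Count

/-! # Existence of a move close to a free vertex -/

set_option autoImplicit false

namespace Pool.Agent.U372.HX

open scoped Classical

/-- consecutive vertices, in one order or the other -/
def Con (l : List V) (a b : V) : Prop := [a, b] <:+: l ∨ [b, a] <:+: l

theorem Con.symm {l : List V} {a b : V} (h : Con l a b) : Con l b a := Or.symm h

theorem Con.left {l : List V} {a b : V} (h : Con l a b) : a ∈ l := by
  rcases h with h | h
  · exact h.subset (by simp)
  · exact h.subset (by simp)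

theorem Con.right {l : List V} {a b : V} (h : Con l a b) : b ∈ l := h.symm.left

/-- `u` is an inner vertex of `l` -/
def Inn (l : List V) (u : V) : Prop := ∃ a b, [a, u, b] <:+: l

theorem inn_of {l : List V} {u : V} (hu : u ∈ l) (h0 : l.head? ≠ some u)
    (h1 : l.getLast? ≠ some u) : Inn l u := by
  obtain ⟨s, t, rfl⟩ := List.append_of_mem hu
  rcases List.eq_nil_or_concat s with rfl | ⟨s', a, rfl⟩
  · simp at h0
  rcases t with _ | ⟨b, t⟩
  · simp at h1
  exact ⟨a, b, s', t, by simp⟩

theorem pred_unique {l : List V} (hn : l.Nodup) {a b u : V} (h1 : [a, u] <:+: l)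
    (h2 : [b, u] <:+: l) : a = b := by
  obtain ⟨s, t, rfl⟩ := h1
  obtain ⟨s', t', h⟩ := h2
  have e1 : s ++ [a, u] ++ t = (s ++ [a]) ++ [u] ++ t := by simp
  have e2 : s' ++ [b, u] ++ t' = (s' ++ [b]) ++ [u] ++ t' := by simp
  rw [e1] at hn h
  rw [e2] at h
  have := (split_unique (by simp) hn h.symm).1
  exact (List.append_inj' this rfl).2 |> fun h => by simpa using h

theorem succ_unique {l : List V} (hn : l.Nodup) {a b u : V} (h1 : [u, a] <:+: l)
    (h2 : [u, b] <:+: l) : a = b := by
  obtain ⟨s, t, rfl⟩ := h1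
  obtain ⟨s', t', h⟩ := h2
  have e1 : s ++ [u, a] ++ t = s ++ [u] ++ ([a] ++ t) := by simp
  have e2 : s' ++ [u, b] ++ t' = s' ++ [u] ++ ([b] ++ t') := by simp
  rw [e1] at hn h
  rw [e2] at h
  have := (split_unique (by simp) hn h.symm).2
  simp at this
  exact this.1

theorem join {l : List V} (hn : l.Nodup) {a b u : V} (h1 : [a, u] <:+: l)
    (h2 : [u, b] <:+: l) : [a, u, b] <:+: l := by
  obtain ⟨s, t, rfl⟩ := h1
  obtain ⟨s', t', h⟩ := h2
  have e1 : s ++ [a, u] ++ t = (s ++ [a]) ++ [u] ++ t := by simp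
  have e2 : s' ++ [u, b] ++ t' = s' ++ [u] ++ ([b] ++ t') := by simp
  rw [e1] at hn h
  rw [e2] at h
  have := (split_unique (by simp) hn h.symm).2
  rw [this]
  exact ⟨s, t', by simp⟩

theorem arc3 {l : List V} (hn : l.Nodup) {a b u : V} (hab : a ≠ b) (h1 : Con l a u)
    (h2 : Con l u b) : [a, u, b] <:+: l ∨ [b, u, a] <:+: l := by
  rcases h1 with h1 | h1 <;> rcases h2 with h2 | h2
  · exact Or.inl (join hn h1 h2)
  · exact absurd (pred_unique hn h1 h2) hab
  · exact absurd (succ_unique hn h1 h2) hab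
  · exact Or.inr (join hn h2 h1)

theorem inn_nbrs {l : List V} (hn : l.Nodup) (hc : l.IsChain Nbr) {u a b : V}
    (h : [a, u, b] <:+: l) : Nbr u a ∧ Nbr u b ∧ a ≠ b ∧ Con l u a ∧ Con l u b := by
  have h1 : [a, u, b].IsChain Nbr := by
    obtain ⟨s, t, rfl⟩ := h
    exact (List.isChain_append.1 (List.isChain_append.1 hc).1).2.1
  simp only [List.isChain_cons_cons, List.isChain_singleton, and_true] at h1
  have h2 : [a, u, b].Nodup := hn.sublist h.sublist
  simp only [List.nodup_cons, List.mem_cons, List.not_mem_nil, or_false, not_or] at h2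
  refine ⟨h1.1.symm, h1.2, h2.1.2, Or.inr ?_, Or.inl ?_⟩
  · exact List.IsInfix.trans ⟨[], [b], by simp⟩ h
  · exact List.IsInfix.trans ⟨[a], [], by simp⟩ h

/-- an inner vertex with a free neighbour is connected in the walk to the two others -/
theorem con_of_free {l : List V} (hn : l.Nodup) (hc : l.IsChain Nbr) {u x y : V} (hi : Inn l u)
    (hx : Nbr u x) (hxl : x ∉ l) (hy : Nbr u y) (hyx : y ≠ x) : Con l u y := by
  obtain ⟨a, b, h⟩ := hi
  obtain ⟨h1, h2, h3, h4, h5⟩ := inn_nbrs hn hc h
  have hax : x ≠ a := fun e => hxl (e ▸ h4.right)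
  have hbx : x ≠ b := fun e => hxl (e ▸ h5.right)
  rcases deg3 hx h1 h2 hax hbx h3 hy with rfl | rfl | rfl
  · exact absurd rfl hyx
  · exact h4
  · exact h5

/-- a move across the hexagon `v c c1 q y z` -/
theorem face {l : List V} (hn : l.Nodup) (hc : l.IsChain Nbr) {v c c1 q y z : V}
    (hx : Hx v c c1 q y z) (iv : Inn l v) (iy : y ∈ l → Inn l y) (hcl : c ∉ l) (hc1 : c1 ∉ l)
    (hq : q ∉ l) : ∃ i, Fl l i ∧ c ∈ i.2 ∧ c ∉ i.1 ∧
      (∀ u, (u ∈ i.1 ∨ u ∈ i.2) → u ∈ [v, c, c1, q, y, z]) := by
  have hx' := hx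
  obtain ⟨h1, h2, h3, h4, h5, h6, h7⟩ := hx
  simp only [List.nodup_cons, List.mem_cons, List.not_mem_nil, or_false, not_or,
    List.nodup_nil, and_true, not_false_eq_true] at h7
  obtain ⟨⟨n1, n2, n3, n4, n5⟩, ⟨n6, n7, n8, n9⟩, ⟨n10, n11, n12⟩, ⟨n13, n14⟩, n15⟩ := h7
  have k1 : Con l v z := con_of_free hn hc iv h1 hcl h6.symm (Ne.symm n9)
  by_cases hy : y ∈ l
  · have k2 : Con l y z := con_of_free hn hc (iy hy) h4.symm hq h5 (Ne.symm n14)
    rcases arc3 hn n4 k1 k2.symm with k | k
    · refine ⟨([v, z, y], [v, c, c1, q, y]), ⟨⟨v, z, y, q, c1, c, hx'.rev.rot.rot.rot.rot.rot,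
        Or.inr rfl⟩, k, ?_⟩, by simp, ?_, ?_⟩
      · intro u hu hu'
        simp only [List.mem_cons, List.not_mem_nil, or_false, not_or] at hu hu'
        rcases hu with rfl | rfl | rfl | rfl | rfl
        · exact absurd rfl hu'.1
        · exact hcl
        · exact hc1
        · exact hq
        · exact absurd rfl hu'.2.2
      · simp only [List.mem_cons, List.not_mem_nil, or_false, not_or]
        exact ⟨Ne.symm n1, n9, n8⟩
      · intro u hu
        simp only [List.mem_cons, List.not_mem_nil, or_false] at hu ⊢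
        tauto
    · refine ⟨([y, z, v], [y, q, c1, c, v]), ⟨⟨y, z, v, c, c1, q, hx'.rot.rot.rot.rot,
        Or.inr rfl⟩, k, ?_⟩, by simp, ?_, ?_⟩
      · intro u hu hu'
        simp only [List.mem_cons, List.not_mem_nil, or_false, not_or] at hu hu'
        rcases hu with rfl | rfl | rfl | rfl | rfl
        · exact absurd rfl hu'.1
        · exact hq
        · exact hc1
        · exact hcl
        · exact absurd rfl hu'.2.2
      · simp only [List.mem_cons, List.not_mem_nil, or_false, not_or]
        exact ⟨n8, n9, Ne.symm n1⟩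
      · intro u hu
        simp only [List.mem_cons, List.not_mem_nil, or_false] at hu ⊢
        tauto
  · rcases k1 with k | k
    · refine ⟨([v, z], [v, c, c1, q, y, z]), ⟨⟨v, z, y, q, c1, c,
        hx'.rev.rot.rot.rot.rot.rot, Or.inl rfl⟩, k, ?_⟩, by simp, ?_, ?_⟩
      · intro u hu hu'
        simp only [List.mem_cons, List.not_mem_nil, or_false, not_or] at hu hu'
        rcases hu with rfl | rfl | rfl | rfl | rfl | rfl
        · exact absurd rfl hu'.1
        · exact hcl
        · exact hc1
        · exact hq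
        · exact hy
        · exact absurd rfl hu'.2
      · simp only [List.mem_cons, List.not_mem_nil, or_false, not_or]
        exact ⟨Ne.symm n1, n9⟩
      · intro u hu
        simp only [List.mem_cons, List.not_mem_nil, or_false] at hu ⊢
        tauto
    · refine ⟨([z, v], [z, y, q, c1, c, v]), ⟨⟨z, v, c, c1, q, y,
        hx'.rot.rot.rot.rot.rot, Or.inl rfl⟩, k, ?_⟩, by simp, ?_, ?_⟩
      · intro u hu hu'
        simp only [List.mem_cons, List.not_mem_nil, or_false, not_or] at hu hu'
        rcases hu with rfl | rfl | rfl | rfl | rfl | rfl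
        · exact absurd rfl hu'.1
        · exact hy
        · exact hq
        · exact hc1
        · exact hcl
        · exact absurd rfl hu'.2
      · simp only [List.mem_cons, List.not_mem_nil, or_false, not_or]
        exact ⟨n9, Ne.symm n1⟩
      · intro u hu
        simp only [List.mem_cons, List.not_mem_nil, or_false] at hu ⊢
        tauto

/-- a move across a hexagon with three free consecutive vertices `c1 c c2`, first case -/
theorem center1 {l : List V} (hn : l.Nodup) (hc : l.IsChain Nbr) {c1 c c2 g o e : V}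
    (hx : Hx c1 c c2 g o e) (ig : Inn l g) (ie : e ∈ l → Inn l e)
    (h1 : c1 ∉ l) (h0 : c ∉ l) (h2 : c2 ∉ l) : ∃ i, Fl l i ∧ c ∈ i.2 ∧ c ∉ i.1 ∧
      (∀ u, (u ∈ i.1 ∨ u ∈ i.2) → u ∈ [c1, c, c2, g, o, e]) := by
  -- the hexagon `g c2 c c1 e o`
  have hx' : Hx g c2 c c1 e o := hx.rev.rot.rot
  have hx2 := hx'
  obtain ⟨k1, k2, k3, k4, k5, k6, k7⟩ := hx2
  simp only [List.nodup_cons, List.mem_cons, List.not_mem_nil, or_false, not_or,
    List.nodup_nil, and_true, not_false_eq_true] at k7
  obtain ⟨⟨n1, n2, n3, n4, n5⟩, ⟨n6, n7, n8, n9⟩, ⟨n10, n11, n12⟩, ⟨n13, n14⟩, n15⟩ := k7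
  have m1 : Con l g o := con_of_free hn hc ig k1 h2 k6.symm (Ne.symm n9)
  by_cases he : e ∈ l
  · have m2 : Con l e o := con_of_free hn hc (ie he) k4.symm h1 k5 (Ne.symm n14)
    rcases arc3 hn n4 m1 m2.symm with k | k
    · refine ⟨([g, o, e], [g, c2, c, c1, e]), ⟨⟨g, o, e, c1, c, c2,
        hx'.rev.rot.rot.rot.rot.rot, Or.inr rfl⟩, k, ?_⟩, by simp, ?_, ?_⟩
      · intro u hu hu'
        simp only [List.mem_cons, List.not_mem_nil, or_false, not_or] at hu hu'
        rcases hu with rfl | rfl | rfl | rfl | rfl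
        · exact absurd rfl hu'.1
        · exact h2
        · exact h0
        · exact h1
        · exact absurd rfl hu'.2.2
      · simp only [List.mem_cons, List.not_mem_nil, or_false, not_or]
        exact ⟨Ne.symm n2, n12, n11⟩
      · intro u hu
        simp only [List.mem_cons, List.not_mem_nil, or_false] at hu ⊢
        tauto
    · refine ⟨([e, o, g], [e, c1, c, c2, g]), ⟨⟨e, o, g, c2, c, c1,
        hx'.rot.rot.rot.rot, Or.inr rfl⟩, k, ?_⟩, by simp, ?_, ?_⟩
      · intro u hu hu'
        simp only [List.mem_cons, List.not_mem_nil, or_false, not_or] at hu hu'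
        rcases hu with rfl | rfl | rfl | rfl | rfl
        · exact absurd rfl hu'.1
        · exact h1
        · exact h0
        · exact h2
        · exact absurd rfl hu'.2.2
      · simp only [List.mem_cons, List.not_mem_nil, or_false, not_or]
        exact ⟨n11, n12, Ne.symm n2⟩
      · intro u hu
        simp only [List.mem_cons, List.not_mem_nil, or_false] at hu ⊢
        tauto
  · rcases m1 with k | k
    · refine ⟨([g, o], [g, c2, c, c1, e, o]), ⟨⟨g, o, e, c1, c, c2,
        hx'.rev.rot.rot.rot.rot.rot, Or.inl rfl⟩, k, ?_⟩, by simp, ?_, ?_⟩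
      · intro u hu hu'
        simp only [List.mem_cons, List.not_mem_nil, or_false, not_or] at hu hu'
        rcases hu with rfl | rfl | rfl | rfl | rfl | rfl
        · exact absurd rfl hu'.1
        · exact h2
        · exact h0
        · exact h1
        · exact he
        · exact absurd rfl hu'.2
      · simp only [List.mem_cons, List.not_mem_nil, or_false, not_or]
        exact ⟨Ne.symm n2, n12⟩
      · intro u hu
        simp only [List.mem_cons, List.not_mem_nil, or_false] at hu ⊢
        tauto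
    · refine ⟨([o, g], [o, e, c1, c, c2, g]), ⟨⟨o, g, c2, c, c1, e,
        hx'.rot.rot.rot.rot.rot, Or.inl rfl⟩, k, ?_⟩, by simp, ?_, ?_⟩
      · intro u hu hu'
        simp only [List.mem_cons, List.not_mem_nil, or_false, not_or] at hu hu'
        rcases hu with rfl | rfl | rfl | rfl | rfl | rfl
        · exact absurd rfl hu'.1
        · exact he
        · exact h1
        · exact h0
        · exact h2
        · exact absurd rfl hu'.2
      · simp only [List.mem_cons, List.not_mem_nil, or_false, not_or]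
        exact ⟨n12, Ne.symm n2⟩
      · intro u hu
        simp only [List.mem_cons, List.not_mem_nil, or_false] at hu ⊢
        tauto

/-- a move across a hexagon with three free consecutive vertices `c1 c c2` -/
theorem center {l : List V} (hn : l.Nodup) (hc : l.IsChain Nbr) {c1 c c2 g o e : V}
    (hx : Hx c1 c c2 g o e) (ig : g ∈ l → Inn l g) (io : o ∈ l → Inn l o) (ie : e ∈ l → Inn l e)
    (h1 : c1 ∉ l) (h0 : c ∉ l) (h2 : c2 ∉ l) (h : g ∈ l ∨ o ∈ l ∨ e ∈ l) :
    ∃ i, Fl l i ∧ c ∈ i.2 ∧ c ∉ i.1 ∧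
      (∀ u, (u ∈ i.1 ∨ u ∈ i.2) → u ∈ [c1, c, c2, g, o, e]) := by
  by_cases hg : g ∈ l
  · exact center1 hn hc hx (ig hg) ie h1 h0 h2
  by_cases he : e ∈ l
  · obtain ⟨i, k1, k2, k3, k4⟩ := center1 hn hc hx.swap (ie he) ig h2 h0 h1
    refine ⟨i, k1, k2, k3, fun u hu => ?_⟩
    have := k4 u hu
    simp only [List.mem_cons, List.not_mem_nil, or_false] at this ⊢
    rcases this with h3 | h3 | h3 | h3 | h3 | h3
    · exact Or.inr (Or.inr (Or.inl h3))
    · exact Or.inr (Or.inl h3)
    · exact Or.inl h3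
    · exact Or.inr (Or.inr (Or.inr (Or.inr (Or.inr h3))))
    · exact Or.inr (Or.inr (Or.inr (Or.inr (Or.inl h3))))
    · exact Or.inr (Or.inr (Or.inr (Or.inl h3)))
  · exfalso
    have ho : o ∈ l := by
      rcases h with h3 | h3 | h3
      · exact absurd h3 hg
      · exact h3
      · exact absurd h3 he
    obtain ⟨a, b, hab⟩ := io ho
    obtain ⟨m1, m2, m3, m4, m5⟩ := inn_nbrs hn hc hab
    obtain ⟨k1, k2, k3, k4, k5, k6, k7⟩ := hx
    have hge : g ≠ e := by
      simp only [List.nodup_cons, List.mem_cons, List.not_mem_nil, or_false, not_or] at k7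
      exact k7.2.2.2.1.2
    have hga : g ≠ a := fun e' => hg (e' ▸ m4.right)
    have hgb : g ≠ b := fun e' => hg (e' ▸ m5.right)
    rcases deg3 k4.symm m1 m2 hga hgb m3 k5 with h3 | h3 | h3
    · exact hge h3.symm
    · exact he (h3 ▸ m4.right)
    · exact he (h3 ▸ m5.right)

end Pool.Agent.U372.HX
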