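import Pool.Agent.U372.HX.Lev

/-! # Few walks come close to an avoided set many times: the honeycomb lattice -/

set_option autoImplicit false

namespace Pool.Agent.U372.HX

open scoped ENNReal Classical

/-- the self-avoiding trajectories from `a` to `b` in `D` -/
def Tr (D : Set V) (a b : V) : Set (List V) :=
  {l | l.head? = some a ∧ l.getLast? = some b ∧ l.Nodup ∧ l.IsChain Nbr ∧ ∀ p ∈ l, p ∈ D}

/-- the growth constant -/
def EE (Y Λ : ℕ) : ℕ := 729 * (12 * C0 + 7 * (Λ * (Y * C0))) + 1852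

theorem nB_BB {D A : Set V} {k : ℕ} {l : List V} (h : ∀ v ∈ l, v ∈ D) :
    nB (BB D A k) l = nB (Nr A k) l := by
  unfold nB
  congr 1
  refine Finset.filter_congr (fun v hv => ?_)
  rw [List.mem_toFinset] at hv
  unfold BB
  constructor
  · rintro (h1 | h1)
    · exact absurd (h v hv) h1
    · exact h1
  · intro h1
    exact Or.inr h1

theorem main {D A H : Set V} (hAD : ∀ u ∈ A, u ∉ D) (h7 : ∀ u ∈ A, 7 ≤ (Comp D u).encard)
    (hDH : D ⊆ H) (w : List V → ℝ≥0∞) (Y Λ : ℕ) (hY : 1 ≤ Y)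
    (hw : ∀ l i W, Mv l i W → w l ≤ Y * w W) (p q : V) (k : ℕ)
    (hH : ∀ a ∈ A, ∀ w, cl (k + 14) a w → w ∈ H) (r : ℕ) (hr : 1 ≤ r) :
    (Λ : ℝ≥0∞) ^ r * tot w {l | l ∈ Tr D p q ∧ EE Y Λ ^ k * r < nB (Nr A k) l} ≤
      k * tot w (Tr H p q) := by
  induction k with
  | zero =>
    have h0 : {l | l ∈ Tr D p q ∧ EE Y Λ ^ 0 * r < nB (Nr A 0) l} = ∅ := by
      ext l
      simp only [Set.mem_ofPred_eq, Set.mem_empty_iff_false, iff_false, not_and, not_lt]
      intro hl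
      have h1 : nB (Nr A 0) l = 0 := by
        unfold nB
        rw [Finset.card_eq_zero, Finset.filter_eq_empty_iff]
        intro v hv
        rw [List.mem_toFinset] at hv
        exact fun h => hAD v h (hl.2.2.2.2 v hv)
      omega
    rw [h0]
    unfold tot
    simp
  | succ k ih =>
    have hH' : ∀ a ∈ A, ∀ w, cl (k + 14) a w → w ∈ H := by
      intro a ha w hw'
      exact hH a ha w (hw'.mono (by push_cast; omega))
    have ih' := ih hH'
    have hsub : {l | l ∈ Tr D p q ∧ EE Y Λ ^ (k + 1) * r < nB (Nr A (k + 1)) l} ⊆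
        {l | l ∈ Tr D p q ∧ EE Y Λ ^ k * r < nB (Nr A k) l} ∪
        {l | l ∈ Tr H p q ∧ nB (BB D A k) l ≤ EE Y Λ ^ k * r ∧
          12 * C0 * r + Λ * (Y * (C0 * (EE Y Λ ^ k * r + 6 * r))) ≤
            (QQ H (BB D A k) l).card} := by
      rintro l ⟨hl, h1⟩
      by_cases h2 : EE Y Λ ^ k * r < nB (Nr A k) l
      · exact Or.inl ⟨hl, h2⟩
      · right
        push Not at h2
        obtain ⟨g1, g2, g3, g4, g5⟩ := hl
        refine ⟨⟨g1, g2, g3, g4, fun v hv => hDH (g5 v hv)⟩, ?_, ?_⟩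
        · rw [nB_BB g5]
          exact h2
        · have h3 := level hAD h7 k hH' g3 g4 g5
          set X := EE Y Λ ^ k with hX
          have hX1 : 1 ≤ X := Nat.one_le_pow _ _ (by unfold EE; omega)
          have e1 : EE Y Λ ^ (k + 1) * r = 729 * ((12 * C0 + 7 * (Λ * (Y * C0))) * (X * r)) +
              1852 * (X * r) := by
            rw [pow_succ, ← hX]
            unfold EE
            ring
          have e2 : 12 * C0 * r + Λ * (Y * (C0 * (X * r + 6 * r))) ≤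
              (12 * C0 + 7 * (Λ * (Y * C0))) * (X * r) := by
            have e3 : r ≤ X * r := Nat.le_mul_of_pos_left _ hX1
            calc 12 * C0 * r + Λ * (Y * (C0 * (X * r + 6 * r)))
                ≤ 12 * C0 * (X * r) + Λ * (Y * (C0 * (X * r + 6 * (X * r)))) := by
                  refine Nat.add_le_add (Nat.mul_le_mul_left _ e3) ?_
                  refine Nat.mul_le_mul_left _ (Nat.mul_le_mul_left _ (Nat.mul_le_mul_left _ ?_))
                  omega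
              _ = _ := by ring
          have e4 : 1 ≤ X * r := Nat.mul_pos hX1 hr
          rw [e1] at h1
          omega
    have h1 := many w Y Λ hY (fun _ => Tr H p q) H (BB D A k) hw (by
        rintro j l ⟨g1, g2, g3, g4, g5⟩ i W hW hi
        refine ⟨?_, ?_, hW.nodup g3, hW.chain g4, fun v hv => ?_⟩
        · rw [hW.head, g1]
        · rw [hW.last, g2]
        · rcases hW.mem hv with h | h
          · exact g5 v h
          · exact hi v h.1)
      (fun j l hl => hl.2.2.1) r (EE Y Λ ^ k * r) _ le_rfl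
    calc (Λ : ℝ≥0∞) ^ r *
          tot w {l | l ∈ Tr D p q ∧ EE Y Λ ^ (k + 1) * r < nB (Nr A (k + 1)) l}
        ≤ (Λ : ℝ≥0∞) ^ r * (tot w {l | l ∈ Tr D p q ∧ EE Y Λ ^ k * r < nB (Nr A k) l} +
          tot w {l | l ∈ Tr H p q ∧ nB (BB D A k) l ≤ EE Y Λ ^ k * r ∧
          12 * C0 * r + Λ * (Y * (C0 * (EE Y Λ ^ k * r + 6 * r))) ≤
            (QQ H (BB D A k) l).card}) :=
          mul_le_mul_right ((tot_mono w hsub).trans (tot_union w _ _)) _
      _ = (Λ : ℝ≥0∞) ^ r * tot w {l | l ∈ Tr D p q ∧ EE Y Λ ^ k * r < nB (Nr A k) l} +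
          (Λ : ℝ≥0∞) ^ r * tot w {l | l ∈ Tr H p q ∧ nB (BB D A k) l ≤ EE Y Λ ^ k * r ∧
          12 * C0 * r + Λ * (Y * (C0 * (EE Y Λ ^ k * r + 6 * r))) ≤
            (QQ H (BB D A k) l).card} := mul_add _ _ _
      _ ≤ k * tot w (Tr H p q) + 1 * tot w (Tr H p q) := by
          rw [one_mul]
          exact add_le_add ih' h1
      _ = _ := by push_cast; ring

/-- The base of the exponential bounds. -/
def KB (Y : ℕ) : ℕ := 4 * EE Y 4

theorem three_add_le (k : ℕ) : k + 3 ≤ 4 ^ (k + 1) := by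
  induction k with
  | zero => norm_num
  | succ k ih => rw [pow_succ]; omega

/-- the number of the vertices close to `A`, one distance -/
theorem tail_one {D A H : Set V} (hAD : ∀ u ∈ A, u ∉ D) (h7 : ∀ u ∈ A, 7 ≤ (Comp D u).encard)
    (hDH : D ⊆ H) (w : List V → ℝ≥0∞) (Y : ℕ) (hY : 1 ≤ Y)
    (hw : ∀ l i W, Mv l i W → w l ≤ Y * w W) (p q : V) (k : ℕ)
    (hH : ∀ a ∈ A, ∀ w, cl (k + 14) a w → w ∈ H) (S : ℝ) (hS : 1 ≤ S) :
    tot w {l | l ∈ Tr D p q ∧ (KB Y : ℝ) ^ (k + 1) * S < (nB (Nr A k) l : ℝ)} ≤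
      ENNReal.ofReal (Real.exp (-S)) * (2⁻¹ ^ (k + 1) * tot w (Tr H p q)) := by
  set r : ℕ := ⌈((k : ℝ) + 2) * S⌉₊ with hr
  have hr1 : ((k : ℝ) + 2) * S ≤ r := Nat.le_ceil _
  have hr2 : (r : ℝ) < ((k : ℝ) + 2) * S + 1 := Nat.ceil_lt_add_one (by positivity)
  have hr0 : 1 ≤ r := by
    have : (0 : ℝ) < r := lt_of_lt_of_le (by positivity) hr1
    exact_mod_cast this
  have hsub : {l | l ∈ Tr D p q ∧ (KB Y : ℝ) ^ (k + 1) * S < (nB (Nr A k) l : ℝ)} ⊆
      {l | l ∈ Tr D p q ∧ EE Y 4 ^ k * r < nB (Nr A k) l} := by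
    rintro l ⟨h1, h2⟩
    refine ⟨h1, ?_⟩
    have h3 : ((EE Y 4 ^ k * r : ℕ) : ℝ) ≤ (KB Y : ℝ) ^ (k + 1) * S := by
      have e1 : (r : ℝ) ≤ ((k : ℝ) + 3) * S := by nlinarith
      have e2 : ((k : ℝ) + 3) ≤ 4 ^ (k + 1) := by exact_mod_cast three_add_le k
      have e3 : (1 : ℝ) ≤ (EE Y 4 : ℝ) := by
        have : 1 ≤ EE Y 4 := by unfold EE; omega
        exact_mod_cast this
      push_cast
      calc (EE Y 4 : ℝ) ^ k * r ≤ (EE Y 4 : ℝ) ^ k * (((k : ℝ) + 3) * S) :=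
            mul_le_mul_of_nonneg_left e1 (by positivity)
        _ ≤ (EE Y 4 : ℝ) ^ (k + 1) * (4 ^ (k + 1) * S) := by
            refine mul_le_mul ?_ ?_ (by positivity) (by positivity)
            · exact pow_le_pow_right₀ e3 (by omega)
            · exact mul_le_mul_of_nonneg_right e2 (by positivity)
        _ = _ := by
            unfold KB
            push_cast
            rw [mul_pow]
            ring
    have h4 := lt_of_le_of_lt h3 h2
    exact_mod_cast h4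
  have h1 := main hAD h7 hDH w Y 4 hY hw p q k hH r hr0
  have h4 : ((4 : ℕ) : ℝ≥0∞) ^ r ≠ 0 := by
    apply pow_ne_zero
    norm_num
  have h4' : ((4 : ℕ) : ℝ≥0∞) ^ r ≠ ⊤ := ENNReal.pow_ne_top (ENNReal.natCast_ne_top 4)
  have h2 : tot w {l | l ∈ Tr D p q ∧ EE Y 4 ^ k * r < nB (Nr A k) l} ≤
      (((4 : ℕ) : ℝ≥0∞) ^ r)⁻¹ * (k * tot w (Tr H p q)) := by
    rw [← ENNReal.mul_le_iff_le_inv h4 h4']
    exact h1
  refine ((tot_mono w hsub).trans h2).trans ?_
  rw [← mul_assoc, ← mul_assoc]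
  refine mul_le_mul_left ?_ _
  -- numbers
  have e5 : (((4 : ℕ) : ℝ≥0∞) ^ r)⁻¹ = ENNReal.ofReal ((4 ^ r)⁻¹) := by
    rw [ENNReal.ofReal_inv_of_pos (by positivity), ENNReal.ofReal_pow (by norm_num)]
    congr 2
    norm_num
  have e6 : (2⁻¹ : ℝ≥0∞) ^ (k + 1) = ENNReal.ofReal ((2⁻¹) ^ (k + 1)) := by
    rw [ENNReal.ofReal_pow (by norm_num), ENNReal.ofReal_inv_of_pos (by norm_num)]
    congr 2
    norm_num
  rw [e5, e6, ← ENNReal.ofReal_natCast k, ← ENNReal.ofReal_mul (by positivity),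
    ← ENNReal.ofReal_mul (by positivity)]
  refine ENNReal.ofReal_le_ofReal ?_
  have e7 : ((4 : ℝ) ^ r)⁻¹ ≤ Real.exp (-S) * (4⁻¹) ^ (k + 1) := by
    have hl4 : 1 ≤ Real.log 4 := by
      rw [Real.le_log_iff_exp_le (by norm_num)]
      have := Real.exp_one_lt_d9
      linarith
    have e8 : (4 : ℝ) ^ r = Real.exp (Real.log 4 * r) := by
      rw [mul_comm, Real.exp_nat_mul, Real.exp_log (by norm_num)]
    have e9 : (4 : ℝ)⁻¹ ^ (k + 1) = Real.exp (-(Real.log 4 * ((k : ℝ) + 1))) := by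
      have : Real.log 4 * ((k : ℝ) + 1) = ((k + 1 : ℕ) : ℝ) * Real.log 4 := by push_cast; ring
      rw [this, Real.exp_neg, Real.exp_nat_mul, Real.exp_log (by norm_num), inv_pow]
    rw [e8, e9, ← Real.exp_neg, ← Real.exp_add]
    apply Real.exp_le_exp.2
    have e10 : Real.log 4 * (((k : ℝ) + 2) * S) ≤ Real.log 4 * r :=
      mul_le_mul_of_nonneg_left hr1 (by linarith)
    have e11 : S + Real.log 4 * ((k : ℝ) + 1) ≤ Real.log 4 * (((k : ℝ) + 2) * S) := by
      have hk : (0 : ℝ) ≤ k := Nat.cast_nonneg k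
      have e12 : S ≤ Real.log 4 * S := by nlinarith
      have e13 : ((k : ℝ) + 1) ≤ ((k : ℝ) + 1) * S := by nlinarith
      have e14 := mul_le_mul_of_nonneg_left e13 (by linarith : 0 ≤ Real.log 4)
      nlinarith
    linarith
  have e15 : (k : ℝ) ≤ 2 ^ (k + 1) := by
    have h := Nat.lt_two_pow_self (n := k)
    have h2 : (k : ℝ) < 2 ^ k := by exact_mod_cast h
    rw [pow_succ]
    have : (0 : ℝ) < 2 ^ k := by positivity
    linarith
  calc ((4 : ℝ) ^ r)⁻¹ * k ≤ (Real.exp (-S) * (4⁻¹) ^ (k + 1)) * 2 ^ (k + 1) :=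
        mul_le_mul e7 e15 (Nat.cast_nonneg _) (by positivity)
    _ = Real.exp (-S) * (2⁻¹) ^ (k + 1) := by
        rw [mul_assoc, ← mul_pow]
        norm_num

theorem tot_iUnion {ι : Type*} (w : List V → ℝ≥0∞) (S : ι → Set (List V)) :
    tot w (⋃ k, S k) ≤ ∑' k, tot w (S k) := by
  unfold tot
  rw [ENNReal.tsum_comm]
  refine ENNReal.tsum_le_tsum (fun l => ?_)
  by_cases h : l ∈ ⋃ k, S k
  · obtain ⟨k, hk⟩ := Set.mem_iUnion.1 h
    rw [Set.indicator_of_mem h]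
    calc w l = (S k).indicator w l := (Set.indicator_of_mem hk _).symm
      _ ≤ _ := ENNReal.le_tsum k
  · rw [Set.indicator_of_notMem h]
    exact zero_le

/-- **The number of the vertices close to `A`**, all distances at once. -/
theorem tail_all {D A H : Set V} (hAD : ∀ u ∈ A, u ∉ D) (h7 : ∀ u ∈ A, 7 ≤ (Comp D u).encard)
    (hDH : D ⊆ H) (w : List V → ℝ≥0∞) (Y : ℕ) (hY : 1 ≤ Y)
    (hw : ∀ l i W, Mv l i W → w l ≤ Y * w W) (p q : V) (R : ℕ)
    (hH : ∀ a ∈ A, ∀ w, cl (R + 14) a w → w ∈ H) (S : ℝ) (hS : 1 ≤ S) :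
    tot w {l | l ∈ Tr D p q ∧ ∃ k ≤ R, (KB Y : ℝ) ^ (k + 1) * S < (nB (Nr A k) l : ℝ)} ≤
      ENNReal.ofReal (Real.exp (-S)) * tot w (Tr H p q) := by
  have hsub : {l | l ∈ Tr D p q ∧ ∃ k ≤ R, (KB Y : ℝ) ^ (k + 1) * S < (nB (Nr A k) l : ℝ)} ⊆
      ⋃ k, {l | k ≤ R ∧ l ∈ Tr D p q ∧ (KB Y : ℝ) ^ (k + 1) * S < (nB (Nr A k) l : ℝ)} := by
    rintro l ⟨h1, k, h2, h3⟩
    exact Set.mem_iUnion.2 ⟨k, h2, h1, h3⟩
  refine ((tot_mono w hsub).trans (tot_iUnion w _)).trans ?_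
  calc ∑' k, tot w {l | k ≤ R ∧ l ∈ Tr D p q ∧
        (KB Y : ℝ) ^ (k + 1) * S < (nB (Nr A k) l : ℝ)}
      ≤ ∑' k : ℕ, ENNReal.ofReal (Real.exp (-S)) * (2⁻¹ ^ (k + 1) * tot w (Tr H p q)) := by
        refine ENNReal.tsum_le_tsum (fun k => ?_)
        by_cases hk : k ≤ R
        · refine (tot_mono w (fun l hl => hl.2)).trans ?_
          refine tail_one hAD h7 hDH w Y hY hw p q k (fun a ha u hu => ?_) S hS
          exact hH a ha u (hu.mono (by omega))
        · have h0 : {l | k ≤ R ∧ l ∈ Tr D p q ∧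
              (KB Y : ℝ) ^ (k + 1) * S < (nB (Nr A k) l : ℝ)} = ∅ := by
            ext l
            simp [hk]
          rw [h0]
          unfold tot
          simp
    _ = ENNReal.ofReal (Real.exp (-S)) * ((∑' k : ℕ, 2⁻¹ ^ (k + 1)) * tot w (Tr H p q)) := by
        rw [ENNReal.tsum_mul_left, ENNReal.tsum_mul_right]
    _ = _ := by
        rw [ENNReal.tsum_geometric_add_one, ENNReal.one_sub_inv_two, inv_inv,
          ENNReal.inv_mul_cancel (by norm_num) (by norm_num), one_mul]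

end Pool.Agent.U372.HX
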