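import Pool.Agent.U372.HX.Split

/-! # Few walks come close to an avoided set many times: general families of walks -/

set_option autoImplicit false

namespace Pool.Agent.U372.HX

open scoped ENNReal Classical

theorem mainG {D A H : Set V} (hAD : ∀ u ∈ A, u ∉ D) (h7 : ∀ u ∈ A, 7 ≤ (Comp D u).encard)
    (w : List V → ℝ≥0∞) (Y Λ : ℕ) (hY : 1 ≤ Y)
    (hw : ∀ l i W, Mv l i W → w l ≤ Y * w W) (G : ℕ → Set (List V))
    (hG : ∀ j, ∀ l ∈ G j, ∀ i W, Mv l i W → (∀ v ∈ i.2, v ∈ H) → W ∈ G (j + 1))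
    (hn : ∀ j, ∀ l ∈ G j, l.Nodup) (T : Set (List V)) (hT : T ⊆ G 0)
    (hTc : ∀ l ∈ T, l.IsChain Nbr) (hTD : ∀ l ∈ T, ∀ v ∈ l, v ∈ D) (k : ℕ)
    (hH : ∀ a ∈ A, ∀ w, cl (k + 14) a w → w ∈ H) (r : ℕ) (hr : 1 ≤ r) :
    (Λ : ℝ≥0∞) ^ r * tot w {l | l ∈ T ∧ EE Y Λ ^ k * r < nB (Nr A k) l} ≤
      k * tot w (G r) := by
  induction k with
  | zero =>
    have h0 : {l | l ∈ T ∧ EE Y Λ ^ 0 * r < nB (Nr A 0) l} = ∅ := by
      ext l
      simp only [Set.mem_ofPred_eq, Set.mem_empty_iff_false, iff_false, not_and, not_lt]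
      intro hl
      have h1 : nB (Nr A 0) l = 0 := by
        unfold nB
        rw [Finset.card_eq_zero, Finset.filter_eq_empty_iff]
        intro v hv
        rw [List.mem_toFinset] at hv
        exact fun h => hAD v h (hTD l hl v hv)
      omega
    rw [h0]
    unfold tot
    simp
  | succ k ih =>
    have hH' : ∀ a ∈ A, ∀ w, cl (k + 14) a w → w ∈ H := by
      intro a ha w hw'
      exact hH a ha w (hw'.mono (by push_cast; omega))
    have ih' := ih hH'
    have hsub : {l | l ∈ T ∧ EE Y Λ ^ (k + 1) * r < nB (Nr A (k + 1)) l} ⊆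
        {l | l ∈ T ∧ EE Y Λ ^ k * r < nB (Nr A k) l} ∪
        {l | l ∈ G 0 ∧ nB (BB D A k) l ≤ EE Y Λ ^ k * r ∧
          12 * C0 * r + Λ * (Y * (C0 * (EE Y Λ ^ k * r + 6 * r))) ≤
            (QQ H (BB D A k) l).card} := by
      rintro l ⟨hl, h1⟩
      by_cases h2 : EE Y Λ ^ k * r < nB (Nr A k) l
      · exact Or.inl ⟨hl, h2⟩
      · right
        push Not at h2
        refine ⟨hT hl, ?_, ?_⟩
        · rw [nB_BB (hTD l hl)]
          exact h2
        · have h3 := level hAD h7 k hH' (hn 0 l (hT hl)) (hTc l hl) (hTD l hl)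
          set X := EE Y Λ ^ k with hX
          have hX1 : 1 ≤ X := Nat.one_le_pow _ _ (by unfold EE; omega)
          have e1 : EE Y Λ ^ (k + 1) * r = 729 * ((12 * C0 + 7 * (Λ * (Y * C0))) * (X * r)) +
              1852 * (X * r) := by
            rw [pow_succ, ← hX]
            unfold EE
            ring
          have e2 : 12 * C0 * r + Λ * (Y * (C0 * (X * r + 6 * r))) ≤
              (12 * C0 + 7 * (Λ * (Y * C0))) * (X * r) := by
            have e3 : r ≤ X * r := Nat.le_mul_of_pos_left _ hX1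
            calc 12 * C0 * r + Λ * (Y * (C0 * (X * r + 6 * r)))
                ≤ 12 * C0 * (X * r) + Λ * (Y * (C0 * (X * r + 6 * (X * r)))) := by
                  refine Nat.add_le_add (Nat.mul_le_mul_left _ e3) ?_
                  refine Nat.mul_le_mul_left _ (Nat.mul_le_mul_left _ (Nat.mul_le_mul_left _ ?_))
                  omega
              _ = _ := by ring
          have e4 : 1 ≤ X * r := Nat.mul_pos hX1 hr
          rw [e1] at h1
          omega
    have h1 := many w Y Λ hY G H (BB D A k) hw hG hn r (EE Y Λ ^ k * r) _ le_rfl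
    calc (Λ : ℝ≥0∞) ^ r *
          tot w {l | l ∈ T ∧ EE Y Λ ^ (k + 1) * r < nB (Nr A (k + 1)) l}
        ≤ (Λ : ℝ≥0∞) ^ r * (tot w {l | l ∈ T ∧ EE Y Λ ^ k * r < nB (Nr A k) l} +
          tot w {l | l ∈ G 0 ∧ nB (BB D A k) l ≤ EE Y Λ ^ k * r ∧
          12 * C0 * r + Λ * (Y * (C0 * (EE Y Λ ^ k * r + 6 * r))) ≤
            (QQ H (BB D A k) l).card}) :=
          mul_le_mul_right ((tot_mono w hsub).trans (tot_union w _ _)) _
      _ = (Λ : ℝ≥0∞) ^ r * tot w {l | l ∈ T ∧ EE Y Λ ^ k * r < nB (Nr A k) l} +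
          (Λ : ℝ≥0∞) ^ r * tot w {l | l ∈ G 0 ∧ nB (BB D A k) l ≤ EE Y Λ ^ k * r ∧
          12 * C0 * r + Λ * (Y * (C0 * (EE Y Λ ^ k * r + 6 * r))) ≤
            (QQ H (BB D A k) l).card} := mul_add _ _ _
      _ ≤ k * tot w (G r) + 1 * tot w (G r) := by
          rw [one_mul]
          exact add_le_add ih' h1
      _ = _ := by push_cast; ring

/-- counting -/
theorem tot_one (S : Set (List V)) (hS : S.Finite) : tot (fun _ => 1) S = (S.ncard : ℝ≥0∞) := by
  unfold tot
  rw [tsum_eq_sum (s := hS.toFinset) (fun l hl => Set.indicator_of_notMem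
    (fun h => hl (hS.mem_toFinset.2 h)) _)]
  rw [Finset.sum_congr rfl (fun l hl => Set.indicator_of_mem (hS.mem_toFinset.1 hl) _),
    Finset.sum_const, nsmul_eq_mul, mul_one, Set.ncard_eq_toFinset_card S hS]

/-- self-avoiding walks from `o` with `n` steps -/
def WW (n : ℕ) (o : V) : Set (List V) :=
  {l | l.head? = some o ∧ l.length = n + 1 ∧ l.Nodup ∧ l.IsChain Nbr}

end Pool.Agent.U372.HX
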