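import Pool.Agent.U372.HX.Main

/-! # The past and the future of a walk -/

set_option autoImplicit false

namespace Pool.Agent.U372.HX

open scoped ENNReal Classical

theorem path_comp {D : Set V} {s : List V} (hc : s.IsChain Nbr) (hs : ∀ u ∈ s, u ∉ D) :
    ∀ u ∈ s, ∀ w ∈ s, w ∈ Comp D u := by
  induction s with
  | nil => simp
  | cons a s ih =>
    rcases s with _ | ⟨b, s⟩
    · intro u hu w hw
      rw [List.mem_singleton] at hu hw
      subst hu hw
      exact Relation.ReflTransGen.refl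
    · rw [List.isChain_cons_cons] at hc
      have ih' := ih hc.2 (fun u hu => hs u (List.mem_cons_of_mem _ hu))
      intro u hu w hw
      rw [List.mem_cons] at hu hw
      rcases hu with rfl | hu <;> rcases hw with rfl | hw
      · exact Relation.ReflTransGen.refl
      · exact Relation.ReflTransGen.head ⟨hc.1, hs b (by simp)⟩ (ih' b (by simp) w hw)
      · exact Relation.ReflTransGen.tail (ih' u hu b (by simp)) ⟨hc.1.symm, hs w (by simp)⟩
      · exact ih' u hu w hw

theorem comp_ge {D : Set V} {s : List V} (hc : s.IsChain Nbr) (hn : s.Nodup)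
    (hs : ∀ u ∈ s, u ∉ D) (h7 : 7 ≤ s.length) : ∀ u ∈ s, 7 ≤ (Comp D u).encard := by
  intro u hu
  have h1 : ((s.toFinset : Set V)).encard ≤ (Comp D u).encard :=
    Set.encard_le_encard (fun w hw => path_comp hc hs u hu w (by simpa using hw))
  rw [Set.encard_coe_eq_coe_finsetCard, List.toFinset_card_of_nodup hn] at h1
  refine le_trans ?_ h1
  exact_mod_cast h7

theorem few {s : List V} (hs : s.length ≤ 6) (k : ℕ) (l : List V) :
    nB (Nr {u | u ∈ s} k) l ≤ 6 * (2 * k + 1) ^ 2 := by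
  unfold nB
  have hsub : l.toFinset.filter (fun v => v ∈ Nr {u | u ∈ s} k) ⊆ s.toFinset.biUnion (bx k) := by
    intro v hv
    rw [Finset.mem_filter] at hv
    obtain ⟨a, ha, h⟩ := Nr_cl hv.2
    rw [Finset.mem_biUnion]
    exact ⟨a, List.mem_toFinset.2 ha, mem_bx.2 h.symm⟩
  refine (Finset.card_le_card hsub).trans ?_
  refine (Finset.card_biUnion_le_card_mul _ _ ((2 * k + 1) ^ 2) (fun v _ => ?_)).trans ?_
  · rw [bx_card]
    have : (2 * (k : ℤ) + 1).toNat = 2 * k + 1 := by omega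
    rw [this]
  · exact Nat.mul_le_mul_right _ ((List.toFinset_card_le s).trans hs)

theorem KB_ge (Y : ℕ) : 7000 ≤ KB Y := by unfold KB EE; omega

theorem small_le (Y k : ℕ) {S : ℝ} (hS : 1 ≤ S) :
    ((6 * (2 * k + 1) ^ 2 : ℕ) : ℝ) ≤ (KB Y : ℝ) ^ (k + 1) * S := by
  have h1 : 2 * k + 1 ≤ 3 ^ k := by
    induction k with
    | zero => norm_num
    | succ k ih => rw [pow_succ]; omega
  have h2 : 6 * (2 * k + 1) ^ 2 ≤ KB Y ^ (k + 1) := by
    calc 6 * (2 * k + 1) ^ 2 ≤ 6 * (3 ^ k) ^ 2 := by gcongr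
      _ = 6 * 9 ^ k := by rw [← pow_mul, mul_comm k 2, pow_mul]; norm_num
      _ ≤ 7000 * 7000 ^ k := by gcongr <;> norm_num
      _ = 7000 ^ (k + 1) := by ring
      _ ≤ _ := Nat.pow_le_pow_left (KB_ge Y) _
  have h3 : ((6 * (2 * k + 1) ^ 2 : ℕ) : ℝ) ≤ (KB Y : ℝ) ^ (k + 1) := by exact_mod_cast h2
  have h4 : (0 : ℝ) ≤ (KB Y : ℝ) ^ (k + 1) := by positivity
  nlinarith

/-- the part of the trajectory up to `v` -/
theorem Tr_left {D : Set V} {p q v : V} {s t : List V} (h : s ++ v :: t ∈ Tr D p q) :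
    s ++ [v] ∈ Tr D p v := by
  obtain ⟨h1, h2, h3, h4, h5⟩ := h
  have e : s ++ v :: t = (s ++ [v]) ++ t := by simp
  rw [e] at h1 h3 h4 h5
  refine ⟨?_, by simp, ?_, ?_, fun u hu => h5 u (by rw [List.mem_append]; exact Or.inl hu)⟩
  · rcases s with _ | ⟨x, s⟩
    · simpa using h1
    · simpa using h1
  · exact (List.nodup_append.1 h3).1
  · exact (List.isChain_append.1 h4).1

/-- the part of the trajectory after `v` -/
theorem Tr_right {D : Set V} {p q v : V} {s t : List V} (h : s ++ v :: t ∈ Tr D p q) :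
    v :: t ∈ Tr {u | u ∈ D ∧ u ∉ s} v q := by
  obtain ⟨h1, h2, h3, h4, h5⟩ := h
  have h6 := List.nodup_append.1 h3
  refine ⟨rfl, ?_, h6.2.1, (List.isChain_append.1 h4).2.1, fun u hu => ⟨h5 u ?_, ?_⟩⟩
  · rw [List.getLast?_append_of_ne_nil _ (by simp)] at h2
    exact h2
  · rw [List.mem_append]; exact Or.inr hu
  · exact fun hs => h6.2.2 u hs u hu rfl

/-- trajectories with a prescribed beginning -/
theorem tot_prefix (w : List V → ℝ≥0∞) (hmul : ∀ s v t, w (s ++ v :: t) = w (s ++ [v]) * w (v :: t))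
    (s : List V) (v : V) (S : Set (List V)) (hS : ∀ m ∈ S, ∃ t, m = v :: t) :
    tot w {l | ∃ m ∈ S, l = s ++ m} = w (s ++ [v]) * tot w S := by
  unfold tot
  rw [← ENNReal.tsum_mul_left]
  have hinj : Function.Injective (fun m : List V => s ++ m) := fun a b h => List.append_cancel_left h
  rw [← hinj.tsum_eq (f := fun l => Set.indicator {l | ∃ m ∈ S, l = s ++ m} w l)]
  · refine tsum_congr (fun m => ?_)
    by_cases hm : m ∈ S
    · have hm2 : s ++ m ∈ {l | ∃ m ∈ S, l = s ++ m} := ⟨m, hm, rfl⟩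
      rw [Set.indicator_of_mem hm, Set.indicator_of_mem hm2]
      obtain ⟨t, rfl⟩ := hS m hm
      exact hmul s v t
    · have hm2 : s ++ m ∉ {l | ∃ m ∈ S, l = s ++ m} := by
        rintro ⟨m', hm', h⟩
        rw [List.append_cancel_left h] at hm
        exact hm hm'
      rw [Set.indicator_of_notMem hm, Set.indicator_of_notMem hm2, mul_zero]
  · intro l hl
    rw [Function.mem_support] at hl
    by_contra hno
    apply hl
    rw [Set.indicator_of_notMem]
    rintro ⟨m, -, rfl⟩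
    exact hno ⟨m, rfl⟩

/-- **Contacts of the past and the future.** -/
theorem contact {D H : Set V} (hDH : D ⊆ H) (w : List V → ℝ≥0∞) (Y : ℕ) (hY : 1 ≤ Y)
    (hw : ∀ l i W, Mv l i W → w l ≤ Y * w W)
    (hmul : ∀ s v t, w (s ++ v :: t) = w (s ++ [v]) * w (v :: t)) (p q : V) (R : ℕ)
    (hH : ∀ a ∈ D, ∀ w, cl (R + 14) a w → w ∈ H) (S : ℝ) (hS : 1 ≤ S) :
    tot w {l | l ∈ Tr D p q ∧ ∃ s v t, l = s ++ v :: t ∧ ∃ k ≤ R,
        (KB Y : ℝ) ^ (k + 1) * S < (nB (Nr {u | u ∈ s} k) (v :: t) : ℝ)} ≤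
      ENNReal.ofReal (Real.exp (-S)) *
        ∑' v, D.indicator (fun v => tot w (Tr D p v) * tot w (Tr H v q)) v := by
  set F : List V → V → Set (List V) := fun s v =>
    {m | m ∈ Tr {u | u ∈ D ∧ u ∉ s} v q ∧
      ∃ k ≤ R, (KB Y : ℝ) ^ (k + 1) * S < (nB (Nr {u | u ∈ s} k) m : ℝ)} with hF
  have hFt : ∀ s v, ∀ m ∈ F s v, ∃ t, m = v :: t := by
    rintro s v m ⟨⟨h1, -⟩, -⟩
    rcases m with _ | ⟨x, t⟩
    · simp at h1
    · simp only [List.head?_cons, Option.some.injEq] at h1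
      exact ⟨t, by rw [h1]⟩
  have hsub : {l | l ∈ Tr D p q ∧ ∃ s v t, l = s ++ v :: t ∧ ∃ k ≤ R,
        (KB Y : ℝ) ^ (k + 1) * S < (nB (Nr {u | u ∈ s} k) (v :: t) : ℝ)} ⊆
      ⋃ z : V × List V, {l | (z.1 ∈ D ∧ z.2 ++ [z.1] ∈ Tr D p z.1) ∧
        l ∈ {l | ∃ m ∈ F z.2 z.1, l = z.2 ++ m}} := by
    rintro l ⟨h1, s, v, t, rfl, h2⟩
    refine Set.mem_iUnion.2 ⟨(v, s), ⟨h1.2.2.2.2 v (by simp), Tr_left h1⟩, v :: t,
      ⟨Tr_right h1, h2⟩, rfl⟩
  refine ((tot_mono w hsub).trans (tot_iUnion w _)).trans ?_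
  rw [ENNReal.tsum_prod', ← ENNReal.tsum_mul_left]
  refine ENNReal.tsum_le_tsum (fun v => ?_)
  by_cases hv : v ∈ D
  swap
  · rw [ENNReal.tsum_eq_zero.2]
    · exact zero_le
    · intro s
      have h0 : {l | (v ∈ D ∧ s ++ [v] ∈ Tr D p v) ∧ l ∈ {l | ∃ m ∈ F s v, l = s ++ m}} = ∅ := by
        ext l
        simp [hv]
      show tot w {l | (v ∈ D ∧ s ++ [v] ∈ Tr D p v) ∧ l ∈ {l | ∃ m ∈ F s v, l = s ++ m}} = 0
      rw [h0]
      unfold tot
      simp
  rw [Set.indicator_of_mem hv]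
  -- the bound for one past
  have hone : ∀ s, tot w {l | (v ∈ D ∧ s ++ [v] ∈ Tr D p v) ∧
      l ∈ {l | ∃ m ∈ F s v, l = s ++ m}} ≤
      (Tr D p v).indicator w (s ++ [v]) *
        (ENNReal.ofReal (Real.exp (-S)) * tot w (Tr H v q)) := by
    intro s
    by_cases hs : s ++ [v] ∈ Tr D p v
    · rw [Set.indicator_of_mem hs]
      refine (tot_mono w (fun l hl => hl.2)).trans ?_
      rw [tot_prefix w hmul s v _ (hFt s v)]
      refine mul_le_mul_right ?_ _
      obtain ⟨g1, g2, g3, g4, g5⟩ := hs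
      by_cases h7 : 7 ≤ s.length
      · refine tail_all (D := {u | u ∈ D ∧ u ∉ s}) (A := {u | u ∈ s}) (H := H) ?_ ?_ ?_ w Y hY
          hw v q R ?_ S hS
        · exact fun u hu hu' => hu'.2 hu
        · exact comp_ge (List.isChain_append.1 g4).1 (List.nodup_append.1 g3).1
            (fun u hu hu' => hu'.2 hu) h7
        · exact fun u hu => hDH hu.1
        · exact fun a ha u hu => hH a (g5 a (by rw [List.mem_append]; exact Or.inl ha)) u hu
      · have h0 : F s v = ∅ := by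
          ext m
          simp only [hF, Set.mem_ofPred_eq, Set.mem_empty_iff_false, iff_false, not_and,
            not_exists, not_lt]
          intro _ k _
          refine le_trans ?_ (small_le Y k hS)
          exact_mod_cast few (by omega) k m
        rw [h0]
        unfold tot
        simp
    · have h0 : {l | (v ∈ D ∧ s ++ [v] ∈ Tr D p v) ∧
          l ∈ {l | ∃ m ∈ F s v, l = s ++ m}} = ∅ := by
        ext l
        simp [hs]
      rw [h0]
      unfold tot
      simp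
  refine (ENNReal.tsum_le_tsum hone).trans ?_
  rw [ENNReal.tsum_mul_right]
  have hinj : Function.Injective (fun s : List V => s ++ [v]) := fun a b h =>
    List.append_cancel_right h
  have h1 : ∑' s : List V, (Tr D p v).indicator w (s ++ [v]) ≤ tot w (Tr D p v) :=
    ENNReal.tsum_comp_le_tsum_of_injective hinj _
  calc (∑' s : List V, (Tr D p v).indicator w (s ++ [v])) *
        (ENNReal.ofReal (Real.exp (-S)) * tot w (Tr H v q))
      ≤ tot w (Tr D p v) * (ENNReal.ofReal (Real.exp (-S)) * tot w (Tr H v q)) :=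
        mul_le_mul_left h1 _
    _ = _ := by ring

end Pool.Agent.U372.HX
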