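import Pool.Agent.U372.HX.MainG
import Pool.Agent.H978R2.Hex.Rn

/-! # Near contacts of the `n`-step walk on the honeycomb lattice -/

set_option autoImplicit false

namespace Pool.Agent.U372.HX

open scoped ENNReal Classical
open H978R2.Hex (saws sy sy_self sy_inj sy_adj)

theorem adj_iff (p q : V) : Nbr p q ↔ H978R2.Hex.Adj p q := by
  obtain ⟨a, b⟩ := p
  obtain ⟨x, y⟩ := q
  unfold Nbr H978R2.Hex.Adj
  simp only [Prod.mk_sub_mk, Prod.mk.injEq]
  constructor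
  · rintro (⟨h1, h2 | h2⟩ | ⟨h1, ⟨h2, h3⟩ | ⟨h2, h3⟩⟩)
    · right; left; omega
    · left; omega
    · right; right; left; exact ⟨by omega, h3⟩
    · right; right; right; exact ⟨by omega, h3⟩
  · rintro (h | h | ⟨h, h'⟩ | ⟨h, h'⟩)
    · left; omega
    · left; omega
    · right; exact ⟨by omega, Or.inl ⟨by omega, h'⟩⟩
    · right; exact ⟨by omega, Or.inr ⟨by omega, h'⟩⟩

/-- the number of the `n`-step walks -/
noncomputable def cN (n : ℕ) : ℕ := (saws n).ncard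

theorem getD_eq {l : List V} {i : ℕ} (h : i < l.length) : l.getD i 0 = l[i] := by
  rw [List.getD_eq_getElem?_getD, List.getElem?_eq_getElem h, Option.getD_some]

/-- from lists to functions -/
noncomputable def fn (n : ℕ) (o : V) (l : List V) : Fin (n + 1) → V :=
  fun i => sy (if (o.1 + o.2) % 2 = 0 then 0 else 1) o (l.getD i.1 0)

theorem fn_maps (n : ℕ) (o : V) : Set.MapsTo (fn n o) (WW n o) (saws n) := by
  rintro l ⟨h1, h2, h3, h4⟩
  refine ⟨?_, ?_, ?_⟩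
  · unfold fn
    have h0 : l.getD ((0 : Fin (n + 1)) : ℕ) 0 = o := by
      rw [getD_eq (by simp [h2])]
      rw [List.head?_eq_getElem?] at h1
      simp only [Fin.val_zero]
      rw [List.getElem?_eq_getElem (by omega), Option.some.injEq] at h1
      exact h1
    rw [h0]
    exact sy_self _ _
  · intro i j hij
    have h5 := sy_inj hij
    have hi := i.2
    have hj := j.2
    rw [getD_eq (by omega), getD_eq (by omega)] at h5
    exact Fin.ext ((h3.getElem_inj_iff).1 h5)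
  · intro i
    have hi := i.2
    unfold fn
    refine sy_adj ?_ ?_
    · split_ifs with h
      · simpa using h
      · have := Int.emod_two_eq_zero_or_one (o.1 + o.2)
        push_cast
        omega
    · rw [← adj_iff]
      have h5 := List.isChain_iff_getElem.1 h4 i.1 (by omega)
      simp only [Fin.val_castSucc, Fin.val_succ]
      rw [getD_eq (by omega), getD_eq (by omega)]
      exact h5

theorem fn_inj (n : ℕ) (o : V) : Set.InjOn (fn n o) (WW n o) := by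
  rintro l ⟨h1, h2, h3, h4⟩ l' ⟨h1', h2', h3', h4'⟩ h
  refine List.ext_getElem (by omega) (fun i hi hi' => ?_)
  have h5 := sy_inj (congrFun h ⟨i, by omega⟩)
  simp only at h5
  rwa [getD_eq hi, getD_eq hi'] at h5

theorem WW_finite (n : ℕ) (o : V) : (WW n o).Finite :=
  Set.Finite.of_injOn (fn_maps n o) (fn_inj n o) (H978R2.Hex.saws_finite n)

theorem WW_card (n : ℕ) (o : V) : (WW n o).ncard ≤ cN n :=
  Set.ncard_le_ncard_of_injOn _ (fn_maps n o) (fn_inj n o) (H978R2.Hex.saws_finite n)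

theorem cN_one : cN 1 ≤ 3 := by
  unfold cN
  have h : (saws 1).ncard ≤ ((({((1 : ℤ), (0 : ℤ)), (-1, 0), (0, 1)} : Finset V)) : Set V).ncard := by
    refine Set.ncard_le_ncard_of_injOn (fun f => f 1) ?_ ?_ (Finset.finite_toSet _)
    · intro f hf
      have h1 := hf.2.2 0
      have h2 : f (Fin.castSucc (0 : Fin 1)) = 0 := hf.1
      rw [h2] at h1
      have h3 : f (Fin.succ (0 : Fin 1)) = f 1 := rfl
      rw [h3] at h1
      unfold H978R2.Hex.Adj at h1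
      simp only [sub_zero, Prod.fst_zero, Prod.snd_zero, add_zero] at h1
      simp only [Finset.coe_insert, Finset.coe_singleton, Set.mem_insert_iff,
        Set.mem_singleton_iff]
      rcases h1 with h | h | h | h
      · exact Or.inl h
      · exact Or.inr (Or.inl h)
      · exact Or.inr (Or.inr h.1)
      · exfalso
        rw [h.1] at h
        revert h
        decide
    · intro f hf g hg hfg
      funext i
      fin_cases i
      · exact hf.1.trans hg.1.symm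
      · exact hfg
  refine h.trans ?_
  rw [Set.ncard_coe_finset]
  exact Finset.card_le_three

theorem cN_zero : cN 0 ≤ 1 := by
  unfold cN
  rw [Set.ncard_le_one (H978R2.Hex.saws_finite 0)]
  intro f hf g hg
  funext i
  fin_cases i
  exact hf.1.trans hg.1.symm

theorem cN_pow (i : ℕ) : cN i ≤ 3 ^ i := by
  induction i with
  | zero => simpa using cN_zero
  | succ i ih =>
    calc cN (i + 1) ≤ cN i * cN 1 := H978R2.Hex.submul i 1
      _ ≤ 3 ^ i * 3 := Nat.mul_le_mul ih cN_one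
      _ = _ := by rw [pow_succ]

theorem cN_add (n i : ℕ) : cN (n + i) ≤ cN n * 3 ^ i :=
  (H978R2.Hex.submul n i).trans (Nat.mul_le_mul_left _ (cN_pow i))

/-- walks with `n` to `n + 4 j` steps -/
def GW (n : ℕ) (o : V) (j : ℕ) : Set (List V) :=
  {l | l.head? = some o ∧ n + 1 ≤ l.length ∧ l.length ≤ n + 1 + 4 * j ∧ l.Nodup ∧
    l.IsChain Nbr}

theorem GW_tot (n : ℕ) (o : V) (r : ℕ) :
    tot (fun _ => 1) (GW n o r) ≤ (405 : ℕ) ^ r * (cN n : ℝ≥0∞) := by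
  have hsub : GW n o r ⊆ ⋃ i : ℕ, {l | i ≤ 4 * r ∧ l ∈ WW (n + i) o} := by
    rintro l ⟨h1, h2, h3, h4, h5⟩
    refine Set.mem_iUnion.2 ⟨l.length - (n + 1), by omega, h1, by omega, h4, h5⟩
  refine ((tot_mono _ hsub).trans (tot_iUnion _ _)).trans ?_
  have h1 : ∀ i, i ∉ Finset.range (4 * r + 1) →
      tot (fun _ => 1) {l | i ≤ 4 * r ∧ l ∈ WW (n + i) o} = 0 := by
    intro i hi
    rw [Finset.mem_range] at hi
    have h0 : {l | i ≤ 4 * r ∧ l ∈ WW (n + i) o} = ∅ := by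
      ext l
      simp only [Set.mem_ofPred_eq, Set.mem_empty_iff_false, iff_false, not_and]
      intro h
      omega
    rw [h0]
    unfold tot
    simp
  rw [tsum_eq_sum h1]
  have h2 : ∀ i ∈ Finset.range (4 * r + 1),
      tot (fun _ => 1) {l | i ≤ 4 * r ∧ l ∈ WW (n + i) o} ≤ ((cN n * 3 ^ (4 * r) : ℕ) : ℝ≥0∞) := by
    intro i hi
    rw [Finset.mem_range] at hi
    refine (tot_mono _ (fun l hl => hl.2)).trans ?_
    rw [tot_one _ (WW_finite _ _)]
    have h3 : (WW (n + i) o).ncard ≤ cN n * 3 ^ (4 * r) :=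
      ((WW_card _ _).trans (cN_add n i)).trans
        (Nat.mul_le_mul_left _ (Nat.pow_le_pow_right (by norm_num) (by omega)))
    exact_mod_cast h3
  refine (Finset.sum_le_sum h2).trans ?_
  rw [Finset.sum_const, Finset.card_range, nsmul_eq_mul]
  have h4 : (4 * r + 1) * (cN n * 3 ^ (4 * r)) ≤ 405 ^ r * cN n := by
    have h5 : 4 * r + 1 ≤ 5 ^ r := by
      clear hsub h1 h2
      induction r with
      | zero => norm_num
      | succ r ih => rw [pow_succ]; omega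
    calc (4 * r + 1) * (cN n * 3 ^ (4 * r)) ≤ 5 ^ r * (cN n * 3 ^ (4 * r)) :=
          Nat.mul_le_mul_right _ h5
      _ = (5 ^ r * 81 ^ r) * cN n := by rw [pow_mul]; norm_num; ring
      _ = _ := by rw [← mul_pow]; norm_num
  exact_mod_cast h4

/-- The base for `n`-step walks. -/
def KW : ℕ := 4 * EE 1 1620

theorem num (k : ℕ) {S : ℝ} (hS : 1 ≤ S) :
    ((4 : ℝ) ^ ⌈((k : ℝ) + 2) * S⌉₊)⁻¹ * k ≤ Real.exp (-S) * (2⁻¹) ^ (k + 1) := by
  set r : ℕ := ⌈((k : ℝ) + 2) * S⌉₊ with hr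
  have hr1 : ((k : ℝ) + 2) * S ≤ r := Nat.le_ceil _
  have e7 : ((4 : ℝ) ^ r)⁻¹ ≤ Real.exp (-S) * (4⁻¹) ^ (k + 1) := by
    have hl4 : 1 ≤ Real.log 4 := by
      rw [Real.le_log_iff_exp_le (by norm_num)]
      have := Real.exp_one_lt_d9
      linarith
    have e8 : (4 : ℝ) ^ r = Real.exp (Real.log 4 * r) := by
      rw [mul_comm, Real.exp_nat_mul, Real.exp_log (by norm_num)]
    have e9 : (4 : ℝ)⁻¹ ^ (k + 1) = Real.exp (-(Real.log 4 * ((k : ℝ) + 1))) := by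
      have : Real.log 4 * ((k : ℝ) + 1) = ((k + 1 : ℕ) : ℝ) * Real.log 4 := by push_cast; ring
      rw [this, Real.exp_neg, Real.exp_nat_mul, Real.exp_log (by norm_num), inv_pow]
    rw [e8, e9, ← Real.exp_neg, ← Real.exp_add]
    apply Real.exp_le_exp.2
    have e10 : Real.log 4 * (((k : ℝ) + 2) * S) ≤ Real.log 4 * r :=
      mul_le_mul_of_nonneg_left hr1 (by linarith)
    have e11 : S + Real.log 4 * ((k : ℝ) + 1) ≤ Real.log 4 * (((k : ℝ) + 2) * S) := by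
      have hk : (0 : ℝ) ≤ k := Nat.cast_nonneg k
      have e12 : S ≤ Real.log 4 * S := by nlinarith
      have e13 : ((k : ℝ) + 1) ≤ ((k : ℝ) + 1) * S := by nlinarith
      have e14 := mul_le_mul_of_nonneg_left e13 (by linarith : 0 ≤ Real.log 4)
      nlinarith
    linarith
  have e15 : (k : ℝ) ≤ 2 ^ (k + 1) := by
    have h := Nat.lt_two_pow_self (n := k)
    have h2 : (k : ℝ) < 2 ^ k := by exact_mod_cast h
    rw [pow_succ]
    have : (0 : ℝ) < 2 ^ k := by positivity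
    linarith
  calc ((4 : ℝ) ^ r)⁻¹ * k ≤ (Real.exp (-S) * (4⁻¹) ^ (k + 1)) * 2 ^ (k + 1) :=
        mul_le_mul e7 e15 (Nat.cast_nonneg _) (by positivity)
    _ = Real.exp (-S) * (2⁻¹) ^ (k + 1) := by
        rw [mul_assoc, ← mul_pow]
        norm_num

theorem KW_ge : 7000 ≤ KW := by unfold KW EE; omega

/-- one distance, `n`-step walks -/
theorem tailW_one {D A : Set V} (hAD : ∀ u ∈ A, u ∉ D) (h7 : ∀ u ∈ A, 7 ≤ (Comp D u).encard)
    (n : ℕ) (o : V) (k : ℕ) (S : ℝ) (hS : 1 ≤ S) :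
    tot (fun _ => 1) {l | l ∈ WW n o ∧ (∀ v ∈ l, v ∈ D) ∧
        (KW : ℝ) ^ (k + 1) * S < (nB (Nr A k) l : ℝ)} ≤
      ENNReal.ofReal (Real.exp (-S)) * (2⁻¹ ^ (k + 1) * (cN n : ℝ≥0∞)) := by
  set r : ℕ := ⌈((k : ℝ) + 2) * S⌉₊ with hr
  have hr1 : ((k : ℝ) + 2) * S ≤ r := Nat.le_ceil _
  have hr2 : (r : ℝ) < ((k : ℝ) + 2) * S + 1 := Nat.ceil_lt_add_one (by positivity)
  have hr0 : 1 ≤ r := by
    have : (0 : ℝ) < r := lt_of_lt_of_le (by positivity) hr1
    exact_mod_cast this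
  have hsub : {l | l ∈ WW n o ∧ (∀ v ∈ l, v ∈ D) ∧
        (KW : ℝ) ^ (k + 1) * S < (nB (Nr A k) l : ℝ)} ⊆
      {l | l ∈ {l | l ∈ WW n o ∧ ∀ v ∈ l, v ∈ D} ∧ EE 1 1620 ^ k * r < nB (Nr A k) l} := by
    rintro l ⟨h1, h1', h2⟩
    refine ⟨⟨h1, h1'⟩, ?_⟩
    have h3 : ((EE 1 1620 ^ k * r : ℕ) : ℝ) ≤ (KW : ℝ) ^ (k + 1) * S := by
      have e1 : (r : ℝ) ≤ ((k : ℝ) + 3) * S := by nlinarith
      have e2 : ((k : ℝ) + 3) ≤ 4 ^ (k + 1) := by exact_mod_cast three_add_le k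
      have e3 : (1 : ℝ) ≤ (EE 1 1620 : ℝ) := by
        have : 1 ≤ EE 1 1620 := by unfold EE; omega
        exact_mod_cast this
      push_cast
      calc (EE 1 1620 : ℝ) ^ k * r ≤ (EE 1 1620 : ℝ) ^ k * (((k : ℝ) + 3) * S) :=
            mul_le_mul_of_nonneg_left e1 (by positivity)
        _ ≤ (EE 1 1620 : ℝ) ^ (k + 1) * (4 ^ (k + 1) * S) := by
            refine mul_le_mul ?_ ?_ (by positivity) (by positivity)
            · exact pow_le_pow_right₀ e3 (by omega)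
            · exact mul_le_mul_of_nonneg_right e2 (by positivity)
        _ = _ := by
            unfold KW
            push_cast
            rw [mul_pow]
            ring
    have h4 := lt_of_le_of_lt h3 h2
    exact_mod_cast h4
  have h1 := mainG (H := Set.univ) hAD h7 (fun _ => 1) 1 1620 le_rfl (by simp) (GW n o)
    (by
      rintro j l ⟨g1, g2, g3, g4, g5⟩ i W hW -
      have g6 := hW.length
      exact ⟨by rw [hW.head, g1], by omega, by omega, hW.nodup g4, hW.chain g5⟩)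
    (fun j l hl => hl.2.2.2.1) {l | l ∈ WW n o ∧ ∀ v ∈ l, v ∈ D}
    (by
      rintro l ⟨⟨g1, g2, g3, g4⟩, -⟩
      exact ⟨g1, by omega, by omega, g3, g4⟩)
    (fun l hl => hl.1.2.2.2) (fun l hl => hl.2) k (by simp) r hr0
  have h2 := h1.trans (mul_le_mul_right (GW_tot n o r) _)
  have h3 : ((4 : ℕ) : ℝ≥0∞) ^ r *
      tot (fun _ => 1) {l | l ∈ {l | l ∈ WW n o ∧ ∀ v ∈ l, v ∈ D} ∧
        EE 1 1620 ^ k * r < nB (Nr A k) l} ≤ k * (cN n : ℝ≥0∞) := by
    have e405 : ((405 : ℕ) : ℝ≥0∞) ^ r ≠ 0 := by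
      apply pow_ne_zero
      norm_num
    have e405' : ((405 : ℕ) : ℝ≥0∞) ^ r ≠ ⊤ := ENNReal.pow_ne_top (ENNReal.natCast_ne_top 405)
    rw [← ENNReal.mul_le_mul_iff_right e405 e405']
    calc ((405 : ℕ) : ℝ≥0∞) ^ r * (((4 : ℕ) : ℝ≥0∞) ^ r *
          tot (fun _ => 1) {l | l ∈ {l | l ∈ WW n o ∧ ∀ v ∈ l, v ∈ D} ∧
            EE 1 1620 ^ k * r < nB (Nr A k) l})
        = ((1620 : ℕ) : ℝ≥0∞) ^ r *
          tot (fun _ => 1) {l | l ∈ {l | l ∈ WW n o ∧ ∀ v ∈ l, v ∈ D} ∧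
            EE 1 1620 ^ k * r < nB (Nr A k) l} := by
          rw [← mul_assoc, ← mul_pow]
          congr 2
          norm_num
      _ ≤ k * (((405 : ℕ) : ℝ≥0∞) ^ r * (cN n : ℝ≥0∞)) := h2
      _ = _ := by ring
  have h4 : ((4 : ℕ) : ℝ≥0∞) ^ r ≠ 0 := by
    apply pow_ne_zero
    norm_num
  have h4' : ((4 : ℕ) : ℝ≥0∞) ^ r ≠ ⊤ := ENNReal.pow_ne_top (ENNReal.natCast_ne_top 4)
  have h5 : tot (fun _ => 1) {l | l ∈ {l | l ∈ WW n o ∧ ∀ v ∈ l, v ∈ D} ∧
        EE 1 1620 ^ k * r < nB (Nr A k) l} ≤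
      (((4 : ℕ) : ℝ≥0∞) ^ r)⁻¹ * (k * (cN n : ℝ≥0∞)) := by
    rw [← ENNReal.mul_le_iff_le_inv h4 h4']
    exact h3
  refine ((tot_mono _ hsub).trans h5).trans ?_
  rw [← mul_assoc, ← mul_assoc]
  refine mul_le_mul_left ?_ _
  have e5 : (((4 : ℕ) : ℝ≥0∞) ^ r)⁻¹ = ENNReal.ofReal ((4 ^ r)⁻¹) := by
    rw [ENNReal.ofReal_inv_of_pos (by positivity), ENNReal.ofReal_pow (by norm_num)]
    congr 2
    norm_num
  have e6 : (2⁻¹ : ℝ≥0∞) ^ (k + 1) = ENNReal.ofReal ((2⁻¹) ^ (k + 1)) := by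
    rw [ENNReal.ofReal_pow (by norm_num), ENNReal.ofReal_inv_of_pos (by norm_num)]
    congr 2
    norm_num
  rw [e5, e6, ← ENNReal.ofReal_natCast k, ← ENNReal.ofReal_mul (by positivity),
    ← ENNReal.ofReal_mul (by positivity)]
  exact ENNReal.ofReal_le_ofReal (num k hS)

/-- all distances, `n`-step walks -/
theorem tailW_all {D A : Set V} (hAD : ∀ u ∈ A, u ∉ D) (h7 : ∀ u ∈ A, 7 ≤ (Comp D u).encard)
    (n : ℕ) (o : V) (S : ℝ) (hS : 1 ≤ S) :
    tot (fun _ => 1) {l | l ∈ WW n o ∧ (∀ v ∈ l, v ∈ D) ∧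
        ∃ k : ℕ, (KW : ℝ) ^ (k + 1) * S < (nB (Nr A k) l : ℝ)} ≤
      ENNReal.ofReal (Real.exp (-S)) * (cN n : ℝ≥0∞) := by
  have hsub : {l | l ∈ WW n o ∧ (∀ v ∈ l, v ∈ D) ∧
        ∃ k : ℕ, (KW : ℝ) ^ (k + 1) * S < (nB (Nr A k) l : ℝ)} ⊆
      ⋃ k : ℕ, {l | l ∈ WW n o ∧ (∀ v ∈ l, v ∈ D) ∧
        (KW : ℝ) ^ (k + 1) * S < (nB (Nr A k) l : ℝ)} := by
    rintro l ⟨h1, h1', k, h2⟩
    exact Set.mem_iUnion.2 ⟨k, h1, h1', h2⟩
  refine ((tot_mono _ hsub).trans (tot_iUnion _ _)).trans ?_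
  refine (ENNReal.tsum_le_tsum (fun k => tailW_one hAD h7 n o k S hS)).trans ?_
  rw [ENNReal.tsum_mul_left, ENNReal.tsum_mul_right, ENNReal.tsum_geometric_add_one,
    ENNReal.one_sub_inv_two, inv_inv, ENNReal.inv_mul_cancel (by norm_num) (by norm_num), one_mul]

theorem small_leW (k : ℕ) {S : ℝ} (hS : 1 ≤ S) :
    ((6 * (2 * k + 1) ^ 2 : ℕ) : ℝ) ≤ (KW : ℝ) ^ (k + 1) * S := by
  have h1 : 2 * k + 1 ≤ 3 ^ k := by
    induction k with
    | zero => norm_num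
    | succ k ih => rw [pow_succ]; omega
  have h2 : 6 * (2 * k + 1) ^ 2 ≤ KW ^ (k + 1) := by
    calc 6 * (2 * k + 1) ^ 2 ≤ 6 * (3 ^ k) ^ 2 := by gcongr
      _ = 6 * 9 ^ k := by rw [← pow_mul, mul_comm k 2, pow_mul]; norm_num
      _ ≤ 7000 * 7000 ^ k := by gcongr <;> norm_num
      _ = 7000 ^ (k + 1) := by ring
      _ ≤ _ := Nat.pow_le_pow_left KW_ge _
  have h3 : ((6 * (2 * k + 1) ^ 2 : ℕ) : ℝ) ≤ (KW : ℝ) ^ (k + 1) := by exact_mod_cast h2
  have h4 : (0 : ℝ) ≤ (KW : ℝ) ^ (k + 1) := by positivity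
  nlinarith

/-- **Past and future**, the past has `t` vertices. -/
theorem contactW (n t : ℕ) (ht : t ≤ n) (S : ℝ) (hS : 1 ≤ S) :
    tot (fun _ => 1) {l | l ∈ WW n 0 ∧ ∃ s v r, l = s ++ v :: r ∧ s.length = t ∧
        ∃ k : ℕ, (KW : ℝ) ^ (k + 1) * S < (nB (Nr {u | u ∈ s} k) (v :: r) : ℝ)} ≤
      ENNReal.ofReal (Real.exp (-S)) * ((cN t : ℝ≥0∞) * cN (n - t)) := by
  set F : List V → V → Set (List V) := fun s v =>
    {m | m ∈ WW (n - t) v ∧ (∀ u ∈ m, u ∈ {u | u ∉ s}) ∧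
      ∃ k : ℕ, (KW : ℝ) ^ (k + 1) * S < (nB (Nr {u | u ∈ s} k) m : ℝ)} with hF
  have hFt : ∀ s v, ∀ m ∈ F s v, ∃ t, m = v :: t := by
    rintro s v m ⟨⟨h1, -⟩, -⟩
    rcases m with _ | ⟨x, t⟩
    · simp at h1
    · simp only [List.head?_cons, Option.some.injEq] at h1
      exact ⟨t, by rw [h1]⟩
  have hsub : {l | l ∈ WW n 0 ∧ ∃ s v r, l = s ++ v :: r ∧ s.length = t ∧
        ∃ k : ℕ, (KW : ℝ) ^ (k + 1) * S < (nB (Nr {u | u ∈ s} k) (v :: r) : ℝ)} ⊆
      ⋃ z : V × List V, {l | z.2 ++ [z.1] ∈ WW t 0 ∧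
        l ∈ {l | ∃ m ∈ F z.2 z.1, l = z.2 ++ m}} := by
    rintro l ⟨⟨g1, g2, g3, g4⟩, s, v, r, rfl, hs, h2⟩
    have g6 := List.nodup_append.1 g3
    have g7 := List.isChain_append.1 g4
    refine Set.mem_iUnion.2 ⟨(v, s), ⟨?_, ?_, ?_, ?_⟩, v :: r, ⟨⟨rfl, ?_, g6.2.1, g7.2.1⟩, ?_, h2⟩,
      rfl⟩
    · rcases s with _ | ⟨x, s⟩
      · simpa using g1
      · simpa using g1
    · simp [hs]
    · have e : s ++ v :: r = (s ++ [v]) ++ r := by simp
      rw [e] at g3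
      exact (List.nodup_append.1 g3).1
    · have e : s ++ v :: r = (s ++ [v]) ++ r := by simp
      rw [e] at g4
      exact (List.isChain_append.1 g4).1
    · rw [List.length_append] at g2
      omega
    · exact fun u hu hus => g6.2.2 u hus u hu rfl
  refine ((tot_mono _ hsub).trans (tot_iUnion _ _)).trans ?_
  have hone : ∀ z : V × List V, tot (fun _ => 1) {l | z.2 ++ [z.1] ∈ WW t 0 ∧
      l ∈ {l | ∃ m ∈ F z.2 z.1, l = z.2 ++ m}} ≤
      (WW t 0).indicator (fun _ => (1 : ℝ≥0∞)) (z.2 ++ [z.1]) *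
        (ENNReal.ofReal (Real.exp (-S)) * cN (n - t)) := by
    rintro ⟨v, s⟩
    simp only
    by_cases hs : s ++ [v] ∈ WW t 0
    · rw [Set.indicator_of_mem hs, one_mul]
      refine (tot_mono _ (fun l hl => hl.2)).trans ?_
      rw [tot_prefix (fun _ => 1) (by simp) s v _ (hFt s v), one_mul]
      obtain ⟨g1, g2, g3, g4⟩ := hs
      by_cases h7 : 7 ≤ s.length
      · refine tailW_all (D := {u | u ∉ s}) (A := {u | u ∈ s}) ?_ ?_ (n - t) v S hS
        · exact fun u hu hu' => hu' hu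
        · exact comp_ge (List.isChain_append.1 g4).1 (List.nodup_append.1 g3).1
            (fun u hu hu' => hu' hu) h7
      · have h0 : F s v = ∅ := by
          ext m
          simp only [hF, Set.mem_ofPred_eq, Set.mem_empty_iff_false, iff_false, not_and,
            not_exists, not_lt]
          intro _ _ k
          refine le_trans ?_ (small_leW k hS)
          exact_mod_cast few (by omega) k m
        rw [h0]
        unfold tot
        simp
    · have h0 : {l | s ++ [v] ∈ WW t 0 ∧ l ∈ {l | ∃ m ∈ F s v, l = s ++ m}} = ∅ := by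
        ext l
        simp [hs]
      rw [h0]
      unfold tot
      simp
  refine (ENNReal.tsum_le_tsum hone).trans ?_
  rw [ENNReal.tsum_mul_right]
  have hinj : Function.Injective (fun z : V × List V => z.2 ++ [z.1]) := by
    rintro ⟨v, s⟩ ⟨v', s'⟩ h
    simp only at h
    obtain ⟨h1, h2⟩ := List.append_inj' h rfl
    simp only [List.cons.injEq, and_true] at h2
    rw [h1, h2]
  have h1 : ∑' z : V × List V, (WW t 0).indicator (fun _ => (1 : ℝ≥0∞)) (z.2 ++ [z.1]) ≤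
      (cN t : ℝ≥0∞) := by
    refine (ENNReal.tsum_comp_le_tsum_of_injective hinj
      ((WW t 0).indicator (fun _ => (1 : ℝ≥0∞)))).trans ?_
    have h2 := tot_one (WW t 0) (WW_finite t 0)
    unfold tot at h2
    rw [h2]
    exact_mod_cast WW_card t 0
  calc (∑' z : V × List V, (WW t 0).indicator (fun _ => (1 : ℝ≥0∞)) (z.2 ++ [z.1])) *
        (ENNReal.ofReal (Real.exp (-S)) * cN (n - t))
      ≤ (cN t : ℝ≥0∞) * (ENNReal.ofReal (Real.exp (-S)) * cN (n - t)) := mul_le_mul_left h1 _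
    _ = _ := by ring

end Pool.Agent.U372.HX
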