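import Pool.Agent.U372.HX.Step

/-! # Near contacts of the `n`-step walk: functions, probabilities, lags -/

set_option autoImplicit false

namespace Pool.Agent.U372.HX

open scoped ENNReal Classical
open H978R2.Hex (saws)

/-- the number of the vertices from time `t` on which are close to the vertices before time `t` -/
noncomputable def con {n : ℕ} (ω : Fin (n + 1) → V) (k t : ℕ) : ℕ :=
  (Finset.univ.filter (fun j : Fin (n + 1) =>
    t ≤ j.1 ∧ ω j ∈ Nr {u | ∃ i : Fin (n + 1), i.1 < t ∧ u = ω i} k)).card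

/-- the number of close pairs with lag at least `m` -/
noncomputable def prs {n : ℕ} (ω : Fin (n + 1) → V) (k m : ℕ) : ℕ :=
  (Finset.univ.filter (fun q : Fin (n + 1) × Fin (n + 1) =>
    q.1.1 + m ≤ q.2.1 ∧ ω q.2 ∈ Nr {ω q.1} k)).card

theorem ofFn_mem {n : ℕ} {ω : Fin (n + 1) → V} (h : ω ∈ saws n) : List.ofFn ω ∈ WW n 0 := by
  refine ⟨?_, by simp, ?_, ?_⟩
  · rw [List.head?_eq_getElem?, List.getElem?_eq_getElem (by simp), List.getElem_ofFn]
    exact congrArg some h.1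
  · exact List.nodup_ofFn.2 h.2.1
  · rw [List.isChain_iff_getElem]
    intro i hi
    rw [List.getElem_ofFn, List.getElem_ofFn, adj_iff]
    rw [List.length_ofFn] at hi
    exact h.2.2 ⟨i, by omega⟩

theorem con_le {n : ℕ} {ω : Fin (n + 1) → V} (h : ω ∈ saws n) {k t : ℕ} :
    con ω k t ≤ nB (Nr {u | u ∈ (List.ofFn ω).take t} k) ((List.ofFn ω).drop t) := by
  unfold con nB
  refine Finset.card_le_card_of_injOn ω ?_ (fun i _ j _ hij => h.2.1 hij)
  intro j hj
  simp only [Finset.coe_filter, Finset.mem_univ, true_and, Set.mem_ofPred_eq] at hj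
  simp only [Finset.coe_filter, List.mem_toFinset, Set.mem_ofPred_eq]
  obtain ⟨h1, h2⟩ := hj
  have e : {u | ∃ i : Fin (n + 1), i.1 < t ∧ u = ω i} = {u | u ∈ (List.ofFn ω).take t} := by
    ext u
    simp only [Set.mem_ofPred_eq]
    rw [List.mem_take_iff_getElem]
    constructor
    · rintro ⟨i, hi, rfl⟩
      have := i.2
      exact ⟨i.1, by simp; omega, by rw [List.getElem_ofFn]⟩
    · rintro ⟨i, hi, rfl⟩
      simp only [List.length_ofFn, lt_min_iff] at hi
      exact ⟨⟨i, hi.2⟩, hi.1, by rw [List.getElem_ofFn]⟩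
  rw [e] at h2
  refine ⟨?_, h2⟩
  rw [List.mem_drop_iff_getElem]
  have := j.2
  refine ⟨j.1 - t, by simp; omega, ?_⟩
  rw [List.getElem_ofFn]
  congr 1
  exact Fin.ext (by simp; omega)

theorem Nr_single {A : Set V} {k : ℕ} {v : V} (h : v ∈ Nr A k) : ∃ a ∈ A, v ∈ Nr {a} k := by
  induction k generalizing v with
  | zero => exact ⟨v, h, rfl⟩
  | succ k ih =>
    rcases h with h | ⟨u, hu, huv⟩
    · obtain ⟨a, ha, h1⟩ := ih h
      exact ⟨a, ha, Or.inl h1⟩
    · obtain ⟨a, ha, h1⟩ := ih hu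
      exact ⟨a, ha, Or.inr ⟨u, h1, huv⟩⟩

theorem Nr_sub {A B : Set V} (hAB : A ⊆ B) {k : ℕ} : Nr A k ⊆ Nr B k := by
  induction k with
  | zero => exact hAB
  | succ k ih =>
    rintro v (h | ⟨u, hu, huv⟩)
    · exact Or.inl (ih h)
    · exact Or.inr ⟨u, ih hu, huv⟩

/-- pairs with a large lag -/
theorem prs_le {n : ℕ} {ω : Fin (n + 1) → V} (h : Function.Injective ω) {k m : ℕ} (hm : 1 ≤ m)
    {N : ℕ} (hN : ∀ t, t ≤ n → con ω k t ≤ N) : prs ω k m ≤ (n / m) * ((2 * k + 1) ^ 2 * N) := by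
  set S : ℕ → Finset (Fin (n + 1) × Fin (n + 1)) := fun a =>
    (Finset.univ.filter (fun q : Fin (n + 1) × Fin (n + 1) =>
      q.1.1 < (a + 1) * m ∧ (a + 1) * m ≤ q.2.1 ∧ ω q.2 ∈ Nr {ω q.1} k)) with hS
  have hsub : (Finset.univ.filter (fun q : Fin (n + 1) × Fin (n + 1) =>
      q.1.1 + m ≤ q.2.1 ∧ ω q.2 ∈ Nr {ω q.1} k)) ⊆ (Finset.range (n / m)).biUnion S := by
    rintro ⟨i, j⟩ hq
    rw [Finset.mem_filter] at hq
    obtain ⟨-, h1, h2⟩ := hq
    simp only at h1 h2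
    have hj := j.2
    rw [Finset.mem_biUnion]
    have e1 : i.1 / m * m ≤ i.1 := Nat.div_mul_le_self _ _
    have e2 : i.1 < (i.1 / m + 1) * m := by
      have := Nat.lt_div_mul_add (a := i.1) (b := m) (by omega)
      rw [add_mul, one_mul]
      exact this
    have e3 : (i.1 / m + 1) * m ≤ j.1 := by
      rw [add_mul, one_mul]
      omega
    refine ⟨i.1 / m, ?_, ?_⟩
    · rw [Finset.mem_range]
      have : i.1 / m + 1 ≤ n / m := by
        rw [Nat.le_div_iff_mul_le (by omega)]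
        omega
      omega
    · rw [hS]
      simp only [Finset.mem_filter, Finset.mem_univ, true_and]
      exact ⟨e2, e3, h2⟩
  have hSc : ∀ a ∈ Finset.range (n / m), (S a).card ≤ (2 * k + 1) ^ 2 * N := by
    intro a ha
    rw [Finset.mem_range] at ha
    have hat : (a + 1) * m ≤ n := by
      have := Nat.div_mul_le_self n m
      calc (a + 1) * m ≤ (n / m) * m := Nat.mul_le_mul_right _ (by omega)
        _ ≤ n := this
    set C := Finset.univ.filter (fun j : Fin (n + 1) =>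
      (a + 1) * m ≤ j.1 ∧ ω j ∈ Nr {u | ∃ i : Fin (n + 1), i.1 < (a + 1) * m ∧ u = ω i} k)
      with hC
    have h1 : (S a).card ≤ (2 * k + 1) ^ 2 * C.card := by
      refine (Finset.card_le_mul_card_image_of_maps_to (f := fun q : Fin (n + 1) × Fin (n + 1) =>
        q.2) (t := C) (fun q hq => ?_) ((2 * k + 1) ^ 2) (fun j hj => ?_))
      · rw [hS] at hq
        simp only [Finset.mem_filter, Finset.mem_univ, true_and] at hq
        rw [hC, Finset.mem_filter]
        refine ⟨Finset.mem_univ _, hq.2.1, ?_⟩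
        refine Nr_sub ?_ hq.2.2
        rintro u rfl
        exact ⟨q.1, hq.1, rfl⟩
      · have e : (bx k (ω j)).card = (2 * k + 1) ^ 2 := by
          rw [bx_card]
          have : (2 * (k : ℤ) + 1).toNat = 2 * k + 1 := by omega
          rw [this]
        rw [← e]
        refine Finset.card_le_card_of_injOn (fun q => ω q.1) ?_ ?_
        · intro q hq
          rw [hS] at hq
          simp only [Finset.coe_filter, Finset.mem_filter, Finset.mem_univ, true_and,
            Set.mem_ofPred_eq] at hq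
          obtain ⟨⟨-, -, h3⟩, rfl⟩ := hq
          obtain ⟨a', ha', h4⟩ := Nr_cl h3
          rw [Set.mem_singleton_iff] at ha'
          subst ha'
          exact mem_bx.2 h4
        · rintro ⟨i, j1⟩ hq ⟨i', j1'⟩ hq' h4
          simp only [Finset.coe_filter, Set.mem_ofPred_eq] at hq hq'
          have h5 := h h4
          have h6 : j1 = j1' := hq.2.trans hq'.2.symm
          rw [Prod.mk.injEq]
          exact ⟨h5, h6⟩
    exact h1.trans (Nat.mul_le_mul_left _ (hN _ hat))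
  unfold prs
  refine (Finset.card_le_card hsub).trans ?_
  refine (Finset.card_biUnion_le_card_mul _ _ _ hSc).trans ?_
  rw [Finset.card_range]

/-- number of bad walks -/
theorem bad_card (n : ℕ) (S : ℝ) (hS : 1 ≤ S) :
    ((({ω | ω ∈ saws n ∧ ∃ t k : ℕ, t ≤ n ∧ (KW : ℝ) ^ (k + 1) * S < (con ω k t : ℝ)} :
      Set (Fin (n + 1) → V)).ncard : ℕ) : ℝ) ≤
      Real.exp (-S) * ∑ t ∈ Finset.range (n + 1), (cN t : ℝ) * cN (n - t) := by
  set Bt : ℕ → Set (List V) := fun t => {l | l ∈ WW n 0 ∧ ∃ s v r, l = s ++ v :: r ∧ s.length = t ∧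
        ∃ k : ℕ, (KW : ℝ) ^ (k + 1) * S < (nB (Nr {u | u ∈ s} k) (v :: r) : ℝ)} with hBt
  have hfin : ∀ t, (Bt t).Finite := fun t => (WW_finite n 0).subset (fun l hl => hl.1)
  have h1 : ({ω | ω ∈ saws n ∧ ∃ t k : ℕ, t ≤ n ∧ (KW : ℝ) ^ (k + 1) * S < (con ω k t : ℝ)} :
      Set (Fin (n + 1) → V)).ncard ≤
      (⋃ t ∈ Finset.range (n + 1), Bt t).ncard := by
    refine Set.ncard_le_ncard_of_injOn List.ofFn ?_ (fun a _ b _ hab => List.ofFn_injective hab)
      (Set.Finite.biUnion (Finset.finite_toSet _) (fun t _ => hfin t))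
    rintro ω ⟨hω, t, k, ht, hk⟩
    rw [Set.mem_iUnion₂]
    refine ⟨t, Finset.mem_range.2 (by omega), ofFn_mem hω, (List.ofFn ω).take t,
      (List.ofFn ω)[t]'(by simp; omega), (List.ofFn ω).drop (t + 1), ?_, by simp; omega, k, ?_⟩
    · rw [← List.drop_eq_getElem_cons, List.take_append_drop]
    · rw [← List.drop_eq_getElem_cons]
      refine lt_of_lt_of_le hk ?_
      exact_mod_cast con_le hω
  have h2 : (⋃ t ∈ Finset.range (n + 1), Bt t).ncard ≤
      ∑ t ∈ Finset.range (n + 1), (Bt t).ncard := by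
    refine Finset.set_ncard_biUnion_le _ _
  have h3 : ∀ t ∈ Finset.range (n + 1), (((Bt t).ncard : ℕ) : ℝ) ≤
      Real.exp (-S) * ((cN t : ℝ) * cN (n - t)) := by
    intro t ht
    rw [Finset.mem_range] at ht
    have h4 := contactW n t (by omega) S hS
    rw [tot_one _ (hfin t)] at h4
    have e : ENNReal.ofReal (Real.exp (-S)) * ((cN t : ℝ≥0∞) * cN (n - t)) =
        ENNReal.ofReal (Real.exp (-S) * ((cN t : ℝ) * cN (n - t))) := by
      rw [ENNReal.ofReal_mul (Real.exp_pos _).le, ENNReal.ofReal_mul (Nat.cast_nonneg _),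
        ENNReal.ofReal_natCast, ENNReal.ofReal_natCast]
    rw [e, ← ENNReal.ofReal_natCast, ENNReal.ofReal_le_ofReal_iff (by positivity)] at h4
    exact h4
  calc ((({ω | ω ∈ saws n ∧ ∃ t k : ℕ, t ≤ n ∧ (KW : ℝ) ^ (k + 1) * S < (con ω k t : ℝ)} :
      Set (Fin (n + 1) → V)).ncard : ℕ) : ℝ)
      ≤ ((∑ t ∈ Finset.range (n + 1), (Bt t).ncard : ℕ) : ℝ) := by exact_mod_cast h1.trans h2
    _ = ∑ t ∈ Finset.range (n + 1), (((Bt t).ncard : ℕ) : ℝ) := by push_cast; rfl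
    _ ≤ ∑ t ∈ Finset.range (n + 1), Real.exp (-S) * ((cN t : ℝ) * cN (n - t)) :=
        Finset.sum_le_sum h3
    _ = _ := by rw [Finset.mul_sum]

/-- **Near contacts of the `n`-step walk**, given the bounds for the numbers of the walks. -/
theorem steps_all {μ K₀ : ℝ} (hμ : 0 < μ) (hK₀ : 0 ≤ K₀) (hlow : ∀ n, μ ^ n ≤ (cN n : ℝ))
    (hup : ∀ n, 2 ≤ n → (cN n : ℝ) ≤ μ ^ n * Real.exp (K₀ * Real.log n ^ 2)) :
    ∃ K : ℝ, 1 ≤ K ∧ ∀ n : ℕ, 2 ≤ n → ∀ x : ℝ, 0 ≤ x →
      ((({ω | ω ∈ saws n ∧ ¬ ∀ k : ℕ,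
        (∀ t : ℕ, (con ω k t : ℝ) ≤ K ^ (k + 1) * (Real.log n ^ 2 + x)) ∧
        ∀ m : ℕ, 1 ≤ m → (prs ω k m : ℝ) ≤ K ^ (k + 1) * (n / m) * (Real.log n ^ 2 + x)} :
        Set (Fin (n + 1) → V)).ncard : ℕ) : ℝ) ≤ Real.exp (-x) * cN n := by
  -- a bound for all lengths up to `n`
  have hμ3 : μ ≤ 3 := by
    have h1 := hlow 1
    have h2 : (cN 1 : ℝ) ≤ 3 := by exact_mod_cast cN_one
    simpa using h1.trans h2
  obtain ⟨K₁, hK₁0, hK₁⟩ : ∃ K₁ : ℝ, 0 ≤ K₁ ∧ ∀ n : ℕ, 2 ≤ n → ∀ t ≤ n,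
      (cN t : ℝ) ≤ μ ^ t * Real.exp (K₁ * Real.log n ^ 2) := by
    have hl2 : (1 / 2 : ℝ) ≤ Real.log 2 := by
      have := Real.log_two_gt_d9
      linarith
    set c := Real.log (3 / μ + 1) with hc
    have hc0 : 0 ≤ c := Real.log_nonneg (by
      have : 0 ≤ 3 / μ := by positivity
      linarith)
    refine ⟨K₀ + 4 * c, by positivity, fun n hn t ht => ?_⟩
    have hn0 : (2 : ℝ) ≤ n := by exact_mod_cast hn
    have hln : Real.log 2 ≤ Real.log n := Real.log_le_log (by norm_num) hn0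
    have hln2 : (1 : ℝ) ≤ 4 * Real.log n ^ 2 := by nlinarith
    rcases Nat.lt_or_ge t 2 with h | h
    · have h3 : (cN t : ℝ) ≤ μ ^ t * (3 / μ + 1) := by
        interval_cases t
        · have : (cN 0 : ℝ) ≤ 1 := by exact_mod_cast cN_zero
          have h4 : 0 ≤ 3 / μ := by positivity
          rw [pow_zero, one_mul]
          linarith
        · have : (cN 1 : ℝ) ≤ 3 := by exact_mod_cast cN_one
          rw [pow_one, mul_add, mul_div_cancel₀ _ hμ.ne']
          linarith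
      refine h3.trans (mul_le_mul_of_nonneg_left ?_ (by positivity))
      have h5 : (3 / μ + 1) = Real.exp c := by
        rw [hc, Real.exp_log (by positivity)]
      rw [h5]
      apply Real.exp_le_exp.2
      have : c * 1 ≤ c * (4 * Real.log n ^ 2) := mul_le_mul_of_nonneg_left hln2 hc0
      have h6 : 0 ≤ K₀ * Real.log n ^ 2 := by positivity
      nlinarith
    · refine (hup t h).trans (mul_le_mul_of_nonneg_left ?_ (by positivity))
      apply Real.exp_le_exp.2
      have h6 : Real.log t ≤ Real.log n := Real.log_le_log (by positivity) (by exact_mod_cast ht)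
      have h7 : 0 ≤ Real.log t := Real.log_natCast_nonneg t
      have h8 : Real.log t ^ 2 ≤ Real.log n ^ 2 := pow_le_pow_left₀ h7 h6 2
      have h9 : 0 ≤ 4 * c * Real.log n ^ 2 := by positivity
      nlinarith [mul_le_mul_of_nonneg_left h8 hK₀]
  refine ⟨9 * (KW : ℝ) * (2 * K₁ + 8), ?_, ?_⟩
  · have : (7000 : ℝ) ≤ (KW : ℝ) := by exact_mod_cast KW_ge
    nlinarith
  intro n hn x hx
  have hn0 : (2 : ℝ) ≤ n := by exact_mod_cast hn
  have hl2 : (1 / 2 : ℝ) ≤ Real.log 2 := by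
    have := Real.log_two_gt_d9
    linarith
  have hln : Real.log 2 ≤ Real.log n := Real.log_le_log (by norm_num) hn0
  set L := Real.log n with hL
  have hL2 : (1 : ℝ) ≤ 4 * L ^ 2 := by nlinarith
  have hLL : L ≤ 2 * L ^ 2 := by nlinarith
  have hKW : (7000 : ℝ) ≤ (KW : ℝ) := by exact_mod_cast KW_ge
  set S := x + (2 * K₁ + 8) * L ^ 2 with hS
  have hS1 : 1 ≤ S := by nlinarith [mul_nonneg hK₁0 (sq_nonneg L)]
  have hb := bad_card n S hS1
  have hsub : ({ω | ω ∈ saws n ∧ ¬ ∀ k : ℕ,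
        (∀ t : ℕ, (con ω k t : ℝ) ≤ (9 * (KW : ℝ) * (2 * K₁ + 8)) ^ (k + 1) * (L ^ 2 + x)) ∧
        ∀ m : ℕ, 1 ≤ m → (prs ω k m : ℝ) ≤
          (9 * (KW : ℝ) * (2 * K₁ + 8)) ^ (k + 1) * (n / m) * (L ^ 2 + x)} :
        Set (Fin (n + 1) → V)) ⊆
      {ω | ω ∈ saws n ∧ ∃ t k : ℕ, t ≤ n ∧ (KW : ℝ) ^ (k + 1) * S < (con ω k t : ℝ)} := by
    rintro ω ⟨hω, hbad⟩
    refine ⟨hω, ?_⟩
    by_contra hcon
    push Not at hcon
    apply hbad
    intro k
    have hthr : (2 * (k : ℝ) + 1) ^ 2 * ((KW : ℝ) ^ (k + 1) * S) ≤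
        (9 * (KW : ℝ) * (2 * K₁ + 8)) ^ (k + 1) * (L ^ 2 + x) := by
      have e1 : S ≤ (2 * K₁ + 8) * (L ^ 2 + x) := by nlinarith [mul_nonneg hK₁0 hx]
      have e2 : (1 : ℝ) ≤ 2 * K₁ + 8 := by linarith
      have e3 : (2 * (k : ℝ) + 1) ^ 2 ≤ 9 ^ (k + 1) := by
        have h1 : 2 * k + 1 ≤ 3 ^ k := by
          clear hcon hbad hb
          induction k with
          | zero => norm_num
          | succ k ih => rw [pow_succ]; omega
        have h2 : (2 * k + 1) ^ 2 ≤ 9 ^ (k + 1) := by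
          calc (2 * k + 1) ^ 2 ≤ (3 ^ k) ^ 2 := by gcongr
            _ = 9 ^ k := by rw [← pow_mul, mul_comm k 2, pow_mul]; norm_num
            _ ≤ 9 ^ (k + 1) := Nat.pow_le_pow_right (by norm_num) (by omega)
        exact_mod_cast h2
      calc (2 * (k : ℝ) + 1) ^ 2 * ((KW : ℝ) ^ (k + 1) * S)
          ≤ 9 ^ (k + 1) * ((KW : ℝ) ^ (k + 1) * ((2 * K₁ + 8) * (L ^ 2 + x))) := by
            refine mul_le_mul e3 ?_ (by positivity) (by positivity)
            exact mul_le_mul_of_nonneg_left e1 (by positivity)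
        _ ≤ 9 ^ (k + 1) * ((KW : ℝ) ^ (k + 1) * ((2 * K₁ + 8) ^ (k + 1) * (L ^ 2 + x))) := by
            refine mul_le_mul_of_nonneg_left ?_ (by positivity)
            refine mul_le_mul_of_nonneg_left ?_ (by positivity)
            refine mul_le_mul_of_nonneg_right ?_ (by positivity)
            exact le_self_pow₀ e2 (by omega)
        _ = _ := by rw [mul_pow, mul_pow]; ring
    have h0S : 0 ≤ (KW : ℝ) ^ (k + 1) * S := by positivity
    have hge : (KW : ℝ) ^ (k + 1) * S ≤ (2 * (k : ℝ) + 1) ^ 2 * ((KW : ℝ) ^ (k + 1) * S) := by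
      have : (1 : ℝ) ≤ (2 * (k : ℝ) + 1) ^ 2 := by
        have hk : (0 : ℝ) ≤ k := Nat.cast_nonneg k
        nlinarith
      nlinarith
    constructor
    · intro t
      rcases Nat.lt_or_ge n t with h | h
      · have h0 : con ω k t = 0 := by
          unfold con
          rw [Finset.card_eq_zero, Finset.filter_eq_empty_iff]
          intro j _ hj
          have := j.2
          omega
        rw [h0]
        push_cast
        positivity
      · exact (hcon t k h).trans (hge.trans hthr)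
    · intro m hm
      set N := ⌊(KW : ℝ) ^ (k + 1) * S⌋₊ with hN
      have hcN : ∀ t, t ≤ n → con ω k t ≤ N := fun t ht => Nat.le_floor (hcon t k ht)
      have h1 := prs_le hω.2.1 hm hcN
      have h2 : (N : ℝ) ≤ (KW : ℝ) ^ (k + 1) * S := Nat.floor_le h0S
      have h3 : ((n / m : ℕ) : ℝ) ≤ (n : ℝ) / m := Nat.cast_div_le
      calc (prs ω k m : ℝ) ≤ ((n / m * ((2 * k + 1) ^ 2 * N) : ℕ) : ℝ) := by exact_mod_cast h1
        _ = ((n / m : ℕ) : ℝ) * ((2 * (k : ℝ) + 1) ^ 2 * N) := by push_cast; ring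
        _ ≤ ((n : ℝ) / m) * ((2 * (k : ℝ) + 1) ^ 2 * ((KW : ℝ) ^ (k + 1) * S)) := by
            refine mul_le_mul h3 ?_ (by positivity) (by positivity)
            exact mul_le_mul_of_nonneg_left h2 (by positivity)
        _ ≤ ((n : ℝ) / m) * ((9 * (KW : ℝ) * (2 * K₁ + 8)) ^ (k + 1) * (L ^ 2 + x)) :=
            mul_le_mul_of_nonneg_left hthr (by positivity)
        _ = _ := by ring
  have h4 : ((({ω | ω ∈ saws n ∧ ¬ ∀ k : ℕ,
        (∀ t : ℕ, (con ω k t : ℝ) ≤ (9 * (KW : ℝ) * (2 * K₁ + 8)) ^ (k + 1) * (L ^ 2 + x)) ∧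
        ∀ m : ℕ, 1 ≤ m → (prs ω k m : ℝ) ≤
          (9 * (KW : ℝ) * (2 * K₁ + 8)) ^ (k + 1) * (n / m) * (L ^ 2 + x)} :
        Set (Fin (n + 1) → V)).ncard : ℕ) : ℝ) ≤
      ((({ω | ω ∈ saws n ∧ ∃ t k : ℕ, t ≤ n ∧ (KW : ℝ) ^ (k + 1) * S < (con ω k t : ℝ)} :
        Set (Fin (n + 1) → V)).ncard : ℕ) : ℝ) := by
    exact_mod_cast Set.ncard_le_ncard hsub
      ((H978R2.Hex.saws_finite n).subset (fun ω hω => hω.1))
  refine (h4.trans hb).trans ?_
  have h5 : ∑ t ∈ Finset.range (n + 1), (cN t : ℝ) * cN (n - t) ≤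
      (n + 1) * (μ ^ n * Real.exp (2 * K₁ * L ^ 2)) := by
    have h6 : ∀ t ∈ Finset.range (n + 1), (cN t : ℝ) * cN (n - t) ≤
        μ ^ n * Real.exp (2 * K₁ * L ^ 2) := by
      intro t ht
      rw [Finset.mem_range] at ht
      have g1 := hK₁ n hn t (by omega)
      have g2 := hK₁ n hn (n - t) (by omega)
      calc (cN t : ℝ) * cN (n - t) ≤ (μ ^ t * Real.exp (K₁ * L ^ 2)) *
            (μ ^ (n - t) * Real.exp (K₁ * L ^ 2)) :=
            mul_le_mul g1 g2 (Nat.cast_nonneg _) (by positivity)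
        _ = (μ ^ t * μ ^ (n - t)) * (Real.exp (K₁ * L ^ 2) * Real.exp (K₁ * L ^ 2)) := by ring
        _ = _ := by
            rw [← pow_add, ← Real.exp_add, show t + (n - t) = n by omega]
            congr 2
            ring
    refine (Finset.sum_le_sum h6).trans ?_
    rw [Finset.sum_const, Finset.card_range, nsmul_eq_mul]
    push_cast
    exact le_rfl
  have h7 : ((n : ℝ) + 1) ≤ Real.exp (4 * L ^ 2 + 4 * L ^ 2) := by
    have e1 : (n : ℝ) + 1 ≤ n ^ 2 := by nlinarith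
    have e2 : (n : ℝ) ^ 2 = Real.exp (2 * L) := by
      rw [hL, show (2 : ℝ) * Real.log n = ((2 : ℕ) : ℝ) * Real.log n by norm_num,
        Real.exp_nat_mul, Real.exp_log (by linarith)]
    rw [e2] at e1
    refine e1.trans (Real.exp_le_exp.2 ?_)
    nlinarith
  calc Real.exp (-S) * ∑ t ∈ Finset.range (n + 1), (cN t : ℝ) * cN (n - t)
      ≤ Real.exp (-S) * ((n + 1) * (μ ^ n * Real.exp (2 * K₁ * L ^ 2))) :=
        mul_le_mul_of_nonneg_left h5 (Real.exp_pos _).le
    _ ≤ Real.exp (-S) * (Real.exp (4 * L ^ 2 + 4 * L ^ 2) * (μ ^ n * Real.exp (2 * K₁ * L ^ 2))) := by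
        refine mul_le_mul_of_nonneg_left ?_ (Real.exp_pos _).le
        exact mul_le_mul_of_nonneg_right h7 (by positivity)
    _ = Real.exp (-x) * μ ^ n := by
        have e : Real.exp (-S) * (Real.exp (4 * L ^ 2 + 4 * L ^ 2) *
            (μ ^ n * Real.exp (2 * K₁ * L ^ 2))) =
            (Real.exp (-S) * Real.exp (4 * L ^ 2 + 4 * L ^ 2) * Real.exp (2 * K₁ * L ^ 2)) *
            μ ^ n := by ring
        rw [e, ← Real.exp_add, ← Real.exp_add]
        congr 2
        rw [hS]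
        ring
    _ ≤ _ := mul_le_mul_of_nonneg_left (hlow n) (Real.exp_pos _).le

end Pool.Agent.U372.HX
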